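import Pool.Agent.Lib_MP_1209e6_sp.P1
import Pool.Agent.Lib_MP_1209e6_ag.Der

/-! PIECE P2: special pencils have an orbifold base of nonpositive degree. -/

set_option autoImplicit false

namespace Pool.Agent.AbPencil

open Pool.Agent.Campana

/-- Proof by contradiction: wlog `none ∈ S` (the terms are `≥ 0`), `S' : Finset ℂ` the finite points,
`s = ∑ b ∈ S', (1 - 1/μ b)`, so `s - 1 - 1/μ none > 0`. Let `M₀ = (∏ b ∈ S', μ b) * μ none` and `M = R M₀` with
`R` so large that `M (s - 1 - 1/μ none) ≥ 1`; `n b = M - M / μ b` (exact division). Then `h1` of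
`regular_sections` holds because `e := v (T - b) ≥ μ b`: `e (M - M/μ b) ≤ M (e - 1)` iff `M ≤ e M/μ b`; and
`h2`: with `e = v T⁻¹ ≥ μ none`, `∑ n b = M s`, `e + M (e + 1) ≤ e M s` iff `M ≤ e (M (s - 1) - 1)`, true since
`M (s - 1) - 1 ≥ M / μ none`. Apply `hs` with `p = 1`, `ω = dForm T`, `f₀ = (∏ …)⁻¹`, `f = fun _ => T f₀`: `f / f₀ = T`
is transcendental (`algebraicIndependent_unique_type_iff` or similar), and `dForm T ≠ 0` since there is
a derivation with `D T = 1` (`exists_derivation` in `Lib_MP_1209e6_ag/Der`, for the family `Fin 1`). -/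
theorem special_bound {K : Type} [Field K] [Algebra ℂ K] (T : K) (hT : Transcendental ℂ T)
    (hs : SpecialField K) (μ : Option ℂ → ℕ) (h1 : ∀ b, 1 ≤ μ b)
    (hμ : ∀ (b : Option ℂ) (O : ValuationSubring K) (v : K → ℤ), IsPlace O → IsOrd O v →
      1 ≤ v (par T b) → (μ b : ℤ) ≤ v (par T b)) (S : Finset (Option ℂ)) :
    ∑ b ∈ S, (1 - 1 / (μ b : ℝ)) ≤ 2 := by
  classical
  by_contra hlt
  push Not at hlt
  have hT0 : T ≠ 0 := by
    rintro rfl
    exact hT isAlgebraic_zero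
  have hTb : ∀ b : ℂ, T - algebraMap ℂ K b ≠ 0 := by
    intro b h
    apply hT
    rw [sub_eq_zero.1 h]
    exact isAlgebraic_algebraMap b
  have hterm : ∀ b, 0 ≤ 1 - 1 / (μ b : ℝ) := by
    intro b
    have h2 : (1 : ℝ) ≤ μ b := by exact_mod_cast h1 b
    rw [sub_nonneg, div_le_one (by linarith)]
    exact h2
  obtain ⟨S', hS'⟩ : ∃ S' : Finset ℂ, S' = Finset.eraseNone S := ⟨_, rfl⟩
  have hsum : 2 < (1 - 1 / (μ none : ℝ)) + ∑ b ∈ S', (1 - 1 / (μ (some b) : ℝ)) := by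
    have h2 : ∑ b ∈ S, (1 - 1 / (μ b : ℝ)) ≤ ∑ b ∈ insert none S, (1 - 1 / (μ b : ℝ)) :=
      Finset.sum_le_sum_of_subset_of_nonneg (Finset.subset_insert _ _) fun b _ _ => hterm b
    rw [← Finset.insertNone_eraseNone, ← hS', Finset.sum_insertNone] at h2
    linarith
  obtain ⟨M, hM⟩ : ∃ M : ℕ, M = (∏ b ∈ S', μ (some b)) * μ none := ⟨_, rfl⟩
  have hM1 : 1 ≤ M := by
    rw [hM]
    exact Nat.mul_pos (Finset.prod_pos fun b _ => h1 _) (h1 _)
  have hdn : μ none ∣ M := by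
    rw [hM]
    exact Dvd.intro_left _ rfl
  have hdb : ∀ b ∈ S', μ (some b) ∣ M := by
    intro b hb
    rw [hM]
    exact Dvd.dvd.mul_right (Finset.dvd_prod_of_mem (fun b => μ (some b)) hb) _
  obtain ⟨q, hq⟩ := hdn
  -- the exponents
  have hn : ∀ b : ℂ, ((M - M / μ (some b) : ℕ) : ℤ) = (M : ℤ) - (M / μ (some b) : ℕ) := by
    intro b
    rw [Nat.cast_sub (Nat.div_le_self _ _)]
  have hnR : ∀ b ∈ S', (((M - M / μ (some b) : ℕ) : ℤ) : ℝ) = M * (1 - 1 / (μ (some b) : ℝ)) := by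
    intro b hb
    have h2 : (μ (some b) : ℝ) ≠ 0 := by
      have := h1 (some b)
      positivity
    rw [hn b, Int.cast_sub, Int.cast_natCast, Int.cast_natCast, Nat.cast_div (hdb b hb) h2]
    ring
  have hbig : (M : ℤ) + q + 1 ≤ ∑ b ∈ S', ((M - M / μ (some b) : ℕ) : ℤ) := by
    have h2 : ((M : ℤ) + q : ℤ) < ∑ b ∈ S', ((M - M / μ (some b) : ℕ) : ℤ) := by
      have h3 : (((M : ℤ) + q : ℤ) : ℝ) < ((∑ b ∈ S', ((M - M / μ (some b) : ℕ) : ℤ) : ℤ) : ℝ) := by
        rw [Int.cast_sum, Finset.sum_congr rfl hnR, ← Finset.mul_sum]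
        push_cast
        have h4 : (0 : ℝ) < M := by exact_mod_cast hM1
        have h5 : (0 : ℝ) < μ none := by exact_mod_cast h1 none
        have h6 : (M : ℝ) = μ none * q := by exact_mod_cast hq
        have h7 : (M : ℝ) * (1 / (μ none : ℝ)) = q := by
          rw [h6]
          field_simp
        have h8 := mul_lt_mul_of_pos_left hsum h4
        rw [mul_add, mul_sub, h7] at h8
        linarith
      exact_mod_cast h3
    omega
  have hreg := regular_sections T hT S' (fun b => M - M / μ (some b)) M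
    (fun b hb O v hO hv hv1 => by
      have h2 : (μ (some b) : ℤ) ≤ v (T - algebraMap ℂ K b) := hμ (some b) O v hO hv hv1
      obtain ⟨e, he⟩ : ∃ e, e = v (T - algebraMap ℂ K b) := ⟨_, rfl⟩
      rw [← he] at h2 ⊢
      obtain ⟨r, hr⟩ := hdb b hb
      have h3 : M / μ (some b) = r := by
        rw [hr]
        exact Nat.mul_div_cancel_left _ (h1 _)
      change e * ((M - M / μ (some b) : ℕ) : ℤ) ≤ M * (e - 1)
      rw [hn b, h3]
      have h4 : (M : ℤ) = μ (some b) * r := by exact_mod_cast hr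
      have h5 : (M : ℤ) ≤ e * r := by
        rw [h4]
        exact mul_le_mul_of_nonneg_right h2 (Int.natCast_nonneg _)
      linarith [mul_sub e (M : ℤ) (r : ℤ), mul_sub (M : ℤ) e 1, mul_comm e (M : ℤ)])
    (fun O v hO hv hv1 => by
      have h2 : (μ none : ℤ) ≤ v T⁻¹ := hμ none O v hO hv hv1
      obtain ⟨e, he⟩ : ∃ e, e = v T⁻¹ := ⟨_, rfl⟩
      rw [← he] at h2 hv1 ⊢
      have h3 : (M : ℤ) = μ none * q := by exact_mod_cast hq
      have h4 : (M : ℤ) ≤ e * q := by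
        rw [h3]
        exact mul_le_mul_of_nonneg_right h2 (Int.natCast_nonneg _)
      have h5 : e * ((M : ℤ) + q + 1) ≤ e * ∑ b ∈ S', ((M - M / μ (some b) : ℕ) : ℤ) :=
        mul_le_mul_of_nonneg_left hbig (by omega)
      calc e + M * (e + 1) ≤ e * ((M : ℤ) + q + 1) := by
            linarith [mul_add e ((M : ℤ) + q) 1, mul_add e (M : ℤ) (q : ℤ), mul_add (M : ℤ) e 1,
              mul_comm e (M : ℤ)]
        _ ≤ _ := h5)
  obtain ⟨f₀, hf₀⟩ : ∃ f₀, f₀ = (∏ b ∈ S', (T - algebraMap ℂ K b) ^ (M - M / μ (some b)))⁻¹ :=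
    ⟨_, rfl⟩
  have hf0 : f₀ ≠ 0 := by
    rw [hf₀]
    exact inv_ne_zero (Finset.prod_ne_zero_iff.2 fun b _ => pow_ne_zero _ (hTb b))
  have hTi : AlgebraicIndependent ℂ (fun _ : Fin 1 => T) :=
    algebraicIndependent_unique_type_iff.2 hT
  have hω : dForm T ≠ 0 := by
    obtain ⟨D, hD⟩ := exists_derivation (fun _ : Fin 1 => T) hTi (fun _ => 1)
    intro h
    have h2 := dForm_apply hT0 fun _ => D
    rw [h, hD 0] at h2
    exact zero_ne_one h2
  refine hs 1 le_rfl (dForm T) hω M hM1 f₀ hf0 (fun _ => T * f₀) (fun O hO => ?_) ?_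
  · obtain ⟨h2, h3⟩ := hreg O hO
    rw [← hf₀] at h2 h3
    exact ⟨h2, fun _ => h3⟩
  · have h2 : (fun _ : Fin 1 => T * f₀ / f₀) = fun _ => T := by
      funext i
      rw [mul_div_assoc, div_self hf0, mul_one]
    rw [h2]
    exact hTi

end Pool.Agent.AbPencil
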