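import Mathlib
import Pool.Agent.Lib_MP_1209e6_ab.Defs
import Pool.Agent.Lib_MP_1209e6_ag.Defs
import Pool.Agent.Lib_MP_1209e6_ag.Control

/-!
# Special abelian pencils: definitions (only used in the proof)

`MP_1209e6_ag`, hand-in SpecialAbelianPencil (board note 2071). A point of `ℙ¹` is an element `b` of
`Option ℂ` (`none` is the point at infinity).
-/

set_option autoImplicit false

open Filter Topology

namespace Pool.Agent.AbPencil

open Pool.Agent.Campana Pool.Agent.AbFib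

/-- The local parameter of the pencil `T` at the point `b` of `ℙ¹`. -/
noncomputable def par {K : Type} [Field K] [Algebra ℂ K] (T : K) : Option ℂ → K
  | some b => T - algebraMap ℂ K b
  | none => T⁻¹

/-- The point of `ℙ¹` with local parameter `s` at `b` (the value in `ℂ` of the coordinate). -/
noncomputable def pt : Option ℂ → ℂ → ℂ
  | some b, s => b + s
  | none, s => s⁻¹

/-- The function `u : ℂ → ℙ¹` (with junk values at the poles) takes each value `b` with multiplicities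
divisible by `μ b`; in particular it is meromorphic and nowhere locally constant. -/
def Ram (μ : Option ℂ → ℕ) (u : ℂ → ℂ) : Prop :=
  ∀ z₀, ∃ (b : Option ℂ) (s : ℂ → ℂ) (k : ℕ), 1 ≤ k ∧ AnalyticAt ℂ s z₀ ∧
    analyticOrderAt s z₀ = (k * μ b : ℕ) ∧ ∀ᶠ z in 𝓝[≠] z₀, u z = pt b (s z)

/-- There is a holomorphic arc `z ↦ V z` in the family with ramification `e` over the point `b` of the
base. -/
def HasArc {K : Type} [Field K] [Algebra ℂ K] {N : ℕ} (T : K) (x : Fin (N + 1) → K) (b : Option ℂ)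
    (e : ℕ) : Prop :=
  ∃ (r : ℂ → ℂ) (V : ℂ → Fin (N + 1) → ℂ), AnalyticAt ℂ r 0 ∧ AnalyticAt ℂ V 0 ∧
    analyticOrderAt r 0 = e ∧ ∀ᶠ z in 𝓝[≠] (0 : ℂ), V z ∈ Fibre (fun _ : Fin 1 => T) x fun _ => pt b (r z)

/-- `θ` is a ring homomorphism over `ℂ` from the place `O` to `κ[X]/(X^(L+1))` (written with values in
`κ[X]`, up to multiples of `X^(L+1)`), which maps the elements of order `≥ s` to the multiples of `X^s`. -/
structure IsTrunc {K κ : Type} [Field K] [Algebra ℂ K] [Field κ] [Algebra ℂ κ] (O : ValuationSubring K)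
    (v : K → ℤ) (L : ℕ) (θ : K → Polynomial κ) : Prop where
  add : ∀ x ∈ O, ∀ y ∈ O, Polynomial.X ^ (L + 1) ∣ θ (x + y) - (θ x + θ y)
  mul : ∀ x ∈ O, ∀ y ∈ O, Polynomial.X ^ (L + 1) ∣ θ (x * y) - θ x * θ y
  const : ∀ c : ℂ, Polynomial.X ^ (L + 1) ∣ θ (algebraMap ℂ K c) - Polynomial.C (algebraMap ℂ κ c)
  ord : ∀ x ∈ O, x ≠ 0 → ∀ s : ℕ, s ≤ L + 1 → (Polynomial.X ^ s ∣ θ x ↔ (s : ℤ) ≤ v x)

/-- A presentation of the function field `K`: `y` is a transcendence basis, `η` is a root of `f` which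
generates `K` over `ℂ(y)`. -/
structure Pres {K : Type} [Field K] [Algebra ℂ K] {d : ℕ} (y : Fin (d + 1) → K) (η : K)
    (f : Polynomial (MvPolynomial (Fin (d + 1)) ℂ)) : Prop where
  ind : AlgebraicIndependent ℂ y
  root : f.eval₂ (MvPolynomial.aeval y).toRingHom η = 0
  sep : (Polynomial.derivative f).eval₂ (MvPolynomial.aeval y).toRingHom η ≠ 0
  dvd : ∀ q : Polynomial (MvPolynomial (Fin (d + 1)) ℂ), q.eval₂ (MvPolynomial.aeval y).toRingHom η = 0 →
    ∃ E : MvPolynomial (Fin (d + 1)) ℂ, E ≠ 0 ∧ ∃ g, Polynomial.C E * q = f * g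
  gen : ∀ a : K, ∃ (S : MvPolynomial (Fin (d + 1)) ℂ) (Q : Polynomial (MvPolynomial (Fin (d + 1)) ℂ)),
    S ≠ 0 ∧ MvPolynomial.aeval y S * a = Q.eval₂ (MvPolynomial.aeval y).toRingHom η

/-- The elliptic curve `y² = x³ + a x² + b x + c` has a nonconstant holomorphic map from `ℂ`. -/
def EllCurve (a b c : ℂ) : Prop :=
  ∃ x y : ℂ → ℂ, (∀ z, MeromorphicAt x z) ∧ (∀ z, MeromorphicAt y z) ∧
    (∀ z₀, ∀ᶠ z in 𝓝[≠] z₀, y z ^ 2 = x z ^ 3 + a * x z ^ 2 + b * x z + c) ∧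
    ∀ e : ℂ, ∀ z₀, ∀ᶠ z in 𝓝[≠] z₀, x z ≠ e

/-- The differential `dT` as a rational `1`-form. -/
noncomputable def dForm {K : Type} [Field K] [Algebra ℂ K] (T : K) : Form K 1 :=
  T • dlogForm fun _ : Fin 1 => T

theorem dForm_apply {K : Type} [Field K] [Algebra ℂ K] {T : K} (hT : T ≠ 0)
    (D : Fin 1 → Derivation ℂ K K) : dForm T D = D 0 T := by
  change T * dlogForm (fun _ : Fin 1 => T) D = D 0 T
  rw [dlogForm_apply, Matrix.det_unique]
  change T * (D 0 T / T) = D 0 T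
  field_simp

/-- Existence of `u` with prescribed multiplicities over `0, 1, ∞`. -/
def Std (m₀ m₁ m₂ : ℕ) : Prop :=
  ∀ μ : Option ℂ → ℕ, μ (some 0) = m₀ → μ (some 1) = m₁ → μ none = m₂ →
    (∀ c : ℂ, c ≠ 0 → c ≠ 1 → μ (some c) = 1) → ∃ u, Ram μ u

/-- Existence of `u` with multiplicities `2` over `0, 1, l, ∞`. -/
def StdFour (l : ℂ) : Prop :=
  ∀ μ : Option ℂ → ℕ, μ (some 0) = 2 → μ (some 1) = 2 → μ (some l) = 2 → μ none = 2 →
    (∀ c : ℂ, c ≠ 0 → c ≠ 1 → c ≠ l → μ (some c) = 1) → ∃ u, Ram μ u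

/-- the inversion of `ℙ¹` -/
noncomputable def inv : Option ℂ → Option ℂ
  | some c => if c = 0 then none else some c⁻¹
  | none => some 0

end Pool.Agent.AbPencil
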