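import Pool.Agent.Lib_MP_1209e6_sp.Defs

/-! PIECE D: the base curve is dense. -/

set_option autoImplicit false

open Filter Topology

namespace Pool.Agent.AbPencil

open Pool.Agent.Campana Pool.Agent.AbFib

private theorem s_ne {s : ℂ → ℂ} {z₀ : ℂ} {n : ℕ} (hs : AnalyticAt ℂ s z₀) (hn : 1 ≤ n)
    (ho : analyticOrderAt s z₀ = n) (c : ℂ) : ∀ᶠ z in 𝓝[≠] z₀, s z ≠ c := by
  have h0 : s z₀ = 0 := by
    by_contra h
    have := (hs.analyticOrderAt_eq_zero).2 h
    rw [this] at ho
    have h2 : (0 : ℕ) = n := by exact_mod_cast ho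
    omega
  by_cases hc : c = 0
  · subst hc
    rcases hs.eventually_eq_zero_or_eventually_ne_zero with h | h
    · exfalso
      have := (analyticOrderAt_eq_top).2 h
      rw [this] at ho
      exact absurd ho (by simp)
    · exact h
  · have h1 : Tendsto s (𝓝 z₀) (𝓝 0) := by
      have := hs.continuousAt.tendsto
      rwa [h0] at this
    have h2 : ∀ᶠ z in 𝓝 z₀, s z ≠ c := h1.eventually_ne (Ne.symm hc)
    exact h2.filter_mono nhdsWithin_le_nhds

private theorem ram_ne (μ : Option ℂ → ℕ) (h1 : ∀ b, 1 ≤ μ b) (u : ℂ → ℂ) (hu : Ram μ u) (z₀ e : ℂ) :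
    ∀ᶠ z in 𝓝[≠] z₀, u z ≠ e := by
  obtain ⟨b, s, k, hk, hs, ho, hus⟩ := hu z₀
  have hn : 1 ≤ k * μ b := Nat.mul_pos hk (h1 b)
  cases b with
  | some b =>
    filter_upwards [hus, s_ne hs hn ho (e - b)] with z h2 h3 h4
    apply h3
    rw [h4] at h2
    simp only [pt] at h2
    rw [h2]; ring
  | none =>
    filter_upwards [hus, s_ne hs hn ho e⁻¹] with z h2 h3 h4
    apply h3
    rw [h4] at h2
    simp only [pt] at h2
    rw [h2, inv_inv]

private theorem ram_mero (μ : Option ℂ → ℕ) (u : ℂ → ℂ) (hu : Ram μ u) (z₀ : ℂ) :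
    MeromorphicAt u z₀ := by
  obtain ⟨b, s, k, hk, hs, ho, hus⟩ := hu z₀
  have h : MeromorphicAt (fun z => pt b (s z)) z₀ := by
    cases b with
    | some b => exact (analyticAt_const.add hs).meromorphicAt
    | none => exact hs.meromorphicAt.inv
  exact h.congr (hus.mono fun z hz => hz.symm)

/-- Proof. `u` is meromorphic at each point (`pt b ∘ s` is; `MeromorphicAt` only depends on the punctured
neighbourhood). If `p ∈ ℂ[X_0]` vanishes along `u` near `z₀` then `p = 0` because `u` takes infinitely many
values near `z₀` (`u - e` is not zero on a punctured neighbourhood for each of the finitely many roots `e` of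
`p`: `s` has finite positive order, so it is not locally constant, and `pt b` is injective); conversely
`aeval T p = 0` implies `p = 0` by `hT`. -/
theorem dense_of_ram {K : Type} [Field K] [Algebra ℂ K] (T : K) (hT : Transcendental ℂ T)
    (μ : Option ℂ → ℕ) (h1 : ∀ b, 1 ≤ μ b) (u : ℂ → ℂ) (hu : Ram μ u) :
    IsDenseCurve (fun _ : Fin 1 => T) fun z _ => u z := by
  refine ⟨fun z => ?_, fun p => ?_⟩
  · obtain ⟨n, hn⟩ := ram_mero μ u hu z
    refine ⟨n, ?_⟩
    have h2 : AnalyticAt ℂ (fun w => fun _ : Fin 1 => (w - z) ^ n • u w) z :=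
      AnalyticAt.pi fun _ => hn
    exact h2
  · -- the polynomial in one variable
    set q : Polynomial ℂ := MvPolynomial.aeval (fun _ : Fin 1 => (Polynomial.X : Polynomial ℂ)) p with hq
    have hev : ∀ {A : Type} [CommRing A] [Algebra ℂ A] (a : A),
        Polynomial.aeval a q = MvPolynomial.aeval (fun _ : Fin 1 => a) p := by
      intro A _ _ a
      rw [hq, ← AlgHom.comp_apply, MvPolynomial.comp_aeval]
      simp
    have hq0 : q = 0 → p = 0 := by
      intro h
      have h2 := hev (A := MvPolynomial (Fin 1) ℂ) (MvPolynomial.X 0)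
      rw [h, map_zero] at h2
      have h3 : (fun _ : Fin 1 => (MvPolynomial.X 0 : MvPolynomial (Fin 1) ℂ)) = MvPolynomial.X := by
        funext i
        rw [Subsingleton.elim i 0]
      rw [h3, MvPolynomial.aeval_X_left, AlgHom.id_apply] at h2
      exact h2.symm
    constructor
    · intro h
      have h2 : p = 0 := by
        apply hq0
        by_contra hne
        have h3 : Polynomial.aeval T q ≠ 0 := (transcendental_iff.1 hT) q |> fun f h4 => hne (f h4)
        exact h3 (by rw [hev]; exact h)
      intro z₀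
      filter_upwards with z
      rw [h2, map_zero]
    · intro h
      by_contra hp
      have hqne : q ≠ 0 := by
        intro h2
        apply hp
        rw [hq0 h2, map_zero]
      have h3 : ∀ᶠ z in 𝓝[≠] (0 : ℂ), ∀ e ∈ q.roots.toFinset, u z ≠ e := by
        rw [Filter.eventually_all_finset]
        intro e _
        exact ram_ne μ h1 u hu 0 e
      obtain ⟨z, hz1, hz2⟩ := (h3.and (h 0)).exists
      have h4 : q.eval (u z) = 0 := by
        have h5 := hev (A := ℂ) (u z)
        rw [Polynomial.coe_aeval_eq_eval] at h5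
        rw [h5]
        rw [← hz2]
        exact congrFun (congrArg DFunLike.coe (MvPolynomial.coe_aeval_eq_eval fun _ : Fin 1 => u z)) p
      exact hz1 (u z) (by rw [Multiset.mem_toFinset, Polynomial.mem_roots hqne]; exact h4) rfl

end Pool.Agent.AbPencil
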