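import Pool.Agent.Lib_MP_1209e6_sp.E1
import Pool.Agent.Lib_MP_1209e6_ab.B8

/-! PIECE E2: nonconstant holomorphic maps from `ℂ` to elliptic curves. -/

set_option autoImplicit false

open Filter Topology

namespace Pool.Agent.AbPencil

open Pool.Agent.Campana Pool.Agent.AbFib

/-- points near `z₀` but different from `z₀` -/
private theorem move_ne {A : ℂ → PS 2} (hA : ∀ z₀, ∀ᶠ t in 𝓝[≠] (0 : ℂ), A (z₀ + t) ≠ A z₀)
    (z₀ : ℂ) (p : PS 2) : ¬ ∀ᶠ w in 𝓝 z₀, A w = p := by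
  intro h
  have h0 : A z₀ = p := h.self_of_nhds
  have h1 : Tendsto (fun t : ℂ => z₀ + t) (𝓝[≠] 0) (𝓝 z₀) := by
    have h2 : Tendsto (fun t : ℂ => z₀ + t) (𝓝 0) (𝓝 (z₀ + 0)) :=
      (continuous_const.add continuous_id).tendsto 0
    rw [add_zero] at h2
    exact h2.mono_left nhdsWithin_le_nhds
  have h3 := h1.eventually h
  obtain ⟨t, ht1, ht2⟩ := ((hA z₀).and h3).exists
  exact ht1 (ht2.trans h0.symm)

private theorem move_ne' {A : ℂ → PS 2} (hA : ∀ z₀, ∀ᶠ t in 𝓝[≠] (0 : ℂ), A (z₀ + t) ≠ A z₀)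
    (z₀ : ℂ) (p : PS 2) : ¬ ∀ᶠ w in 𝓝[≠] z₀, A w = p := by
  intro h
  have h1 := eventually_eventually_nhdsWithin.2 h
  obtain ⟨z₁, hz₁, hne⟩ := (h1.and self_mem_nhdsWithin).exists
  rw [isOpen_compl_singleton.nhdsWithin_eq hne] at hz₁
  exact move_ne hA z₁ p hz₁

/-- At each point of the fibre the vector field is nonzero in some chart. -/
private theorem exists_chart_ne {K : Type} [Field K] [Algebra ℂ K] (F : Fam 0 2 1 K) {a b c : ℂ}
    (h : ∀ x : ℂ, x ^ 3 + a * x ^ 2 + b * x + c = 0 → 3 * x ^ 2 + 2 * a * x + b ≠ 0)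
    (hcub : ∀ u, ∀ v ∈ F.fib u, v 2 ^ 2 * v 0 =
        v 1 ^ 3 + a * v 1 ^ 2 * v 0 + b * v 1 * v 0 ^ 2 + c * v 0 ^ 3)
    (hP : ∀ (u : Fin 0 → ℂ) (v : Fin 3 → ℂ),
        MvPolynomial.aeval (Sum.elim u v) (F.P 0 0 1) = 2 * v 2 ∧
        MvPolynomial.aeval (Sum.elim u v) (F.P 0 0 2) = 3 * v 1 ^ 2 + 2 * a * v 1 + b ∧
        MvPolynomial.aeval (Sum.elim u v) (F.P 0 2 1) =
          -1 + a * v 1 ^ 2 + 2 * b * v 1 * v 0 + 3 * c * v 0 ^ 2)
    (u : Fin 0 → ℂ) {v : Fin 3 → ℂ} (hv : v ∈ F.fib u) :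
    ∃ (w : Fin 3 → ℂ) (j l : Fin 3), w ∈ F.fib u ∧ pm v = pm w ∧ w j = 1 ∧
      MvPolynomial.aeval (Sum.elim u w) (F.P 0 j l) ≠ 0 := by
  by_cases h0 : v 0 = 0
  · have hc := hcub u v hv
    rw [h0] at hc
    have h1 : v 1 ^ 3 = 0 := by linear_combination -hc
    have h1' : v 1 = 0 := pow_eq_zero_iff (by norm_num) |>.1 h1
    have h2 : v 2 ≠ 0 := by
      intro h2
      apply hv.1
      funext i
      fin_cases i
      · exact h0
      · exact h1'
      · exact h2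
    have hi : (v 2)⁻¹ ≠ 0 := inv_ne_zero h2
    refine ⟨(v 2)⁻¹ • v, 2, 1, F.fib_smul hi hv, (pm_smul hi v).symm, ?_, ?_⟩
    · rw [Pi.smul_apply, smul_eq_mul, inv_mul_cancel₀ h2]
    · rw [(hP _ _).2.2, Pi.smul_apply, Pi.smul_apply, h0, h1']
      simp
  · have hi : (v 0)⁻¹ ≠ 0 := inv_ne_zero h0
    have hw : (v 0)⁻¹ • v ∈ F.fib u := F.fib_smul hi hv
    have hw0 : ((v 0)⁻¹ • v) 0 = 1 := by
      rw [Pi.smul_apply, smul_eq_mul, inv_mul_cancel₀ h0]
    have hc := hcub u _ hw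
    rw [hw0] at hc
    by_cases h2 : ((v 0)⁻¹ • v) 2 = 0
    · refine ⟨(v 0)⁻¹ • v, 0, 2, hw, (pm_smul hi v).symm, hw0, ?_⟩
      rw [(hP _ _).2.1]
      apply h
      rw [h2] at hc
      linear_combination -hc
    · refine ⟨(v 0)⁻¹ • v, 0, 1, hw, (pm_smul hi v).symm, hw0, ?_⟩
      rw [(hP _ _).1]
      exact mul_ne_zero two_ne_zero h2

/-- Proof. `F` from `exists_ellFam`, `Φ` from `F.nonempty_flowAPI`, `v₀ ∈ F.fib 0` (`u = 0 : Fin 0 → ℂ`, all `u` are equal),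
`A z = Φ.Φ 0 (fun _ => z) (pm v₀) : PS 2`, always in `F.Pts 0` (`Φ.mem`), and `HolAt A z` for each `z` (`Φ.hol` with constant
`u` and `a`, `τ z = fun _ => z`).
(1) `A` is not constant near any `z₀`: let `A z₀ = pm v`, `v ∈ F.fib 0`. If `v 0 ≠ 0` we may take `v 0 = 1` (`fib_smul`); then
`(2 v 2, 3 (v 1)^2 + 2 a v 1 + b) ≠ 0` because `(v 2)^2 = (v 1)^3 + a (v 1)^2 + b v 1 + c` and `h`. If `v 0 = 0` then `v 1 = 0` by the
cubic relation and we may take `v = (0, 0, 1)`, where `P 0 2 1` has the value `-1`. In both cases there are `j, l` with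
`v j = 1` and `κ = P 0 j l (v) ≠ 0`; `Φ.expand` (and `Φ.add`): `A (z₀ + τ) = Φ τ (A z₀) = pm w`, `w j = 1`,
`|w l - v l - τ κ| ≤ C |τ|²`, so `w l ≠ v l` and `A (z₀ + τ) ≠ A z₀` for `τ ≠ 0` near `0`.
(2) Write `A w = pm (V w)` near `z₀`, `V` analytic, `V z₀ ≠ 0` (`HolAt`); `V w` satisfies the cubic relation. `V 0` is not
locally zero (otherwise `V 1 = 0` and `A = pm (0, 0, 1)` is constant near `z₀`). Put `x = A₁/A₀`, `y = A₂/A₀` (the quotients of
the coordinates of a representative, well defined on `PS 2`): near `z₀` (off `z₀`) they are `V 1/V 0`, `V 2/V 0`: meromorphic,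
and the equation holds where `V 0 ≠ 0`.
(3) If `x - e` is not eventually nonzero near `z₀` then (identity theorem for meromorphic functions,
`MeromorphicAt.eventually_eq_zero_or_eventually_ne_zero`) `x = e` near `z₀`, `z ≠ z₀`; then `y^2` is constant, so `y` is constant
near `z₀`, `z ≠ z₀` (it is meromorphic, `(y - y₁)(y + y₁) = 0`), and `A = pm (1, x, y)` is constant near a point. -/
theorem ellCurve (a b c : ℂ)
    (h : ∀ x : ℂ, x ^ 3 + a * x ^ 2 + b * x + c = 0 → 3 * x ^ 2 + 2 * a * x + b ≠ 0) :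
    EllCurve a b c := by
  obtain ⟨K, _, _, F, hne, hcub, hP⟩ := exists_ellFam a b c
  obtain ⟨Φ⟩ := F.nonempty_flowAPI
  obtain ⟨v₀, hv₀⟩ := hne 0
  have hp₀ : pm v₀ ∈ F.Pts 0 := ⟨v₀, hv₀, rfl⟩
  let A : ℂ → PS 2 := fun z => Φ.Φ 0 (fun _ => z) (pm v₀)
  have hmem : ∀ z, A z ∈ F.Pts 0 := fun z => Φ.mem 0 _ _ hp₀
  have hhol : ∀ z, HolAt A z := by
    intro z
    refine Φ.hol (fun _ => 0) (fun w _ => w) (fun _ => pm v₀) z analyticAt_const ?_ ?_
    · exact AnalyticAt.pi fun _ => analyticAt_id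
    · exact ⟨⟨fun _ => v₀, analyticAt_const, hv₀.1, Eventually.of_forall fun _ => rfl⟩,
        Eventually.of_forall fun _ => hp₀⟩
  -- (1)
  have hA : ∀ z₀, ∀ᶠ t in 𝓝[≠] (0 : ℂ), A (z₀ + t) ≠ A z₀ := by
    intro z₀
    obtain ⟨v, hv, hAv⟩ := hmem z₀
    obtain ⟨w, j, l, hw, hvw, hwj, hκ⟩ := exists_chart_ne F h hcub hP 0 hv
    obtain ⟨ρ, C, hρ, hC, H⟩ := Φ.expand ‖w‖
    set κ := MvPolynomial.aeval (Sum.elim 0 w) (F.P 0 j l) with hκdef
    have hκ' : 0 < ‖κ‖ := norm_pos_iff.2 hκ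
    have hev : ∀ᶠ t in 𝓝[≠] (0 : ℂ), ‖t‖ < ρ ∧ C * ‖t‖ < ‖κ‖ := by
      refine Filter.Eventually.filter_mono nhdsWithin_le_nhds ?_
      have c1 : Tendsto (fun t : ℂ => ‖t‖) (𝓝 0) (𝓝 0) := by
        simpa using (continuous_norm (E := ℂ)).tendsto 0
      have c2 : Tendsto (fun t : ℂ => C * ‖t‖) (𝓝 0) (𝓝 0) := by
        simpa using c1.const_mul C
      exact (c1.eventually (gt_mem_nhds hρ)).and (c2.eventually (gt_mem_nhds hκ'))
    filter_upwards [hev, self_mem_nhdsWithin] with t ht ht0 heq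
    have ht0' : 0 < ‖t‖ := norm_pos_iff.2 ht0
    have hn : ‖(fun _ : Fin 1 => t)‖ = ‖t‖ := pi_norm_const t
    have h0n : ‖(0 : Fin 0 → ℂ)‖ ≤ ‖w‖ := by
      rw [norm_zero]; exact norm_nonneg _
    obtain ⟨w', hw', hw'j, hΦ, hexp⟩ := H j 0 w (fun _ => t) h0n le_rfl hw hwj (by rw [hn]; exact ht.1.le)
    have hadd : A (z₀ + t) = Φ.Φ 0 (fun _ => t) (A z₀) := by
      have e1 : (fun _ : Fin 1 => z₀ + t) = (fun _ => t) + fun _ => z₀ := by
        funext i
        exact add_comm _ _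
      change Φ.Φ 0 (fun _ => z₀ + t) (pm v₀) = _
      rw [e1, Φ.add 0 _ _ _ hp₀]
    have hpm : pm w' = pm w := by
      rw [← hΦ, ← hvw, ← hAv, ← hadd, heq]
    obtain ⟨d, _, hd⟩ := pm_eq_iff.1 hpm
    have hd1 : d = 1 := by
      have := congrFun hd j
      rw [Pi.smul_apply, hwj, hw'j, smul_eq_mul, mul_one] at this
      exact this.symm
    have hww : w' = w := by rw [hd, hd1, one_smul]
    have h5 := hexp l
    rw [hww, hn, Fin.sum_univ_one, sub_self, zero_sub, norm_neg, norm_mul] at h5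
    have h6 : ‖t‖ * ‖κ‖ ≤ C * ‖t‖ ^ 2 := h5
    have h7 : ‖t‖ * ‖κ‖ ≤ ‖t‖ * (C * ‖t‖) := by
      calc ‖t‖ * ‖κ‖ ≤ C * ‖t‖ ^ 2 := h6
        _ = ‖t‖ * (C * ‖t‖) := by ring
    have h8 := le_of_mul_le_mul_left h7 ht0'
    exact absurd h8 (not_le.2 ht.2)
  -- representatives
  choose rep hrep using fun z => exists_pm (A z)
  have hloc : ∀ z₀, ∃ V : ℂ → Fin 3 → ℂ, (∀ i, AnalyticAt ℂ (fun w => V w i) z₀) ∧
      (∀ᶠ w in 𝓝[≠] z₀, V w 0 ≠ 0) ∧
      ∀ᶠ w in 𝓝 z₀, A w = pm (V w) ∧ (∀ i, rep w i / rep w 0 = V w i / V w 0) ∧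
        V w 2 ^ 2 * V w 0 = V w 1 ^ 3 + a * V w 1 ^ 2 * V w 0 + b * V w 1 * V w 0 ^ 2 + c * V w 0 ^ 3 := by
    intro z₀
    obtain ⟨V, hV, hV0, hVA⟩ := hhol z₀
    have hVi : ∀ i, AnalyticAt ℂ (fun w => V w i) z₀ := fun i =>
      ((ContinuousLinearMap.proj (R := ℂ) (φ := fun _ : Fin 3 => ℂ) i).analyticAt _).comp hV
    have hall : ∀ᶠ w in 𝓝 z₀, A w = pm (V w) ∧ (∀ i, rep w i / rep w 0 = V w i / V w 0) ∧
        V w 2 ^ 2 * V w 0 = V w 1 ^ 3 + a * V w 1 ^ 2 * V w 0 + b * V w 1 * V w 0 ^ 2 + c * V w 0 ^ 3 := by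
      filter_upwards [hVA] with w hw
      refine ⟨hw, ?_, ?_⟩
      · intro i
        have h1 : pm (rep w) = pm (V w) := (hrep w).symm.trans hw
        obtain ⟨d, hd0, hd⟩ := pm_eq_iff.1 h1
        rw [hd, Pi.smul_apply, Pi.smul_apply, smul_eq_mul, smul_eq_mul, mul_div_mul_left _ _ hd0]
      · refine hcub 0 _ ?_
        rw [← F.pm_mem_iff, ← hw]
        exact hmem w
    refine ⟨V, hVi, ?_, hall⟩
    rcases (hVi 0).eventually_eq_zero_or_eventually_ne_zero with h0 | h0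
    · exfalso
      refine move_ne hA z₀ (pm ![0, 0, 1]) ?_
      have hVne : ∀ᶠ w in 𝓝 z₀, V w ≠ 0 := hV.continuousAt.eventually_ne hV0
      filter_upwards [h0, hall, hVne] with w h0 hw hne
      rw [hw.1]
      have hc := hw.2.2
      rw [h0] at hc
      have h1 : V w 1 ^ 3 = 0 := by linear_combination -hc
      have h1' : V w 1 = 0 := pow_eq_zero_iff (by norm_num) |>.1 h1
      have h2 : V w 2 ≠ 0 := by
        intro h2
        apply hne
        funext i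
        fin_cases i
        · exact h0
        · exact h1'
        · exact h2
      refine pm_eq_iff.2 ⟨V w 2, h2, ?_⟩
      funext i
      fin_cases i
      · simpa using h0
      · simpa using h1'
      · simp
    · exact h0
  have hmx : ∀ i z, MeromorphicAt (fun w => rep w i / rep w 0) z := by
    intro i z
    obtain ⟨V, hVi, _, hall⟩ := hloc z
    have h1 : MeromorphicAt (fun w => V w i / V w 0) z :=
      (hVi i).meromorphicAt.div (hVi 0).meromorphicAt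
    refine h1.congr ?_
    refine Filter.Eventually.filter_mono nhdsWithin_le_nhds ?_
    filter_upwards [hall] with w hw
    exact (hw.2.1 i).symm
  refine ⟨fun w => rep w 1 / rep w 0, fun w => rep w 2 / rep w 0, hmx 1, hmx 2, ?_, ?_⟩
  · intro z₀
    obtain ⟨V, hVi, h0, hall⟩ := hloc z₀
    filter_upwards [h0, Filter.Eventually.filter_mono nhdsWithin_le_nhds hall] with w h0 hw
    have hc := hw.2.2
    rw [hw.2.1 1, hw.2.1 2]
    field_simp
    linear_combination hc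
  · intro e z₀
    obtain ⟨V, hVi, h0, hall⟩ := hloc z₀
    have hall' := Filter.Eventually.filter_mono (nhdsWithin_le_nhds (s := {z₀}ᶜ)) hall
    have hme : MeromorphicAt (fun w => rep w 1 / rep w 0 - e) z₀ :=
      (hmx 1 z₀).sub (MeromorphicAt.const e z₀)
    rcases hme.eventually_eq_zero_or_eventually_ne_zero with hz | hz
    · exfalso
      obtain ⟨y₁, hy₁⟩ : ∃ y₁ : ℂ, y₁ ^ 2 = e ^ 3 + a * e ^ 2 + b * e + c :=
        IsAlgClosed.exists_pow_nat_eq _ (by norm_num)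
      have hsq : ∀ᶠ w in 𝓝[≠] z₀, (rep w 2 / rep w 0) ^ 2 = y₁ ^ 2 := by
        filter_upwards [h0, hall', hz] with w h0 hw hz
        have hx : V w 1 / V w 0 = e := by
          rw [← hw.2.1 1]
          exact sub_eq_zero.1 hz
        have hc := hw.2.2
        rw [hw.2.1 2, hy₁, ← hx]
        field_simp
        linear_combination hc
      have hy : ∃ y₂ : ℂ, ∀ᶠ w in 𝓝[≠] z₀, rep w 2 / rep w 0 = y₂ := by
        have hmy : MeromorphicAt (fun w => rep w 2 / rep w 0 - y₁) z₀ :=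
          (hmx 2 z₀).sub (MeromorphicAt.const y₁ z₀)
        rcases hmy.eventually_eq_zero_or_eventually_ne_zero with h1 | h1
        · exact ⟨y₁, h1.mono fun w hw => sub_eq_zero.1 hw⟩
        · refine ⟨-y₁, ?_⟩
          filter_upwards [h1, hsq] with w h1 h2
          rcases sq_eq_sq_iff_eq_or_eq_neg.1 h2 with h3 | h3
          · exact absurd (sub_eq_zero.2 h3) h1
          · exact h3
      obtain ⟨y₂, hy₂⟩ := hy
      refine move_ne' hA z₀ (pm ![1, e, y₂]) ?_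
      filter_upwards [h0, hall', hz, hy₂] with w h0 hw hz hy
      rw [hw.1]
      refine pm_eq_iff.2 ⟨V w 0, h0, ?_⟩
      have hx : V w 1 / V w 0 = e := by
        rw [← hw.2.1 1]
        exact sub_eq_zero.1 hz
      have hy' : V w 2 / V w 0 = y₂ := by
        rw [← hw.2.1 2]
        exact hy
      funext i
      fin_cases i
      · simp
      · simp [← hx]
        field_simp
      · simp [← hy']
        field_simp
    · exact hz.mono fun w hw h => hw (sub_eq_zero.2 h)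

end Pool.Agent.AbPencil
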