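import Pool.Agent.Lib_MP_1209e6_sp.U1

/-! PIECE U2: exponential uniformisations. -/

set_option autoImplicit false

open Filter Topology

namespace Pool.Agent.AbPencil

private theorem exp_ne (e z₀ : ℂ) : ∀ᶠ z in 𝓝[≠] z₀, Complex.exp z ≠ e := by
  have hA : AnalyticAt ℂ (fun z => Complex.exp z - e) z₀ := by fun_prop
  rcases hA.eventually_eq_zero_or_eventually_ne_zero with h | h
  · exfalso
    have hd : HasDerivAt (fun z => Complex.exp z - e) (Complex.exp z₀) z₀ :=
      (Complex.hasDerivAt_exp z₀).sub_const e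
    have h0 : HasDerivAt (fun z => Complex.exp z - e) 0 z₀ :=
      (hasDerivAt_const z₀ (0 : ℂ)).congr_of_eventuallyEq h
    exact Complex.exp_ne_zero z₀ (hd.unique h0)
  · filter_upwards [h] with z hz h'
    exact hz (by rw [h', sub_self])

private theorem two_dvd {g h : ℂ → ℂ} {z₀ : ℂ} (hg : AnalyticAt ℂ g z₀) (hg0 : g z₀ ≠ 0)
    (hh : AnalyticAt ℂ h z₀) {n : ℤ} (hn : meromorphicOrderAt (fun z => g z * h z ^ 2) z₀ = n) :
    (2 : ℤ) ∣ n := by
  have h1 : meromorphicOrderAt (g * h ^ 2) z₀ = n := hn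
  rw [meromorphicOrderAt_mul_of_ne_zero hg hg0, meromorphicOrderAt_pow hh.meromorphicAt] at h1
  by_cases ht : meromorphicOrderAt h z₀ = ⊤
  · exfalso
    rw [ht] at h1
    have h2 : ((2 : ℕ) : WithTop ℤ) * ⊤ = ⊤ := WithTop.mul_top (by norm_num)
    rw [h2] at h1
    exact WithTop.coe_ne_top h1.symm
  · lift meromorphicOrderAt h z₀ to ℤ using ht with m hm
    refine ⟨m, ?_⟩
    have h2 : (((2 : ℕ) : WithTop ℤ)) * (m : WithTop ℤ) = ((2 * m : ℤ) : WithTop ℤ) := by
      push_cast
      rfl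
    rw [h2] at h1
    exact_mod_cast h1.symm

/-- `u = exp`, which has no zero and no pole, and `exp - c` has a zero of order at most 1. Note: `μ b = 1` for
`b ≠ 0, ∞`, so no information on the order of `exp - c` is needed. -/
theorem ram_exp (μ : Option ℂ → ℕ) (h1 : ∀ b, 1 ≤ μ b) (h : ∀ c : ℂ, c ≠ 0 → μ (some c) = 1) :
    ∃ u, Ram μ u := by
  refine ⟨Complex.exp, ram_of_order μ h1 Complex.exp ?_ exp_ne ?_ ?_⟩
  · intro z
    have hA : AnalyticAt ℂ Complex.exp z := by fun_prop
    exact hA.meromorphicAt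
  · intro c z₀ n hn ho
    by_cases hc : c = 0
    · exfalso
      subst hc
      have hA : AnalyticAt ℂ (fun z => Complex.exp z - 0) z₀ := by fun_prop
      have h0 : analyticOrderAt (fun z => Complex.exp z - 0) z₀ = 0 := by
        rw [hA.analyticOrderAt_eq_zero, sub_zero]
        exact Complex.exp_ne_zero z₀
      rw [hA.meromorphicOrderAt_eq, h0] at ho
      have h2 : (0 : WithTop ℤ) = (n : WithTop ℤ) := ho
      have h3 : (0 : ℤ) = n := by exact_mod_cast h2
      omega
    · rw [h c hc]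
      exact ⟨n, by simp⟩
  · intro z₀ n hn ho
    exfalso
    have hA : AnalyticAt ℂ Complex.exp z₀ := by fun_prop
    have h2 := hA.meromorphicOrderAt_nonneg
    rw [ho] at h2
    have h3 : (0 : ℤ) ≤ n := by exact_mod_cast h2
    omega

/-- `u = (w + 1)^2 / (4 w)`, `w = exp z`: no poles, `u - 1 = (w - 1)^2 / (4 w)`. -/
theorem std_dihedral (n : ℕ) (hn : 1 ≤ n) : Std 2 2 n := by
  intro μ m0 m1 mn hμ
  have h1 : ∀ b, 1 ≤ μ b := by
    intro b
    cases b with
    | none => rw [mn]; exact hn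
    | some c =>
      by_cases hc0 : c = 0
      · subst hc0; rw [m0]; norm_num
      by_cases hc1 : c = 1
      · subst hc1; rw [m1]; norm_num
      rw [hμ c hc0 hc1]
  have hg : ∀ z₀, AnalyticAt ℂ (fun z => (4 * Complex.exp z)⁻¹) z₀ := by
    intro z₀
    have : AnalyticAt ℂ (fun z => 4 * Complex.exp z) z₀ := by fun_prop
    exact this.inv (mul_ne_zero (by norm_num) (Complex.exp_ne_zero z₀))
  have hg0 : ∀ z₀, (fun z => (4 * Complex.exp z)⁻¹) z₀ ≠ 0 := fun z₀ =>
    inv_ne_zero (mul_ne_zero (by norm_num) (Complex.exp_ne_zero z₀))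
  have hA : ∀ z₀, AnalyticAt ℂ (fun z => (4 * Complex.exp z)⁻¹ * (Complex.exp z + 1) ^ 2) z₀ := by
    intro z₀
    exact (hg z₀).mul (by fun_prop)
  refine ⟨fun z => (4 * Complex.exp z)⁻¹ * (Complex.exp z + 1) ^ 2,
    ram_of_order μ h1 _ (fun z => (hA z).meromorphicAt) ?_ ?_ ?_⟩
  · intro e z₀
    obtain ⟨d, hd⟩ := IsAlgClosed.exists_pow_nat_eq ((2 - 4 * e) ^ 2 - 4) (n := 2) (by norm_num)
    filter_upwards [exp_ne ((-(2 - 4 * e) + d) / 2) z₀, exp_ne ((-(2 - 4 * e) - d) / 2) z₀]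
      with z hz1 hz2 hz
    have hw : Complex.exp z ≠ 0 := Complex.exp_ne_zero z
    have h2 : (Complex.exp z + 1) ^ 2 = 4 * Complex.exp z * e := by
      rw [← hz]
      field_simp
    have h3 : (Complex.exp z - (-(2 - 4 * e) + d) / 2) *
        (Complex.exp z - (-(2 - 4 * e) - d) / 2) = 0 := by
      linear_combination h2 - (1 / 4 : ℂ) * hd
    rcases mul_eq_zero.mp h3 with h4 | h4
    · exact hz1 (by linear_combination h4)
    · exact hz2 (by linear_combination h4)
  · intro c z₀ k hk ho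
    by_cases hc0 : c = 0
    · subst hc0
      rw [m0]
      have e1 : (fun z => (4 * Complex.exp z)⁻¹ * (Complex.exp z + 1) ^ 2 - 0) =
          fun z => (4 * Complex.exp z)⁻¹ * (Complex.exp z + 1) ^ 2 := by
        funext z
        rw [sub_zero]
      rw [e1] at ho
      exact two_dvd (h := fun z => Complex.exp z + 1) (hg z₀) (hg0 z₀) (by fun_prop) ho
    by_cases hc1 : c = 1
    · subst hc1
      rw [m1]
      have e1 : (fun z => (4 * Complex.exp z)⁻¹ * (Complex.exp z + 1) ^ 2 - 1) =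
          fun z => (4 * Complex.exp z)⁻¹ * (Complex.exp z - 1) ^ 2 := by
        funext z
        have hw : Complex.exp z ≠ 0 := Complex.exp_ne_zero z
        field_simp
        ring
      rw [e1] at ho
      exact two_dvd (h := fun z => Complex.exp z - 1) (hg z₀) (hg0 z₀) (by fun_prop) ho
    rw [hμ c hc0 hc1]
    exact ⟨k, by simp⟩
  · intro z₀ k hk ho
    exfalso
    have h2 := (hA z₀).meromorphicOrderAt_nonneg
    rw [ho] at h2
    have h3 : (0 : ℤ) ≤ k := by exact_mod_cast h2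
    omega

end Pool.Agent.AbPencil
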