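import Pool.Agent.Lib_MP_1209e6_sp.U1

/-! PIECE U3: octahedron and icosahedron. -/

set_option autoImplicit false

open Filter Topology

namespace Pool.Agent.AbPencil

private theorem poly_an (P : Polynomial ℂ) (z₀ : ℂ) : AnalyticAt ℂ (fun z => P.eval z) z₀ := by
  have h : Differentiable ℂ (fun z => P.eval z) := P.differentiable
  exact h.analyticAt z₀

private theorem poly_ne (P : Polynomial ℂ) (hP : P ≠ 0) (z₀ : ℂ) : ∀ᶠ z in 𝓝[≠] z₀, P.eval z ≠ 0 := by
  rcases (poly_an P z₀).eventually_eq_zero_or_eventually_ne_zero with h | h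
  · exfalso
    have hfin : {z : ℂ | P.eval z = 0}.Finite := by
      have := (Polynomial.finite_setOf_isRoot hP)
      exact this
    have hinf : {z : ℂ | P.eval z = 0}.Infinite := infinite_of_mem_nhds z₀ h
    exact hinf hfin
  · exact h

private theorem poly_ord (P : Polynomial ℂ) (hP : P ≠ 0) (z₀ : ℂ) : ∃ k : ℕ,
    meromorphicOrderAt (fun z => P.eval z) z₀ = ((k : ℤ) : WithTop ℤ) ∧ (P.eval z₀ ≠ 0 → k = 0) := by
  have ha := poly_an P z₀
  have hne : analyticOrderAt (fun z => P.eval z) z₀ ≠ ⊤ := by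
    intro h
    rw [analyticOrderAt_eq_top] at h
    obtain ⟨z, h1, h2⟩ := ((poly_ne P hP z₀).and (h.filter_mono nhdsWithin_le_nhds)).exists
    exact h1 h2
  obtain ⟨k, hk⟩ := ENat.ne_top_iff_exists.1 hne
  refine ⟨k, ?_, fun h => ?_⟩
  · rw [ha.meromorphicOrderAt_eq, ← hk]
    rfl
  · have := (ha.analyticOrderAt_eq_zero).2 h
    rw [this] at hk
    exact_mod_cast hk

private theorem quot_ord (n m : ℕ) (A F : Polynomial ℂ) (hA : A ≠ 0) (hF : F ≠ 0) (c : ℂ) (hc : c ≠ 0)
    (hAF : ∀ z, F.eval z = 0 → A.eval z ≠ 0) (z₀ : ℂ) (k : ℤ)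
    (hk : meromorphicOrderAt (fun z => c * A.eval z ^ m * (F.eval z ^ n)⁻¹) z₀ = k) :
    (0 < k → (m : ℤ) ∣ k) ∧ (k < 0 → (n : ℤ) ∣ k) := by
  obtain ⟨a, ha, ha'⟩ := poly_ord A hA z₀
  obtain ⟨b, hb, hb'⟩ := poly_ord F hF z₀
  have mA : MeromorphicAt (fun z => A.eval z) z₀ := (poly_an A z₀).meromorphicAt
  have mF : MeromorphicAt (fun z => F.eval z) z₀ := (poly_an F z₀).meromorphicAt
  have mc : MeromorphicAt (fun _ : ℂ => c) z₀ := analyticAt_const.meromorphicAt
  have h1 : (fun z => c * A.eval z ^ m * (F.eval z ^ n)⁻¹) =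
      ((fun _ : ℂ => c) * (fun z => A.eval z) ^ m) * ((fun z => F.eval z) ^ n)⁻¹ := by
    funext z; simp
  rw [h1, meromorphicOrderAt_mul (mc.mul (mA.pow m)) (mF.pow n).inv, meromorphicOrderAt_mul mc (mA.pow m),
    meromorphicOrderAt_inv, meromorphicOrderAt_pow mA, meromorphicOrderAt_pow mF, ha, hb,
    meromorphicOrderAt_const, if_neg hc] at hk
  have h2 : (m : ℤ) * a - (n : ℤ) * b = k := by
    have h3 : (((m : ℤ) * a - (n : ℤ) * b : ℤ) : WithTop ℤ) = (k : WithTop ℤ) := by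
      rw [← hk]
      have e1 : ((m : WithTop ℤ)) = (((m : ℤ)) : WithTop ℤ) := rfl
      have e2 : ((n : WithTop ℤ)) = (((n : ℤ)) : WithTop ℤ) := rfl
      rw [e1, e2, ← WithTop.coe_mul, ← WithTop.coe_mul, zero_add]
      rw [sub_eq_add_neg, WithTop.coe_add]
      rfl
    exact_mod_cast h3
  constructor
  · intro hpos
    have hb0 : b = 0 := by
      by_cases h : F.eval z₀ = 0
      · have ha0 := ha' (hAF z₀ h)
        rw [ha0] at h2
        have : (0 : ℤ) ≤ (n : ℤ) * b := by positivity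
        push_cast at h2
        omega
      · exact hb' h
    rw [hb0] at h2
    exact ⟨a, by rw [← h2]; simp⟩
  · intro hneg
    have ha0 : a = 0 := by
      by_cases h : F.eval z₀ = 0
      · exact ha' (hAF z₀ h)
      · have hb0 := hb' h
        rw [hb0] at h2
        have : (0 : ℤ) ≤ (m : ℤ) * a := by positivity
        push_cast at h2
        omega
    rw [ha0] at h2
    exact ⟨-b, by rw [← h2]; simp⟩

private theorem std_of (n : ℕ) (hn : 1 ≤ n) (T H F : Polynomial ℂ) (c₀ c₁ : ℂ) (h0 : c₀ ≠ 0) (h1 : c₁ ≠ 0)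
    (hid : ∀ z, c₀ * T.eval z ^ 2 - F.eval z ^ n = c₁ * H.eval z ^ 3)
    (hTF : ∀ z, F.eval z = 0 → T.eval z ≠ 0) (hHF : ∀ z, F.eval z = 0 → H.eval z ≠ 0)
    (hF : F ≠ 0) (z₁ : ℂ) (hz₁ : F.eval z₁ = 0) : Std 2 3 n := by
  intro μ m0 m1 m2 m3
  have hT : T ≠ 0 := by
    intro h
    exact hTF z₁ hz₁ (by rw [h]; simp)
  have hH : H ≠ 0 := by
    intro h
    exact hHF z₁ hz₁ (by rw [h]; simp)
  refine ⟨fun z => c₀ * T.eval z ^ 2 * (F.eval z ^ n)⁻¹, ?_⟩
  apply ram_of_order
  · intro b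
    rcases b with _ | c
    · rw [m2]; exact hn
    · by_cases hc0 : c = 0
      · rw [hc0, m0]; norm_num
      · by_cases hc1 : c = 1
        · rw [hc1, m1]; norm_num
        · rw [m3 c hc0 hc1]
  · intro z
    exact ((analyticAt_const.mul ((poly_an T z).pow 2)).meromorphicAt).mul
      ((poly_an F z).pow n).meromorphicAt.inv
  · intro e z₀
    have hR : Polynomial.C c₀ * T ^ 2 - Polynomial.C e * F ^ n ≠ 0 := by
      intro h
      have h2 := congrArg (Polynomial.eval z₁) h
      simp only [Polynomial.eval_sub, Polynomial.eval_mul, Polynomial.eval_C, Polynomial.eval_pow, hz₁,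
        Polynomial.eval_zero] at h2
      rw [zero_pow (by omega), mul_zero, sub_zero] at h2
      exact (mul_ne_zero h0 (pow_ne_zero 2 (hTF z₁ hz₁))) h2
    filter_upwards [poly_ne _ hR z₀, poly_ne F hF z₀] with z h2 h3 h4
    apply h2
    simp only [Polynomial.eval_sub, Polynomial.eval_mul, Polynomial.eval_C, Polynomial.eval_pow]
    have h5 : F.eval z ^ n ≠ 0 := pow_ne_zero n h3
    rw [← h4]
    field_simp
    ring
  · intro c z₀ k hk ho
    by_cases hc0 : c = 0
    · rw [hc0, m0]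
      rw [hc0] at ho
      simp only [sub_zero] at ho
      exact (quot_ord n 2 T F hT hF c₀ h0 hTF z₀ k ho).1 hk
    · by_cases hc1 : c = 1
      · rw [hc1, m1]
        rw [hc1] at ho
        refine (quot_ord n 3 H F hH hF c₁ h1 hHF z₀ k ?_).1 hk
        rw [← ho]
        apply meromorphicOrderAt_congr
        filter_upwards [poly_ne F hF z₀] with z h3
        have h5 : F.eval z ^ n ≠ 0 := pow_ne_zero n h3
        rw [← hid z]
        field_simp
      · rw [m3 c hc0 hc1]
        exact one_dvd _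
  · intro z₀ k hk ho
    rw [m2]
    exact (quot_ord n 2 T F hT hF c₀ h0 hTF z₀ k ho).2 hk

open Polynomial in
/-- `w = z^4`, `f = z (w - 1)`, `H = w^2 + 14 w + 1`, `t = w^3 - 33 w^2 - 33 w + 1`, `H^3 - t^2 = 108 f^4` (an identity,
`f^4 = w (w-1)^4`); `u = - t^2 / (108 f^4)`, `u - 1 = - H^3 / (108 f^4)`. `f` has no common zero with `t` or `H`
(at `w = 0`: `t = H = 1`; at `w = 1`: `t = -64`, `H = 16`). So at a zero of `f` of order `k` the order of `u`
is `-4 k`, elsewhere `u` is analytic of order `2 ord t`, and `u - 1` of order `3 ord H`. -/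
theorem std_octahedral : Std 2 3 4 := by
  refine std_of 4 (by norm_num) (X ^ 12 - C 33 * X ^ 8 - C 33 * X ^ 4 + C 1) (X ^ 8 + C 14 * X ^ 4 + C 1)
    (X * (X ^ 4 - C 1)) (-1 / 108) (-1 / 108) (by norm_num) (by norm_num) ?_ ?_ ?_ ?_ 0 (by simp)
  · intro z
    simp only [eval_sub, eval_add, eval_mul, eval_C, eval_pow, eval_X]
    ring
  · intro z hz h
    simp only [eval_sub, eval_add, eval_mul, eval_C, eval_pow, eval_X] at hz h
    rcases mul_eq_zero.1 hz with h2 | h2
    · rw [h2] at h; norm_num at h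
    · have h3 : z ^ 4 = 1 := sub_eq_zero.1 h2
      have h4 : z ^ 12 = 1 := by rw [show z ^ 12 = (z ^ 4) ^ 3 by ring, h3]; norm_num
      have h5 : z ^ 8 = 1 := by rw [show z ^ 8 = (z ^ 4) ^ 2 by ring, h3]; norm_num
      rw [h3, h4, h5] at h
      norm_num at h
  · intro z hz h
    simp only [eval_sub, eval_add, eval_mul, eval_C, eval_pow, eval_X] at hz h
    rcases mul_eq_zero.1 hz with h2 | h2
    · rw [h2] at h; norm_num at h
    · have h3 : z ^ 4 = 1 := sub_eq_zero.1 h2
      have h5 : z ^ 8 = 1 := by rw [show z ^ 8 = (z ^ 4) ^ 2 by ring, h3]; norm_num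
      rw [h3, h5] at h
      norm_num at h
  · intro h
    have h2 := congrArg (Polynomial.eval 2) h
    simp only [eval_sub, eval_mul, eval_C, eval_pow, eval_X, eval_zero] at h2
    norm_num at h2

open Polynomial in
/-- `w = z^5`, `f = z (w^2 + 11 w - 1)`, `H = - (w^4 - 228 w^3 + 494 w^2 + 228 w + 1)`,
`t = w^6 + 522 w^5 - 10005 w^4 - 10005 w^2 - 522 w + 1`, `t^2 + H^3 = 1728 f^5` (`f^5 = w (w^2 + 11 w - 1)^5`);
`u = t^2 / (1728 f^5)`, `u - 1 = - H^3 / (1728 f^5)`. `f` has no common zero with `t` or `H`: at `w = 0`, `t = 1`,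
`H = -1`; if `w^2 = 1 - 11 w` then `H` and `t` are nonzero (reduce modulo `w^2 + 11 w - 1`). -/
theorem std_icosahedral : Std 2 3 5 := by
  refine std_of 5 (by norm_num)
    (X ^ 30 + C 522 * X ^ 25 - C 10005 * X ^ 20 - C 10005 * X ^ 10 - C 522 * X ^ 5 + C 1)
    (-(X ^ 20 - C 228 * X ^ 15 + C 494 * X ^ 10 + C 228 * X ^ 5 + C 1))
    (X * (X ^ 10 + C 11 * X ^ 5 - C 1)) (1 / 1728) (-1 / 1728) (by norm_num) (by norm_num) ?_ ?_ ?_ ?_ 0
    (by simp)
  · intro z
    simp only [eval_sub, eval_add, eval_neg, eval_mul, eval_C, eval_pow, eval_X]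
    ring
  · intro z hz h
    simp only [eval_sub, eval_add, eval_neg, eval_mul, eval_C, eval_pow, eval_X] at hz h
    rcases mul_eq_zero.1 hz with h2 | h2
    · rw [h2] at h; norm_num at h
    · have h3 : (1 : ℂ) = 0 := by
        linear_combination (-15127 / 1953125 - 1364 / 1953125 * z ^ 5) * h +
          (-1968252 / 1953125 - 13755842 / 1953125 * z ^ 5 - 1224871 / 1953125 * z ^ 10 -
            13582603 / 1953125 * z ^ 15 + 712131 / 1953125 * z ^ 20 + 1364 / 1953125 * z ^ 25) * h2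
      norm_num at h3
  · intro z hz h
    simp only [eval_sub, eval_add, eval_neg, eval_mul, eval_C, eval_pow, eval_X] at hz h
    rcases mul_eq_zero.1 hz with h2 | h2
    · rw [h2] at h; norm_num at h
    · have h3 : (1 : ℂ) = 0 := by
        linear_combination (-122 / 3125 - 11 / 3125 * z ^ 5) * h +
          (-3003 / 3125 - 5206 / 3125 * z ^ 5 + 2507 / 3125 * z ^ 10 - 11 / 3125 * z ^ 15) * h2
      norm_num at h3
  · intro h
    have h2 := congrArg (Polynomial.eval 1) h
    simp only [eval_sub, eval_add, eval_mul, eval_C, eval_pow, eval_X, eval_zero] at h2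
    norm_num at h2

end Pool.Agent.AbPencil
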