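import Pool.Agent.Lib_MP_1209e6_sp.U1

/-! PIECE U4: uniformisations by elliptic curves. -/

set_option autoImplicit false

open Filter Topology

namespace Pool.Agent.AbPencil

private lemma ordC (e : ℂ) (z : ℂ) : 0 ≤ meromorphicOrderAt (fun _ : ℂ => e) z := by
  classical
  rw [meromorphicOrderAt_const]
  split_ifs <;> simp

private lemma ordC' {e : ℂ} (he : e ≠ 0) (z : ℂ) : meromorphicOrderAt (fun _ : ℂ => e) z = 0 := by
  classical
  rw [meromorphicOrderAt_const, if_neg he]

private lemma ord_add_neg {f : ℂ → ℂ} {z : ℂ} (h : meromorphicOrderAt f z < 0) (e : ℂ) :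
    meromorphicOrderAt (fun w => f w + e) z = meromorphicOrderAt f z := by
  have := meromorphicOrderAt_add_eq_left_of_lt (f₁ := f) (f₂ := fun _ : ℂ => e)
    (MeromorphicAt.const e z) (lt_of_lt_of_le h (ordC e z))
  exact this

private lemma ord_add_pos {f : ℂ → ℂ} {z : ℂ} (hf : MeromorphicAt f z) (h : 0 < meromorphicOrderAt f z) {e : ℂ}
    (he : e ≠ 0) : meromorphicOrderAt (fun w => f w + e) z = 0 := by
  have := meromorphicOrderAt_add_eq_right_of_lt (f₁ := f) (f₂ := fun _ : ℂ => e)
    hf (by rw [ordC' he]; exact h)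
  rw [ordC' he] at this
  exact this

private lemma ord_add_nonneg {f : ℂ → ℂ} {z : ℂ} (hf : MeromorphicAt f z) (h : 0 ≤ meromorphicOrderAt f z) (e : ℂ) :
    0 ≤ meromorphicOrderAt (fun w => f w + e) z := by
  have := meromorphicOrderAt_add (f₁ := f) (f₂ := fun _ : ℂ => e) hf (MeromorphicAt.const e z)
  exact le_trans (le_min h (ordC e z)) this

private lemma ord_ne_top {x : ℂ → ℂ} {z : ℂ} (hx : MeromorphicAt x z) (h : ∀ᶠ w in 𝓝[≠] z, x w ≠ 0) :
    ∃ n : ℤ, meromorphicOrderAt x z = n := by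
  have := (meromorphicOrderAt_ne_top_iff_eventually_ne_zero hx).2 h
  exact ⟨_, (WithTop.coe_untop _ this).symm⟩

private lemma ord_sq {y : ℂ → ℂ} {z : ℂ} (hy : MeromorphicAt y z) {m : ℤ} (h : meromorphicOrderAt y z = m) (k : ℕ) :
    meromorphicOrderAt (fun w => y w ^ k) z = ((k * m : ℤ) : WithTop ℤ) := by
  rw [fun_meromorphicOrderAt_pow hy, h]
  norm_cast

private lemma ord_mul {f g : ℂ → ℂ} {z : ℂ} (hf : MeromorphicAt f z) (hg : MeromorphicAt g z) {m n : ℤ}
    (h : meromorphicOrderAt f z = m) (h' : meromorphicOrderAt g z = n) :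
    meromorphicOrderAt (fun w => f w * g w) z = ((m + n : ℤ) : WithTop ℤ) := by
  rw [fun_meromorphicOrderAt_mul hf hg, h, h']
  norm_cast

/-- the order of a cubic polynomial in `x` at a pole of `x` -/
private lemma ord_cubic_neg {x : ℂ → ℂ} {z : ℂ} (hx : MeromorphicAt x z) {n : ℤ} (hn : n < 0)
    (h : meromorphicOrderAt x z = n) (a b c : ℂ) :
    meromorphicOrderAt (fun w => x w ^ 3 + a * x w ^ 2 + b * x w + c) z = ((3 * n : ℤ) : WithTop ℤ) := by
  have hn' : ((n : ℤ) : WithTop ℤ) < 0 := by exact_mod_cast hn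
  have h1 : meromorphicOrderAt (fun w => x w + a) z = n := by
    rw [ord_add_neg (by rw [h]; exact hn')]; exact h
  have m1 : MeromorphicAt (fun w => x w + a) z := hx.add (MeromorphicAt.const a z)
  have h2 := ord_mul m1 hx h1 h
  have m2 : MeromorphicAt (fun w => (x w + a) * x w) z := m1.mul hx
  have h3 : meromorphicOrderAt (fun w => (x w + a) * x w + b) z = ((n + n : ℤ) : WithTop ℤ) := by
    rw [ord_add_neg (f := fun w => (x w + a) * x w) (by rw [h2]; exact_mod_cast (by omega : n + n < 0))]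
    exact h2
  have m3 : MeromorphicAt (fun w => (x w + a) * x w + b) z := m2.add (MeromorphicAt.const b z)
  have h4 := ord_mul m3 hx h3 h
  have h5 : meromorphicOrderAt (fun w => ((x w + a) * x w + b) * x w + c) z = ((n + n + n : ℤ) : WithTop ℤ) := by
    rw [ord_add_neg (f := fun w => ((x w + a) * x w + b) * x w)
      (by rw [h4]; exact_mod_cast (by omega : n + n + n < 0))]
    exact h4
  have : (fun w => x w ^ 3 + a * x w ^ 2 + b * x w + c) = fun w => ((x w + a) * x w + b) * x w + c := by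
    funext w; ring
  rw [this, h5]
  congr 1
  ring

private lemma ord_cubic_nonneg {x : ℂ → ℂ} {z : ℂ} (hx : MeromorphicAt x z)
    (h : 0 ≤ meromorphicOrderAt x z) (a b c : ℂ) :
    0 ≤ meromorphicOrderAt (fun w => x w ^ 3 + a * x w ^ 2 + b * x w + c) z := by
  have m1 : MeromorphicAt (fun w => x w + a) z := hx.add (MeromorphicAt.const a z)
  have h1 := ord_add_nonneg hx h a
  have m2 : MeromorphicAt (fun w => (x w + a) * x w) z := m1.mul hx
  have h2 : 0 ≤ meromorphicOrderAt (fun w => (x w + a) * x w) z := by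
    rw [fun_meromorphicOrderAt_mul m1 hx]; exact add_nonneg h1 h
  have m3 : MeromorphicAt (fun w => (x w + a) * x w + b) z := m2.add (MeromorphicAt.const b z)
  have h3 := ord_add_nonneg m2 h2 b
  have m4 : MeromorphicAt (fun w => ((x w + a) * x w + b) * x w) z := m3.mul hx
  have h4 : 0 ≤ meromorphicOrderAt (fun w => ((x w + a) * x w + b) * x w) z := by
    rw [fun_meromorphicOrderAt_mul m3 hx]; exact add_nonneg h3 h
  have h5 := ord_add_nonneg m4 h4 c
  have : (fun w => x w ^ 3 + a * x w ^ 2 + b * x w + c) = fun w => ((x w + a) * x w + b) * x w + c := by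
    funext w; ring
  rw [this]
  exact h5

/-- The data of an `EllCurve` at a point: integer orders, with the pole relation. -/
private lemma ell_orders {a b c : ℂ} {x y : ℂ → ℂ} (hx : ∀ z, MeromorphicAt x z)
    (he : ∀ z₀, ∀ᶠ z in 𝓝[≠] z₀, y z ^ 2 = x z ^ 3 + a * x z ^ 2 + b * x z + c)
    (hne : ∀ e : ℂ, ∀ z₀, ∀ᶠ z in 𝓝[≠] z₀, x z ≠ e) (z₀ : ℂ) :
    (∀ e : ℂ, ∃ n : ℤ, meromorphicOrderAt (fun w => x w + e) z₀ = n) ∧
    (∀ e : ℂ, ∀ᶠ z in 𝓝[≠] z₀, y z ≠ e) := by
  constructor
  · intro e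
    refine ord_ne_top ((hx z₀).add (MeromorphicAt.const e z₀)) ?_
    filter_upwards [hne (-e) z₀] with w hw h0
    exact hw (by linear_combination h0)
  · intro e
    have hfin : (({t : ℂ | t ^ 3 + a * t ^ 2 + b * t + c = e ^ 2}) : Set ℂ).Finite := by
      let P : Polynomial ℂ := Polynomial.X ^ 3 + Polynomial.C a * Polynomial.X ^ 2 + Polynomial.C b * Polynomial.X
        + Polynomial.C (c - e ^ 2)
      have hP : P ≠ 0 := by
        intro h0
        have := congrArg (fun Q => Polynomial.coeff Q 3) h0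
        simp only [P, Polynomial.coeff_add, Polynomial.coeff_X_pow, Polynomial.coeff_C_mul, Polynomial.coeff_X,
          Polynomial.coeff_C, Polynomial.coeff_zero] at this
        norm_num at this
      refine Set.Finite.subset (P.roots.toFinset.finite_toSet) ?_
      intro t ht
      simp only [Finset.mem_coe, Multiset.mem_toFinset]
      rw [Polynomial.mem_roots hP]
      simp only [P, Polynomial.IsRoot.def, Polynomial.eval_add, Polynomial.eval_pow, Polynomial.eval_X,
        Polynomial.eval_mul, Polynomial.eval_C]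
      have : t ^ 3 + a * t ^ 2 + b * t + c = e ^ 2 := ht
      linear_combination this
    have h1 : ∀ᶠ z in 𝓝[≠] z₀, ∀ t ∈ ({t : ℂ | t ^ 3 + a * t ^ 2 + b * t + c = e ^ 2} : Set ℂ), x z ≠ t :=
      (Filter.eventually_all_finite hfin).2 (fun t _ => hne t z₀)
    filter_upwards [h1, he z₀] with w hw hw' h0
    refine hw (x w) ?_ rfl
    rw [← hw', h0]

/-- at a pole of `y`, `x` has a pole and `2 ord y = 3 ord x` -/
private lemma pole_rel {a b c : ℂ} {x y : ℂ → ℂ} {z₀ : ℂ} (hx : MeromorphicAt x z₀) (hy : MeromorphicAt y z₀)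
    (he : ∀ᶠ z in 𝓝[≠] z₀, y z ^ 2 = x z ^ 3 + a * x z ^ 2 + b * x z + c) {m n : ℤ}
    (hm : meromorphicOrderAt y z₀ = m) (hn : meromorphicOrderAt x z₀ = n) (h : m < 0 ∨ n < 0) :
    2 * m = 3 * n ∧ n < 0 := by
  have h2 := ord_sq hy hm 2
  rw [meromorphicOrderAt_congr he] at h2
  by_cases hn0 : n < 0
  · rw [ord_cubic_neg hx hn0 hn] at h2
    have : (3 * n : ℤ) = ((2 : ℕ) : ℤ) * m := by exact_mod_cast h2
    push_cast at this
    exact ⟨by omega, hn0⟩
  · exfalso
    have h3 := ord_cubic_nonneg hx (by rw [hn]; exact_mod_cast (by omega : (0 : ℤ) ≤ n)) a b c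
    rw [h2] at h3
    have : (0 : ℤ) ≤ ((2 : ℕ) : ℤ) * m := by exact_mod_cast h3
    push_cast at this
    omega

private lemma ord_eq_of_ev {f g : ℂ → ℂ} {z : ℂ} (h : ∀ᶠ w in 𝓝[≠] z, f w = g w) :
    meromorphicOrderAt f z = meromorphicOrderAt g z := meromorphicOrderAt_congr h

private lemma six_aux (h : EllCurve 0 0 1) (μ : Option ℂ → ℕ) (h0 : μ (some 0) = 2) (h1 : μ (some 1) = 3)
    (h2 : μ none = 3 ∨ μ none = 6) (hc : ∀ c : ℂ, c ≠ 0 → c ≠ 1 → μ (some c) = 1) : ∃ u, Ram μ u := by
  obtain ⟨x, y, hx, hy, he, hne⟩ := h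
  have hO := fun z₀ => ell_orders hx he hne z₀
  refine ⟨fun z => y z ^ 2, ram_of_order μ ?_ _ (fun z => (hy z).pow 2) ?_ ?_ ?_⟩
  · rintro (_ | c)
    · omega
    · by_cases c0 : c = 0
      · subst c0; omega
      · by_cases c1 : c = 1
        · subst c1; omega
        · rw [hc c c0 c1]
  · intro e z₀
    obtain ⟨s, hs⟩ : ∃ s : ℂ, s ^ 2 = e := IsAlgClosed.exists_pow_nat_eq e (by norm_num)
    filter_upwards [(hO z₀).2 s, (hO z₀).2 (-s)] with w hw1 hw2 h3
    have : (y w - s) * (y w + s) = 0 := by linear_combination h3 - hs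
    rcases mul_eq_zero.1 this with h4 | h4
    · exact hw1 (by linear_combination h4)
    · exact hw2 (by linear_combination h4)
  · intro c z₀ n hn hord
    obtain ⟨m, hm⟩ := ord_ne_top (hy z₀) ((hO z₀).2 0)
    obtain ⟨k, hk⟩ := (hO z₀).1 0
    simp only [add_zero] at hk
    by_cases c0 : c = 0
    · subst c0
      rw [h0]
      simp only [sub_zero] at hord
      rw [ord_sq (hy z₀) hm 2] at hord
      have : ((2 : ℕ) : ℤ) * m = n := by exact_mod_cast hord
      exact ⟨m, this.symm⟩
    · by_cases c1 : c = 1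
      · subst c1
        rw [h1]
        have : meromorphicOrderAt (fun z => y z ^ 2 - 1) z₀ = meromorphicOrderAt (fun z => x z ^ 3) z₀ := by
          apply ord_eq_of_ev
          filter_upwards [he z₀] with w hw
          rw [hw]; ring
        rw [this, ord_sq (hx z₀) hk 3] at hord
        have : ((3 : ℕ) : ℤ) * k = n := by exact_mod_cast hord
        exact ⟨k, this.symm⟩
      · rw [hc c c0 c1]
        simp
  · intro z₀ n hn hord
    obtain ⟨m, hm⟩ := ord_ne_top (hy z₀) ((hO z₀).2 0)
    obtain ⟨k, hk⟩ := (hO z₀).1 0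
    simp only [add_zero] at hk
    rw [ord_sq (hy z₀) hm 2] at hord
    have hmn : ((2 : ℕ) : ℤ) * m = n := by exact_mod_cast hord
    push_cast at hmn
    obtain ⟨h5, h6⟩ := pole_rel (hx z₀) (hy z₀) (he z₀) hm hk (Or.inl (by omega))
    rcases h2 with h2 | h2 <;> rw [h2] <;> push_cast <;> omega

/-- `y² = x³ + 1`, `u = y²`, `u - 1 = x³`: at a zero of `y`, `u` has order `2 ord y`; at a zero of `x`, `u - 1` has
order `3 ord x`; at a pole `2 ord y = 3 ord x`, so `6 ∣ 2 ord y = ord u`. -/
theorem std_six (h : EllCurve 0 0 1) : Std 2 3 6 := by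
  intro μ h0 h1 h2 hc
  exact six_aux h μ h0 h1 (Or.inr h2) hc

theorem std_three (h : EllCurve 0 0 1) : Std 2 3 3 := by
  intro μ h0 h1 h2 hc
  exact six_aux h μ h0 h1 (Or.inl h2) hc

/-- `y² = x³ + 1`, `u = (y + 1)/2`, `u - 1 = (y - 1)/2`, `(y - 1)(y + 1) = x³`. At a zero of `y + 1`, `y - 1` is not
zero, so `ord (y + 1) = 3 ord x`; likewise for `y - 1`; at a pole `2 ord y = 3 ord x`, so `3 ∣ ord y`. -/
theorem std_three_three (h : EllCurve 0 0 1) : Std 3 3 3 := by
  intro μ h0 h1 h2 hc
  obtain ⟨x, y, hx, hy, he, hne⟩ := h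
  have hO := fun z₀ => ell_orders hx he hne z₀
  have key : ∀ (e : ℂ) (z₀ : ℂ) (n : ℤ), e ^ 2 = 1 → 0 < n →
      meromorphicOrderAt (fun z => y z + e) z₀ = n → (3 : ℤ) ∣ n := by
    intro e z₀ n he2 hn hord
    have he0 : e ≠ 0 := by rintro rfl; norm_num at he2
    obtain ⟨k, hk⟩ := (hO z₀).1 0
    simp only [add_zero] at hk
    have hm : MeromorphicAt (fun z => y z + e) z₀ := (hy z₀).add (MeromorphicAt.const e z₀)
    have h3 : meromorphicOrderAt (fun z => y z - e) z₀ = ((0 : ℤ) : WithTop ℤ) := by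
      have := ord_add_pos hm (by rw [hord]; exact_mod_cast hn) (e := -(2 * e))
        (by simpa using he0)
      have h4 : (fun w => (fun z => y z + e) w + -(2 * e)) = fun z => y z - e := by
        funext w; simp only; ring
      rw [h4] at this
      rw [this]; norm_cast
    have hm' : MeromorphicAt (fun z => y z - e) z₀ := (hy z₀).sub (MeromorphicAt.const e z₀)
    have h5 := ord_mul hm hm' hord h3
    have h6 : meromorphicOrderAt (fun w => (y w + e) * (y w - e)) z₀ =
        meromorphicOrderAt (fun z => x z ^ 3) z₀ := by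
      apply ord_eq_of_ev
      filter_upwards [he z₀] with w hw
      linear_combination hw - he2
    rw [h6, ord_sq (hx z₀) hk 3] at h5
    have : ((3 : ℕ) : ℤ) * k = n + 0 := by exact_mod_cast h5
    push_cast at this
    omega
  have hhalf : ∀ (f : ℂ → ℂ) (z₀ : ℂ), MeromorphicAt f z₀ →
      meromorphicOrderAt (fun z => f z / 2) z₀ = meromorphicOrderAt f z₀ := by
    intro f z₀ hf
    have : (fun z => f z / 2) = fun z => f z * (1 / 2) := by funext z; ring
    rw [this, fun_meromorphicOrderAt_mul hf (MeromorphicAt.const (1 / 2) z₀), ordC' (by norm_num), add_zero]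
  refine ⟨fun z => (y z + 1) / 2, ram_of_order μ ?_ _
    (fun z => ((hy z).add (MeromorphicAt.const 1 z)).div (MeromorphicAt.const 2 z)) ?_ ?_ ?_⟩
  · rintro (_ | c)
    · omega
    · by_cases c0 : c = 0
      · subst c0; omega
      · by_cases c1 : c = 1
        · subst c1; omega
        · rw [hc c c0 c1]
  · intro e z₀
    filter_upwards [(hO z₀).2 (2 * e - 1)] with w hw1 h3
    apply hw1
    have h4 : y w + 1 = 2 * e := by rw [← h3]; ring
    linear_combination h4
  · intro c z₀ n hn hord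
    by_cases c0 : c = 0
    · subst c0
      rw [h0]
      simp only [sub_zero] at hord
      rw [hhalf (fun z => y z + 1) _ ((hy z₀).add (MeromorphicAt.const 1 z₀))] at hord
      exact key 1 z₀ n (by norm_num) hn hord
    · by_cases c1 : c = 1
      · subst c1
        rw [h1]
        have h4 : (fun z => (y z + 1) / 2 - 1) = fun z => (fun w => y w + (-1)) z / 2 := by
          funext w; simp only; ring
        rw [h4, hhalf (fun w => y w + (-1)) _ ((hy z₀).add (MeromorphicAt.const (-1) z₀))] at hord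
        exact key (-1) z₀ n (by norm_num) hn hord
      · rw [hc c c0 c1]
        simp
  · intro z₀ n hn hord
    rw [h2]
    rw [hhalf (fun z => y z + 1) _ ((hy z₀).add (MeromorphicAt.const 1 z₀))] at hord
    obtain ⟨m, hm⟩ := ord_ne_top (hy z₀) ((hO z₀).2 0)
    obtain ⟨k, hk⟩ := (hO z₀).1 0
    simp only [add_zero] at hk
    have hm0 : m < 0 := by
      by_contra hcon
      have := ord_add_nonneg (hy z₀) (by rw [hm]; exact_mod_cast (by omega : (0 : ℤ) ≤ m)) 1
      rw [hord] at this
      have : (0 : ℤ) ≤ n := by exact_mod_cast this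
      omega
    rw [ord_add_neg (by rw [hm]; exact_mod_cast hm0), hm] at hord
    have hmn : m = n := by exact_mod_cast hord
    obtain ⟨h5, h6⟩ := pole_rel (hx z₀) (hy z₀) (he z₀) hm hk (Or.inl hm0)
    push_cast
    omega

/-- `y² = x³ - x`, `u = 1 - x²`, `u - 1 = - x²`. At a zero of `x`, `2 ord y = ord x`; at a zero of `1 - x²`, `ord (1 - x²) =
2 ord y`; at a pole `2 ord y = 3 ord x`, so `ord x` is even and `4 ∣ 2 ord x = ord u`. -/
theorem std_four_four (h : EllCurve 0 (-1) 0) : Std 2 4 4 := by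
  intro μ h0 h1 h2 hc
  obtain ⟨x, y, hx, hy, he, hne⟩ := h
  have hO := fun z₀ => ell_orders hx he hne z₀
  have hu : ∀ z₀, MeromorphicAt (fun z => 1 - x z ^ 2) z₀ := fun z₀ =>
    (MeromorphicAt.const 1 z₀).sub ((hx z₀).pow 2)
  have hneg : ∀ (f : ℂ → ℂ) (z₀ : ℂ), meromorphicOrderAt (fun z => -f z) z₀ = meromorphicOrderAt f z₀ :=
    fun f z₀ => meromorphicOrderAt_fun_neg.symm
  refine ⟨fun z => 1 - x z ^ 2, ram_of_order μ ?_ _ hu ?_ ?_ ?_⟩
  · rintro (_ | c)
    · omega
    · by_cases c0 : c = 0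
      · subst c0; omega
      · by_cases c1 : c = 1
        · subst c1; omega
        · rw [hc c c0 c1]
  · intro e z₀
    obtain ⟨s, hs⟩ : ∃ s : ℂ, s ^ 2 = 1 - e :=
      IsAlgClosed.exists_pow_nat_eq (1 - e) (by norm_num)
    filter_upwards [hne s z₀, hne (-s) z₀] with w hw1 hw2 h3
    have : (x w - s) * (x w + s) = 0 := by linear_combination -h3 - hs
    rcases mul_eq_zero.1 this with h4 | h4
    · exact hw1 (by linear_combination h4)
    · exact hw2 (by linear_combination h4)
  · intro c z₀ n hn hord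
    obtain ⟨m, hm⟩ := ord_ne_top (hy z₀) ((hO z₀).2 0)
    obtain ⟨k, hk⟩ := (hO z₀).1 0
    simp only [add_zero] at hk
    by_cases c0 : c = 0
    · subst c0
      rw [h0]
      simp only [sub_zero] at hord
      -- `ord x = 0`
      have hx2 : meromorphicOrderAt (fun z => x z ^ 2) z₀ = 0 := by
        have h3 := ord_add_pos (f := fun z => -(1 - x z ^ 2)) (hu z₀).neg
          (by rw [hneg (fun z => 1 - x z ^ 2), hord]; exact_mod_cast hn) (e := 1) one_ne_zero
        have h4 : (fun w => (fun z => -(1 - x z ^ 2)) w + 1) = fun z => x z ^ 2 := by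
          funext w; simp only; ring
        rw [h4] at h3
        exact h3
      rw [ord_sq (hx z₀) hk 2] at hx2
      have hk0 : ((2 : ℕ) : ℤ) * k = 0 := by exact_mod_cast hx2
      push_cast at hk0
      have h5 := ord_mul (hx z₀) (hu z₀) hk hord
      have h6 : meromorphicOrderAt (fun w => x w * (1 - x w ^ 2)) z₀ =
          meromorphicOrderAt (fun z => -(y z ^ 2)) z₀ := by
        apply ord_eq_of_ev
        filter_upwards [he z₀] with w hw
        linear_combination hw
      rw [h6, hneg (fun z => y z ^ 2), ord_sq (hy z₀) hm 2] at h5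
      have : ((2 : ℕ) : ℤ) * m = k + n := by exact_mod_cast h5
      push_cast at this ⊢
      omega
    · by_cases c1 : c = 1
      · subst c1
        rw [h1]
        have h3 : (fun z => 1 - x z ^ 2 - 1) = fun z => -(fun w => x w ^ 2) z := by
          funext w; simp only; ring
        rw [h3, hneg (fun w => x w ^ 2), ord_sq (hx z₀) hk 2] at hord
        have hkn : ((2 : ℕ) : ℤ) * k = n := by exact_mod_cast hord
        push_cast at hkn
        have hu0 : meromorphicOrderAt (fun z => x z ^ 2 + (-1)) z₀ = ((0 : ℤ) : WithTop ℤ) := by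
          have := ord_add_pos (f := fun z => x z ^ 2) ((hx z₀).pow 2)
            (by rw [ord_sq (hx z₀) hk 2]; exact_mod_cast (by push_cast; omega : (0 : ℤ) < ((2 : ℕ) : ℤ) * k))
            (e := -1) (by norm_num)
          rw [this]; norm_cast
        have h5 := ord_mul (hx z₀) (((hx z₀).pow 2).add (MeromorphicAt.const (-1) z₀)) hk hu0
        have h6 : meromorphicOrderAt (fun w => x w * (x w ^ 2 + (-1))) z₀ =
            meromorphicOrderAt (fun z => y z ^ 2) z₀ := by
          apply ord_eq_of_ev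
          filter_upwards [he z₀] with w hw
          linear_combination -hw
        have h7 : meromorphicOrderAt (fun w => x w * (x w ^ 2 + (-1))) z₀ = ((k + 0 : ℤ) : WithTop ℤ) := h5
        rw [h6, ord_sq (hy z₀) hm 2] at h7
        have : ((2 : ℕ) : ℤ) * m = k + 0 := by exact_mod_cast h7
        push_cast at this ⊢
        omega
      · rw [hc c c0 c1]
        simp
  · intro z₀ n hn hord
    rw [h2]
    obtain ⟨m, hm⟩ := ord_ne_top (hy z₀) ((hO z₀).2 0)
    obtain ⟨k, hk⟩ := (hO z₀).1 0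
    simp only [add_zero] at hk
    have h3 : (fun z => 1 - x z ^ 2) = fun z => -(fun w => x w ^ 2 + (-1)) z := by
      funext w; simp only; ring
    rw [h3, hneg (fun w => x w ^ 2 + (-1))] at hord
    have hk0 : k < 0 := by
      by_contra hcon
      have := ord_add_nonneg (f := fun w => x w ^ 2) ((hx z₀).pow 2)
        (by rw [ord_sq (hx z₀) hk 2]; exact_mod_cast (by push_cast; omega : (0 : ℤ) ≤ ((2 : ℕ) : ℤ) * k)) (-1)
      rw [hord] at this
      have : (0 : ℤ) ≤ n := by exact_mod_cast this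
      omega
    rw [ord_add_neg (f := fun w => x w ^ 2)
      (by rw [ord_sq (hx z₀) hk 2]; exact_mod_cast (by push_cast; omega : ((2 : ℕ) : ℤ) * k < 0)),
      ord_sq (hx z₀) hk 2] at hord
    have hkn : ((2 : ℕ) : ℤ) * k = n := by exact_mod_cast hord
    obtain ⟨h5, h6⟩ := pole_rel (hx z₀) (hy z₀) (he z₀) hm hk (Or.inr hk0)
    push_cast at hkn ⊢
    omega

/-- `y² = x (x - 1) (x - l)`, `u = x`. -/
theorem stdFour_of_ell (l : ℂ) (h0 : l ≠ 0) (h1 : l ≠ 1) (h : EllCurve (-(1 + l)) l 0) : StdFour l := by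
  intro μ m0 m1 ml mi hc
  obtain ⟨x, y, hx, hy, he, hne⟩ := h
  have hO := fun z₀ => ell_orders hx he hne z₀
  have key : ∀ (z₀ : ℂ) (e e₁ e₂ : ℂ) (n : ℤ), e - e₁ ≠ 0 → e - e₂ ≠ 0 →
      (∀ t : ℂ, t ^ 3 + (-(1 + l)) * t ^ 2 + l * t + 0 = (t - e) * (t - e₁) * (t - e₂)) → 0 < n →
      meromorphicOrderAt (fun z => x z - e) z₀ = n → (2 : ℤ) ∣ n := by
    intro z₀ e e₁ e₂ n he1 he2 hP hn hord
    obtain ⟨m, hm⟩ := ord_ne_top (hy z₀) ((hO z₀).2 0)
    have hme : MeromorphicAt (fun z => x z - e) z₀ := (hx z₀).sub (MeromorphicAt.const e z₀)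
    have hoth : ∀ e' : ℂ, e - e' ≠ 0 → meromorphicOrderAt (fun z => x z - e') z₀ = ((0 : ℤ) : WithTop ℤ) := by
      intro e' he'
      have := ord_add_pos hme (by rw [hord]; exact_mod_cast hn) he'
      have h4 : (fun w => (fun z => x z - e) w + (e - e')) = fun z => x z - e' := by
        funext w; simp only; ring
      rw [h4] at this
      rw [this]; norm_cast
    have hm1 : MeromorphicAt (fun z => x z - e₁) z₀ := (hx z₀).sub (MeromorphicAt.const e₁ z₀)
    have hm2 : MeromorphicAt (fun z => x z - e₂) z₀ := (hx z₀).sub (MeromorphicAt.const e₂ z₀)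
    have h5 := ord_mul hme hm1 hord (hoth e₁ he1)
    have h6 := ord_mul (f := fun w => (x w - e) * (x w - e₁)) (hme.mul hm1) hm2 h5 (hoth e₂ he2)
    have h7 : meromorphicOrderAt (fun w => (x w - e) * (x w - e₁) * (x w - e₂)) z₀ =
        meromorphicOrderAt (fun z => y z ^ 2) z₀ := by
      apply ord_eq_of_ev
      filter_upwards [he z₀] with w hw
      rw [hw, hP]
    rw [h7, ord_sq (hy z₀) hm 2] at h6
    have : ((2 : ℕ) : ℤ) * m = n + 0 + 0 := by exact_mod_cast h6
    push_cast at this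
    omega
  refine ⟨x, ram_of_order μ ?_ _ hx hne ?_ ?_⟩
  · rintro (_ | c)
    · omega
    · by_cases c0 : c = 0
      · subst c0; omega
      · by_cases c1 : c = 1
        · subst c1; omega
        · by_cases cl : c = l
          · subst cl; omega
          · rw [hc c c0 c1 cl]
  · intro c z₀ n hn hord
    by_cases c0 : c = 0
    · subst c0
      rw [m0]
      exact key z₀ 0 1 l n (by norm_num) (by simpa using h0) (fun t => by ring) hn hord
    · by_cases c1 : c = 1
      · subst c1
        rw [m1]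
        exact key z₀ 1 0 l n (by norm_num) (sub_ne_zero.2 (Ne.symm h1)) (fun t => by ring) hn hord
      · by_cases cl : c = l
        · subst cl
          rw [ml]
          exact key z₀ c 0 1 n (by simpa using h0) (sub_ne_zero.2 h1) (fun t => by ring) hn hord
        · rw [hc c c0 c1 cl]
          simp
  · intro z₀ n hn hord
    rw [mi]
    obtain ⟨m, hm⟩ := ord_ne_top (hy z₀) ((hO z₀).2 0)
    obtain ⟨h5, h6⟩ := pole_rel (hx z₀) (hy z₀) (he z₀) hm hord (Or.inr hn)
    push_cast
    omega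

end Pool.Agent.AbPencil
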