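import Pool.Agent.Lib_MP_1209e6_sp.Defs

/-! PIECE U5: classification of the multiplicities. -/

set_option autoImplicit false

namespace Pool.Agent.AbPencil

/-- the possible triples -/
def GoodTriple (a b c : ℕ) : Prop :=
  (a = 2 ∧ b = 2) ∨ (a = 2 ∧ b = 3 ∧ (c = 3 ∨ c = 4 ∨ c = 5 ∨ c = 6)) ∨ (a = 2 ∧ b = 4 ∧ c = 4) ∨
    (a = 3 ∧ b = 3 ∧ c = 3)

private theorem term_half {m : ℕ} (h : 2 ≤ m) : (1 : ℝ) / 2 ≤ 1 - 1 / (m : ℝ) := by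
  have h2 : (2 : ℝ) ≤ m := by exact_mod_cast h
  have : (1 : ℝ) / m ≤ 1 / 2 := one_div_le_one_div_of_le (by norm_num) h2
  linarith

private theorem good_of_sum {a b c : ℕ} (ha : 2 ≤ a) (hab : a ≤ b) (hbc : b ≤ c)
    (h : (1 - 1 / (a : ℝ)) + ((1 - 1 / (b : ℝ)) + (1 - 1 / (c : ℝ))) ≤ 2) : GoodTriple a b c := by
  have ha0 : (0 : ℝ) < a := by exact_mod_cast (by omega : 0 < a)
  have hb0 : (0 : ℝ) < b := by exact_mod_cast (by omega : 0 < b)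
  have hc0 : (0 : ℝ) < c := by exact_mod_cast (by omega : 0 < c)
  have h1 : (1 : ℝ) ≤ 1 / a + 1 / b + 1 / c := by linarith
  have h2 : (a : ℝ) * b * c ≤ b * c + a * c + a * b := by
    have h3 : (a : ℝ) * b * c * 1 ≤ (a : ℝ) * b * c * (1 / a + 1 / b + 1 / c) :=
      mul_le_mul_of_nonneg_left h1 (by positivity)
    have h4 : (a : ℝ) * b * c * (1 / a + 1 / b + 1 / c) = b * c + a * c + a * b := by
      field_simp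
    linarith
  have h3 : a * b * c ≤ b * c + a * c + a * b := by exact_mod_cast h2
  have ha3 : a ≤ 3 := by
    by_contra hcon
    have h4 : 4 ≤ a := by omega
    have e1 : a * c ≤ b * c := Nat.mul_le_mul_right _ hab
    have e2 : a * b ≤ b * c := by
      calc a * b ≤ c * b := Nat.mul_le_mul_right _ (le_trans hab hbc)
        _ = b * c := Nat.mul_comm _ _
    have e3 : 4 * (b * c) ≤ a * b * c := by
      calc 4 * (b * c) ≤ a * (b * c) := Nat.mul_le_mul_right _ h4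
        _ = a * b * c := by ring
    have e4 : 0 < b * c := Nat.mul_pos (by omega) (by omega)
    omega
  have hb4 : b ≤ 4 := by
    by_contra hcon
    have h5 : 5 ≤ b := by omega
    have e1 : a * b ≤ a * c := Nat.mul_le_mul_left _ hbc
    have e2 : 5 * c ≤ b * c := Nat.mul_le_mul_right _ h5
    interval_cases a
    · have : 2 * b * c = 2 * (b * c) := by ring
      omega
    · have : 3 * b * c = 3 * (b * c) := by ring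
      omega
  interval_cases a
  · interval_cases b
    · exact Or.inl ⟨rfl, rfl⟩
    · have hc6 : c ≤ 6 := by omega
      refine Or.inr (Or.inl ⟨rfl, rfl, ?_⟩)
      omega
    · have hc4 : c = 4 := by omega
      exact Or.inr (Or.inr (Or.inl ⟨rfl, rfl, hc4⟩))
  · interval_cases b
    · have hc3 : c = 3 := by omega
      exact Or.inr (Or.inr (Or.inr ⟨rfl, rfl, hc3⟩))
    · omega

private theorem sort3 (μ : Option ℂ → ℕ) (b₁ b₂ b₃ : Option ℂ) (h12 : b₁ ≠ b₂) (h13 : b₁ ≠ b₃)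
    (h23 : b₂ ≠ b₃) : ∃ c₁ c₂ c₃ : Option ℂ, c₁ ≠ c₂ ∧ c₁ ≠ c₃ ∧ c₂ ≠ c₃ ∧ μ c₁ ≤ μ c₂ ∧ μ c₂ ≤ μ c₃ ∧
      (∀ b, b = b₁ ∨ b = b₂ ∨ b = b₃ ↔ b = c₁ ∨ b = c₂ ∨ b = c₃) := by
  rcases le_total (μ b₁) (μ b₂) with h | h <;> rcases le_total (μ b₁) (μ b₃) with h' | h' <;>
    rcases le_total (μ b₂) (μ b₃) with h'' | h''
  · exact ⟨b₁, b₂, b₃, h12, h13, h23, h, h'', fun b => by tauto⟩
  · exact ⟨b₁, b₃, b₂, h13, h12, h23.symm, h', h'', fun b => by tauto⟩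
  · exact ⟨b₁, b₂, b₃, h12, h13, h23, h, h'', fun b => by tauto⟩
  · exact ⟨b₃, b₁, b₂, h13.symm, h23.symm, h12, h', h, fun b => by tauto⟩
  · exact ⟨b₂, b₁, b₃, h12.symm, h23, h13, h, h', fun b => by tauto⟩
  · exact ⟨b₂, b₁, b₃, h12.symm, h23, h13, h, h', fun b => by tauto⟩
  · exact ⟨b₂, b₃, b₁, h23, h12.symm, h13.symm, h'', h', fun b => by tauto⟩
  · exact ⟨b₃, b₂, b₁, h23.symm, h13.symm, h12.symm, h'', h, fun b => by tauto⟩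

private theorem sum3 (f : Option ℂ → ℝ) (b₁ b₂ b₃ : Option ℂ) (h12 : b₁ ≠ b₂) (h13 : b₁ ≠ b₃)
    (h23 : b₂ ≠ b₃) : ∑ b ∈ ({b₁, b₂, b₃} : Finset (Option ℂ)), f b = f b₁ + (f b₂ + f b₃) := by
  rw [Finset.sum_insert (by simp [h12, h13]), Finset.sum_insert (by simp [h23]),
    Finset.sum_singleton]

private theorem sum4 (f : Option ℂ → ℝ) (b₁ b₂ b₃ b₄ : Option ℂ) (h12 : b₁ ≠ b₂) (h13 : b₁ ≠ b₃)
    (h14 : b₁ ≠ b₄) (h23 : b₂ ≠ b₃) (h24 : b₂ ≠ b₄) (h34 : b₃ ≠ b₄) :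
    ∑ b ∈ ({b₁, b₂, b₃, b₄} : Finset (Option ℂ)), f b = f b₁ + (f b₂ + (f b₃ + f b₄)) := by
  rw [Finset.sum_insert (by simp [h12, h13, h14]), sum3 f b₂ b₃ b₄ h23 h24 h34]

/-- Proof. `R = {b | 2 ≤ μ b}`: each term is `≥ 1/2`, so every finite subset of `R` has at most four elements and `R`
is finite. At most 2 elements: first case. 4 elements: all terms are `1/2`. 3 elements, ordered so
that `μ b₁ ≤ μ b₂ ≤ μ b₃`: `1/μ b₁ + 1/μ b₂ + 1/μ b₃ ≥ 1`. -/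
theorem classify (μ : Option ℂ → ℕ) (h1 : ∀ b, 1 ≤ μ b)
    (h2 : ∀ S : Finset (Option ℂ), ∑ b ∈ S, (1 - 1 / (μ b : ℝ)) ≤ 2) :
    (∃ b₁ b₂ : Option ℂ, b₁ ≠ b₂ ∧ ∀ b, b ≠ b₁ → b ≠ b₂ → μ b = 1) ∨
    (∃ b₁ b₂ b₃ : Option ℂ, b₁ ≠ b₂ ∧ b₁ ≠ b₃ ∧ b₂ ≠ b₃ ∧ (∀ b, b ≠ b₁ → b ≠ b₂ → b ≠ b₃ → μ b = 1) ∧
      GoodTriple (μ b₁) (μ b₂) (μ b₃)) ∨
    (∃ b₁ b₂ b₃ b₄ : Option ℂ, b₁ ≠ b₂ ∧ b₁ ≠ b₃ ∧ b₁ ≠ b₄ ∧ b₂ ≠ b₃ ∧ b₂ ≠ b₄ ∧ b₃ ≠ b₄ ∧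
      (∀ b, b ≠ b₁ → b ≠ b₂ → b ≠ b₃ → b ≠ b₄ → μ b = 1) ∧
      μ b₁ = 2 ∧ μ b₂ = 2 ∧ μ b₃ = 2 ∧ μ b₄ = 2) := by
  classical
  have h2' : ∀ b, μ b ≠ 1 → 2 ≤ μ b := fun b hb => by have := h1 b; omega
  by_cases h4 : ∃ b₁ b₂ b₃ b₄ : Option ℂ, b₁ ≠ b₂ ∧ b₁ ≠ b₃ ∧ b₁ ≠ b₄ ∧ b₂ ≠ b₃ ∧ b₂ ≠ b₄ ∧ b₃ ≠ b₄ ∧
      2 ≤ μ b₁ ∧ 2 ≤ μ b₂ ∧ 2 ≤ μ b₃ ∧ 2 ≤ μ b₄
  · obtain ⟨b₁, b₂, b₃, b₄, h12, h13, h14, h23, h24, h34, m1, m2, m3, m4⟩ := h4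
    have hs := h2 {b₁, b₂, b₃, b₄}
    rw [sum4 _ b₁ b₂ b₃ b₄ h12 h13 h14 h23 h24 h34] at hs
    have t1 := term_half m1
    have t2 := term_half m2
    have t3 := term_half m3
    have t4 := term_half m4
    have key : ∀ m : ℕ, 2 ≤ m → 1 - 1 / (m : ℝ) ≤ 1 / 2 → m = 2 := by
      intro m hm h
      have hm0 : (0 : ℝ) < m := by exact_mod_cast (by omega : 0 < m)
      have h5 : (1 : ℝ) / 2 ≤ 1 / m := by linarith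
      have h6 : (m : ℝ) ≤ 2 := le_of_one_div_le_one_div (by norm_num) h5
      have h7 : m ≤ 2 := by exact_mod_cast h6
      omega
    refine Or.inr (Or.inr ⟨b₁, b₂, b₃, b₄, h12, h13, h14, h23, h24, h34, ?_,
      key _ m1 (by linarith), key _ m2 (by linarith), key _ m3 (by linarith),
      key _ m4 (by linarith)⟩)
    intro b hb1 hb2 hb3 hb4
    by_contra hcon
    have mb := h2' b hcon
    have tb := term_half mb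
    have hs' := h2 {b, b₁, b₂, b₃, b₄}
    rw [Finset.sum_insert (by simp [hb1, hb2, hb3, hb4]),
      sum4 _ b₁ b₂ b₃ b₄ h12 h13 h14 h23 h24 h34] at hs'
    linarith
  by_cases h3 : ∃ b₁ b₂ b₃ : Option ℂ, b₁ ≠ b₂ ∧ b₁ ≠ b₃ ∧ b₂ ≠ b₃ ∧ 2 ≤ μ b₁ ∧ 2 ≤ μ b₂ ∧ 2 ≤ μ b₃
  · obtain ⟨b₁, b₂, b₃, h12, h13, h23, m1, m2, m3⟩ := h3
    obtain ⟨c₁, c₂, c₃, g12, g13, g23, l12, l23, hc⟩ := sort3 μ b₁ b₂ b₃ h12 h13 h23
    have hm : ∀ b, b = c₁ ∨ b = c₂ ∨ b = c₃ → 2 ≤ μ b := by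
      intro b hb
      rcases (hc b).mpr hb with rfl | rfl | rfl
      · exact m1
      · exact m2
      · exact m3
    have n1 := hm c₁ (Or.inl rfl)
    have n2 := hm c₂ (Or.inr (Or.inl rfl))
    have n3 := hm c₃ (Or.inr (Or.inr rfl))
    refine Or.inr (Or.inl ⟨c₁, c₂, c₃, g12, g13, g23, ?_, ?_⟩)
    · intro b hb1 hb2 hb3
      by_contra hcon
      exact h4 ⟨b, c₁, c₂, c₃, hb1, hb2, hb3, g12, g13, g23, h2' b hcon, n1, n2, n3⟩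
    · have hs := h2 {c₁, c₂, c₃}
      rw [sum3 _ c₁ c₂ c₃ g12 g13 g23] at hs
      exact good_of_sum n1 l12 l23 hs
  left
  by_cases h2'' : ∃ b₁ b₂ : Option ℂ, b₁ ≠ b₂ ∧ 2 ≤ μ b₁ ∧ 2 ≤ μ b₂
  · obtain ⟨b₁, b₂, h12, m1, m2⟩ := h2''
    refine ⟨b₁, b₂, h12, ?_⟩
    intro b hb1 hb2
    by_contra hcon
    exact h3 ⟨b, b₁, b₂, hb1, hb2, h12, h2' b hcon, m1, m2⟩
  by_cases h1' : ∃ b₁ : Option ℂ, 2 ≤ μ b₁
  · obtain ⟨b₁, m1⟩ := h1'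
    obtain ⟨b₂, hb₂⟩ := exists_ne b₁
    refine ⟨b₁, b₂, hb₂.symm, ?_⟩
    intro b hb1 _
    by_contra hcon
    exact h2'' ⟨b, b₁, hb1, h2' b hcon, m1⟩
  · refine ⟨none, some 0, by simp, ?_⟩
    intro b _ _
    by_contra hcon
    exact h1' ⟨b, h2' b hcon⟩

end Pool.Agent.AbPencil
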