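import Pool.Agent.Lib_MP_1209e6_sp.U0
import Pool.Agent.Lib_MP_1209e6_sp.U2
import Pool.Agent.Lib_MP_1209e6_sp.U3
import Pool.Agent.Lib_MP_1209e6_sp.U4
import Pool.Agent.Lib_MP_1209e6_sp.U5

/-! PIECE U6: existence of the base curve. -/

set_option autoImplicit false

open Filter Topology

namespace Pool.Agent.AbPencil

/-- a permutation of `ℙ¹` by which the problem may be transformed -/
private def Good (g : Equiv.Perm (Option ℂ)) : Prop :=
  ∀ μ : Option ℂ → ℕ, (∀ b, 1 ≤ μ b) → (∃ u, Ram (fun b => μ (g b)) u) → ∃ u, Ram μ u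

private theorem good_one : Good 1 := fun μ _ h => h

private theorem good_mul {g h : Equiv.Perm (Option ℂ)} (hg : Good g) (hh : Good h) :
    Good (g * h) := by
  intro μ h1 hP
  apply hg μ h1
  apply hh (fun b => μ (g b)) (fun b => h1 _)
  exact hP

private noncomputable def affPerm (α β : ℂ) (hα : α ≠ 0) : Equiv.Perm (Option ℂ) where
  toFun b := b.map fun c => α * c + β
  invFun b := b.map fun c => (c - β) / α
  left_inv b := by
    cases b with
    | none => rfl
    | some c =>
      simp only [Option.map_some, Option.some.injEq]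
      field_simp
      ring
  right_inv b := by
    cases b with
    | none => rfl
    | some c =>
      simp only [Option.map_some, Option.some.injEq]
      field_simp
      ring

private theorem good_aff (α β : ℂ) (hα : α ≠ 0) : Good (affPerm α β hα) := by
  intro μ h1 ⟨u, hu⟩
  refine ⟨fun z => α * u z + β, ?_⟩
  have h := ram_affine (fun b => μ (affPerm α β hα b)) (fun b => h1 _) u hu α β hα
  have e : (fun b : Option ℂ => μ (affPerm α β hα (b.map fun c => (c - β) / α))) = μ := by
    funext b
    exact congrArg μ ((affPerm α β hα).right_inv b)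
  rw [← e]
  exact h

private theorem inv_inv' (b : Option ℂ) : inv (inv b) = b := by
  cases b with
  | none => simp [inv]
  | some c =>
    by_cases hc : c = 0
    · subst hc; simp [inv]
    · have : c⁻¹ ≠ 0 := inv_ne_zero hc
      simp [inv, hc]

private noncomputable def invPerm : Equiv.Perm (Option ℂ) where
  toFun := inv
  invFun := inv
  left_inv := inv_inv'
  right_inv := inv_inv'

private theorem good_inv : Good invPerm := by
  intro μ h1 ⟨u, hu⟩
  refine ⟨fun z => (u z)⁻¹, ?_⟩
  have h := ram_inv (fun b => μ (invPerm b)) (fun b => h1 _) u hu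
  have e : (fun b : Option ℂ => μ (invPerm (inv b))) = μ := by
    funext b
    exact congrArg μ (inv_inv' b)
  rw [← e]
  exact h

private theorem move1 (b : Option ℂ) : ∃ g : Equiv.Perm (Option ℂ), Good g ∧ g none = b := by
  cases b with
  | none => exact ⟨1, good_one, rfl⟩
  | some c =>
    refine ⟨affPerm 1 c one_ne_zero * invPerm, good_mul (good_aff _ _ _) good_inv, ?_⟩
    simp [affPerm, invPerm, inv]

private theorem move2 (b₁ b₂ : Option ℂ) (h12 : b₁ ≠ b₂) :
    ∃ g : Equiv.Perm (Option ℂ), Good g ∧ g (some 0) = b₁ ∧ g none = b₂ := by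
  obtain ⟨g, hg, hgn⟩ := move1 b₂
  have hne : g.symm b₁ ≠ none := by
    intro h
    apply h12
    rw [← hgn, ← h, Equiv.apply_symm_apply]
  obtain ⟨p, hp⟩ := Option.ne_none_iff_exists'.mp hne
  refine ⟨g * affPerm 1 p one_ne_zero, good_mul hg (good_aff _ _ _), ?_, ?_⟩
  · have : affPerm 1 p one_ne_zero (some 0) = some p := by simp [affPerm]
    rw [Equiv.Perm.mul_apply, this, ← hp, Equiv.apply_symm_apply]
  · have : affPerm 1 p one_ne_zero none = none := by simp [affPerm]
    rw [Equiv.Perm.mul_apply, this, hgn]

private theorem move3 (b₁ b₂ b₃ : Option ℂ) (h12 : b₁ ≠ b₂) (h13 : b₁ ≠ b₃) (h23 : b₂ ≠ b₃) :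
    ∃ g : Equiv.Perm (Option ℂ), Good g ∧ g (some 0) = b₁ ∧ g (some 1) = b₂ ∧ g none = b₃ := by
  obtain ⟨g, hg, hg0, hgn⟩ := move2 b₁ b₃ h13
  have hne : g.symm b₂ ≠ none := by
    intro h
    apply h23
    rw [← hgn, ← h, Equiv.apply_symm_apply]
  obtain ⟨q, hq⟩ := Option.ne_none_iff_exists'.mp hne
  have hq0 : q ≠ 0 := by
    intro h
    apply h12
    rw [← hg0, ← h, ← hq, Equiv.apply_symm_apply]
  refine ⟨g * affPerm q 0 hq0, good_mul hg (good_aff _ _ _), ?_, ?_, ?_⟩
  · have : affPerm q 0 hq0 (some 0) = some 0 := by simp [affPerm]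
    rw [Equiv.Perm.mul_apply, this, hg0]
  · have : affPerm q 0 hq0 (some 1) = some q := by simp [affPerm]
    rw [Equiv.Perm.mul_apply, this, ← hq, Equiv.apply_symm_apply]
  · have : affPerm q 0 hq0 none = none := by simp [affPerm]
    rw [Equiv.Perm.mul_apply, this, hgn]

private theorem std_of_good (hell : ∀ a b c : ℂ, (∀ x : ℂ, x ^ 3 + a * x ^ 2 + b * x + c = 0 →
      3 * x ^ 2 + 2 * a * x + b ≠ 0) → EllCurve a b c) (m₀ m₁ m₂ : ℕ) (hm : 1 ≤ m₂)
    (h : GoodTriple m₀ m₁ m₂) : Std m₀ m₁ m₂ := by
  have e1 : EllCurve 0 0 1 := by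
    apply hell
    intro x hx hx'
    have h0 : x = 0 := by
      have : (3 : ℂ) * x ^ 2 = 0 := by linear_combination hx'
      simpa using this
    rw [h0] at hx
    norm_num at hx
  have e2 : EllCurve 0 (-1) 0 := by
    apply hell
    intro x hx hx'
    have h0 : x ^ 2 = 1 / 3 := by linear_combination (1 / 3 : ℂ) * hx'
    have h2 : x * (x ^ 2 - 1) = 0 := by linear_combination hx
    rw [h0] at h2
    have h3 : x = 0 := by
      rcases mul_eq_zero.mp h2 with h | h
      · exact h
      · norm_num at h
    rw [h3] at h0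
    norm_num at h0
  rcases h with ⟨rfl, rfl⟩ | ⟨rfl, rfl, h⟩ | ⟨rfl, rfl, rfl⟩ | ⟨rfl, rfl, rfl⟩
  · exact std_dihedral m₂ hm
  · rcases h with rfl | rfl | rfl | rfl
    · exact std_three e1
    · exact std_octahedral
    · exact std_icosahedral
    · exact std_six e1
  · exact std_four_four e2
  · exact std_three_three e1

/-- Proof. `classify`. By `ram_affine` and `ram_inv` the set of `μ` for which a `u` exists is invariant under
the group of permutations of `ℙ¹ = Option ℂ` generated by `c ↦ α c + β` and `inv`: if `g` is such a permutation and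
there is `u` for `μ ∘ g` then there is one for `μ` (apply `ram_affine`/`ram_inv` to `μ ∘ g`; `inv (inv b) = b`).
Given `b₁ ≠ b₂` (and `b₃`, `b₄`) move the last point to `none` (if it is `some c`: translate by `- c`, then `inv`), then
`b₁` to `some 0` by a translation, then `b₂` to `some 1` by a homothety. Cases: two points
(`ram_exp`), three points (`Std`: `std_dihedral`, `std_three`, `std_octahedral`, `std_icosahedral`, `std_six`,
`std_four_four`, `std_three_three`, all with multiplicities over `0, 1, ∞` in increasing order), four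
points (`stdFour_of_ell`). -/
theorem exists_ram (hell : ∀ a b c : ℂ, (∀ x : ℂ, x ^ 3 + a * x ^ 2 + b * x + c = 0 →
      3 * x ^ 2 + 2 * a * x + b ≠ 0) → EllCurve a b c) (μ : Option ℂ → ℕ) (h1 : ∀ b, 1 ≤ μ b)
    (h2 : ∀ S : Finset (Option ℂ), ∑ b ∈ S, (1 - 1 / (μ b : ℝ)) ≤ 2) : ∃ u, Ram μ u := by
  rcases classify μ h1 h2 with ⟨b₁, b₂, h12, hμ⟩ | ⟨b₁, b₂, b₃, h12, h13, h23, hμ, hG⟩ |
    ⟨b₁, b₂, b₃, b₄, h12, h13, h14, h23, h24, h34, hμ, hm1, hm2, hm3, hm4⟩
  · obtain ⟨g, hg, hg0, hgn⟩ := move2 b₁ b₂ h12
    apply hg μ h1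
    apply ram_exp _ (fun b => h1 _)
    intro c hc
    apply hμ
    · rw [← hg0]
      intro h
      exact hc (Option.some.inj (g.injective h))
    · rw [← hgn]
      intro h
      exact Option.some_ne_none _ (g.injective h)
  · obtain ⟨g, hg, hg0, hg1, hgn⟩ := move3 b₁ b₂ b₃ h12 h13 h23
    apply hg μ h1
    have hS := std_of_good hell (μ b₁) (μ b₂) (μ b₃) (h1 _) hG
    apply hS
    · simp only [hg0]
    · simp only [hg1]
    · simp only [hgn]
    · intro c hc0 hc1
      apply hμ
      · rw [← hg0]
        intro h
        exact hc0 (Option.some.inj (g.injective h))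
      · rw [← hg1]
        intro h
        exact hc1 (Option.some.inj (g.injective h))
      · rw [← hgn]
        intro h
        exact Option.some_ne_none _ (g.injective h)
  · obtain ⟨g, hg, hg0, hg1, hgn⟩ := move3 b₁ b₂ b₃ h12 h13 h23
    apply hg μ h1
    have hne : g.symm b₄ ≠ none := by
      intro h
      apply h34
      rw [← hgn, ← h, Equiv.apply_symm_apply]
    obtain ⟨l, hl⟩ := Option.ne_none_iff_exists'.mp hne
    have hl' : g (some l) = b₄ := by rw [← hl, Equiv.apply_symm_apply]
    have hl0 : l ≠ 0 := by
      intro h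
      apply h14
      rw [← hg0, ← hl', h]
    have hl1 : l ≠ 1 := by
      intro h
      apply h24
      rw [← hg1, ← hl', h]
    have hE : EllCurve (-(1 + l)) l 0 := by
      apply hell
      intro x hx hx'
      have hf : x * ((x - 1) * (x - l)) = 0 := by linear_combination hx
      rcases mul_eq_zero.mp hf with h | h
      · rw [h] at hx'
        apply hl0
        linear_combination hx'
      · rcases mul_eq_zero.mp h with h | h
        · have hx1 : x = 1 := by linear_combination h
          rw [hx1] at hx'
          apply hl1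
          linear_combination -hx'
        · have hxl : x = l := by linear_combination h
          rw [hxl] at hx'
          have : l * (l - 1) = 0 := by linear_combination hx'
          rcases mul_eq_zero.mp this with h | h
          · exact hl0 h
          · exact hl1 (by linear_combination h)
    have hS := stdFour_of_ell l hl0 hl1 hE
    apply hS
    · simp only [hg0, hm1]
    · simp only [hg1, hm2]
    · simp only [hl', hm4]
    · simp only [hgn, hm3]
    · intro c hc0 hc1 hcl
      apply hμ
      · rw [← hg0]
        intro h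
        exact hc0 (Option.some.inj (g.injective h))
      · rw [← hg1]
        intro h
        exact hc1 (Option.some.inj (g.injective h))
      · rw [← hgn]
        intro h
        exact Option.some_ne_none _ (g.injective h)
      · rw [← hl']
        intro h
        exact hcl (Option.some.inj (g.injective h))

end Pool.Agent.AbPencil
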