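import Pool.Agent.Lib_MP_1209e6_sp.Defs

/-! PIECE P: a presentation of the function field inside a place. -/

set_option autoImplicit false

namespace Pool.Agent.AbPencil

open Pool.Agent.Campana

private lemma isAlg_of_top {K : Type} [Field K] [Algebra ℂ K] (t : Set K)
    (h : IntermediateField.adjoin ℂ t = ⊤) : Algebra.IsAlgebraic (Algebra.adjoin ℂ t) K := by
  constructor
  intro a
  have ha : a ∈ IntermediateField.adjoin ℂ t := by rw [h]; trivial
  rw [IntermediateField.mem_adjoin_iff_div] at ha
  obtain ⟨r, hr, s, hs, e⟩ := ha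
  rw [e, div_eq_mul_inv]
  have h1 : IsAlgebraic (Algebra.adjoin ℂ t) r :=
    isAlgebraic_algebraMap (⟨r, hr⟩ : Algebra.adjoin ℂ t)
  have h2 : IsAlgebraic (Algebra.adjoin ℂ t) s :=
    isAlgebraic_algebraMap (⟨s, hs⟩ : Algebra.adjoin ℂ t)
  exact h1.mul h2.inv

private lemma exists_basis {K : Type} [Field K] [Algebra ℂ K] (T : Finset K)
    (hT : IntermediateField.adjoin ℂ (T : Set K) = ⊤) (O : ValuationSubring K) (τ : K)
    (hτ : Transcendental ℂ τ) (hτO : τ ∈ O) :
    ∃ (d : ℕ) (y : Fin (d + 1) → K), y 0 = τ ∧ (∀ i, y i ∈ O) ∧ IsTranscendenceBasis ℂ y := by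
  classical
  set T' : Finset K := T.image fun x => if x ∈ O then x else x⁻¹ with hT'
  have hT'O : ∀ x ∈ T', x ∈ O := by
    intro x hx
    rw [hT', Finset.mem_image] at hx
    obtain ⟨z, _, rfl⟩ := hx
    split_ifs with h
    · exact h
    · exact (O.mem_or_inv_mem z).resolve_left h
  have htop : IntermediateField.adjoin ℂ (insert τ (T' : Set K)) = ⊤ := by
    rw [eq_top_iff, ← hT]
    apply IntermediateField.adjoin_le_iff.2
    intro x hx
    have h1 : (if x ∈ O then x else x⁻¹) ∈ IntermediateField.adjoin ℂ (insert τ (T' : Set K)) := by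
      apply IntermediateField.subset_adjoin
      right
      rw [hT', Finset.coe_image]
      exact ⟨x, hx, rfl⟩
    split_ifs at h1 with h
    · exact h1
    · have := (IntermediateField.adjoin ℂ (insert τ (T' : Set K))).inv_mem h1
      rwa [inv_inv] at this
  have halg := isAlg_of_top _ htop
  have hind : AlgebraicIndepOn ℂ id ({τ} : Set K) := by
    have : AlgebraicIndependent ℂ (fun x : ({τ} : Set K) => (x : K)) := by
      rw [algebraicIndependent_unique_type_iff]
      have h1 : ((default : ({τ} : Set K)) : K) = τ := Set.mem_singleton_iff.1 (default : ({τ} : Set K)).2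
      rw [h1]
      exact hτ
    exact this
  obtain ⟨u, hu1, hu2, hu3⟩ := exists_isTranscendenceBasis_between ({τ} : Set K)
    (insert τ (T' : Set K)) (by intro x hx; left; exact hx) hind
  have hufin : u.Finite := Set.Finite.subset ((T'.finite_toSet).insert τ) hu2
  have := hufin.fintype
  have hτu : τ ∈ u := hu1 rfl
  have hcard : 0 < Fintype.card u := Fintype.card_pos_iff.2 ⟨⟨τ, hτu⟩⟩
  obtain ⟨d, hd⟩ : ∃ d, Fintype.card u = d + 1 := ⟨Fintype.card u - 1, by omega⟩
  let e : Fin (d + 1) ≃ u := (Fintype.equivFinOfCardEq hd).symm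
  let e' : Fin (d + 1) ≃ u := (Equiv.swap 0 (e.symm ⟨τ, hτu⟩)).trans e
  refine ⟨d, fun i => (e' i : K), ?_, ?_, ?_⟩
  · simp [e']
  · intro i
    change (e' i : K) ∈ O
    rcases hu2 (e' i).2 with h | h
    · rw [h]; exact hτO
    · exact hT'O _ h
  · exact (isTranscendenceBasis_equiv e' (f := fun x : u => (x : K))).2 hu3

/-- Proof. `{τ}` extends to a finite transcendence basis of `K` (`K` is finitely generated), number it
as `y : Fin (d+1) → K` with `y 0 = τ`; replace `y i` (`i ≠ 0`) by its inverse if it is not in `O`. `K` is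
a finite separable extension of `ℂ(y)`, let `η` be a primitive element; replace it by `τ^k η ∈ O` (`k` large;
`v (τ^k η) ≥ 0`). `f` = the minimal polynomial of `η` over `ℂ(y)` times a common denominator in `ℂ[y]`,
where `ℂ[y] ≃ MvPolynomial (Fin (d+1)) ℂ` by `ind` (`ℂ(y)` is its fraction field). `sep`: separable. `dvd`: if
`q(η) = 0` then the minimal polynomial divides `q` in `ℂ(y)[Y]`; clear denominators. `gen`: every
element of `K = ℂ(y)[η]` is a polynomial in `η` with coefficients in `ℂ(y)`. (Convenient: make `K` an algebra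
over `R = MvPolynomial (Fin (d+1)) ℂ` through `aeval y` and use a fraction field `F` of `R` with `F → K`;
`IsLocalization.integerNormalization` for the denominators.) -/
theorem exists_pres {K : Type} [Field K] [Algebra ℂ K] (T : Finset K)
    (hT : IntermediateField.adjoin ℂ (T : Set K) = ⊤) (O : ValuationSubring K) (hO : IsPlace O)
    (v : K → ℤ) (hv : IsOrd O v) (τ : K) (hτ : Transcendental ℂ τ) (h1 : 1 ≤ v τ) :
    ∃ (d : ℕ) (y : Fin (d + 1) → K) (η : K) (f : Polynomial (MvPolynomial (Fin (d + 1)) ℂ)),
      y 0 = τ ∧ (∀ i, y i ∈ O) ∧ η ∈ O ∧ Pres y η f := by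
  have hτ0 : τ ≠ 0 := by
    intro h
    exact hτ (by rw [h]; exact isAlgebraic_zero)
  have hτO : τ ∈ O := (hv.mem_iff hτ0).2 (by omega)
  obtain ⟨d, y, hy0, hyO, hy⟩ := exists_basis T hT O τ hτ hτO
  have hind : AlgebraicIndependent ℂ y := hy.1
  let R := MvPolynomial (Fin (d + 1)) ℂ
  let F := FractionRing R
  let φ : R →+* K := (MvPolynomial.aeval (R := ℂ) y).toRingHom
  have hφ : Function.Injective φ := hind
  let ψ : F →+* K := IsFractionRing.lift (A := R) (K := F) (g := φ) hφ
  have hψ : ∀ r : R, ψ (algebraMap R F r) = φ r := fun r => IsFractionRing.lift_algebraMap hφ r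
  let : Algebra F K := ψ.toAlgebra
  have hψ' : algebraMap F K = ψ := rfl
  have hyF : ∀ i, ∃ z : F, algebraMap F K z = y i := by
    intro i
    refine ⟨algebraMap R F (MvPolynomial.X i), ?_⟩
    rw [hψ', hψ]
    exact MvPolynomial.aeval_X y i
  -- `K` is algebraic over `F`
  have halg : Algebra.IsAlgebraic F K := by
    have h1 := hy.isAlgebraic
    constructor
    intro a
    obtain ⟨p, hp0, hp⟩ := h1.isAlgebraic a
    let ρ : Algebra.adjoin ℂ (Set.range y) →+* F := (algebraMap R F).comp
      (hind.aevalEquiv.symm : Algebra.adjoin ℂ (Set.range y) ≃ₐ[ℂ] R).toRingEquiv.toRingHom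
    have hρ : ∀ z : Algebra.adjoin ℂ (Set.range y), algebraMap F K (ρ z) = z := by
      intro z
      change ψ (algebraMap R F (hind.aevalEquiv.symm z)) = z
      rw [hψ]
      have h2 := hind.algebraMap_aevalEquiv (hind.aevalEquiv.symm z)
      rw [AlgEquiv.apply_symm_apply] at h2
      exact h2.symm
    have hρinj : Function.Injective ρ := by
      intro z w h
      apply Subtype.ext
      rw [← hρ z, ← hρ w, h]
    refine ⟨p.map ρ, ?_, ?_⟩
    · rwa [Ne, Polynomial.map_eq_zero_iff hρinj]
    · rw [Polynomial.aeval_def, Polynomial.eval₂_map]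
      rw [Polynomial.aeval_def] at hp
      have : (algebraMap F K).comp ρ = algebraMap (Algebra.adjoin ℂ (Set.range y)) K := by
        ext z
        exact hρ z
      rw [this]
      exact hp
  -- `K` is finite over `F`
  have hgen : IntermediateField.adjoin F (T : Set K) = ⊤ := by
    rw [eq_top_iff]
    intro a _
    have ha : a ∈ IntermediateField.adjoin ℂ (T : Set K) := by rw [hT]; trivial
    refine IntermediateField.adjoin_induction (F := ℂ) (s := (T : Set K))
      (p := fun x _ => x ∈ IntermediateField.adjoin F (T : Set K)) ?_ ?_ ?_ ?_ ?_ ha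
    · intro x hx
      exact IntermediateField.subset_adjoin _ _ hx
    · intro c
      have : algebraMap ℂ K c = algebraMap F K (algebraMap R F (MvPolynomial.C c)) := by
        rw [hψ', hψ]
        exact (MvPolynomial.aeval_C y c).symm
      rw [this]
      exact IntermediateField.algebraMap_mem _ _
    · intro x z _ _ hx hz
      exact add_mem hx hz
    · intro x _ hx
      exact inv_mem hx
    · intro x z _ _ hx hz
      exact mul_mem hx hz
  have hfin : FiniteDimensional F K := by
    have h1 : FiniteDimensional F (IntermediateField.adjoin F (T : Set K)) :=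
      IntermediateField.finiteDimensional_adjoin fun x _ => (halg.isAlgebraic x).isIntegral
    rw [hgen] at h1
    exact Module.Finite.equiv (IntermediateField.topEquiv (F := F) (E := K)).toLinearEquiv
  have : CharZero F := by
    have : CharZero R := inferInstance
    exact charZero_of_injective_algebraMap (IsFractionRing.injective R F)
  obtain ⟨α, hα⟩ := Field.exists_primitive_element F K
  -- choose `η`
  obtain ⟨k, hk⟩ : ∃ k : ℕ, τ ^ k * α ∈ O := by
    by_cases hα0 : α = 0
    · exact ⟨0, by rw [hα0, mul_zero]; exact O.zero_mem⟩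
    · refine ⟨(v α).natAbs, ?_⟩
      rw [hv.mem_iff (mul_ne_zero (pow_ne_zero _ hτ0) hα0), hv.map_mul (pow_ne_zero _ hτ0) hα0,
        hv.map_pow hτ0]
      have h3 : ((v α).natAbs : ℤ) ≤ ((v α).natAbs : ℤ) * v τ := by
        have : (0 : ℤ) ≤ ((v α).natAbs : ℤ) := by positivity
        nlinarith
      have h4 : -v α ≤ ((v α).natAbs : ℤ) := by omega
      linarith
  set η : K := τ ^ k * α with hη
  have hηtop : IntermediateField.adjoin F {η} = ⊤ := by
    rw [eq_top_iff, ← hα]
    apply IntermediateField.adjoin_le_iff.2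
    intro x hx
    rw [Set.mem_singleton_iff.1 hx]
    obtain ⟨z, hz⟩ := hyF 0
    rw [hy0] at hz
    have h1 : τ ∈ IntermediateField.adjoin F {η} := by
      rw [← hz]
      exact IntermediateField.algebraMap_mem _ _
    have h2 : η ∈ IntermediateField.adjoin F {η} := IntermediateField.mem_adjoin_simple_self F η
    have h3 : α = (τ ^ k)⁻¹ * η := by
      rw [hη, ← mul_assoc, inv_mul_cancel₀ (pow_ne_zero _ hτ0), one_mul]
    change α ∈ IntermediateField.adjoin F {η}
    rw [h3]
    exact mul_mem (inv_mem (pow_mem h1 k)) h2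
  have hηint : IsIntegral F η := (halg.isAlgebraic η).isIntegral
  let m := minpoly F η
  -- clearing denominators
  have hclear : ∀ p : Polynomial F, ∃ b : R, b ≠ 0 ∧ ∃ q : Polynomial R,
      q.map (algebraMap R F) = Polynomial.C (algebraMap R F b) * p := by
    intro p
    obtain ⟨b, hb, hq⟩ := IsLocalization.integerNormalization_spec (nonZeroDivisors R) p
    refine ⟨b, nonZeroDivisors.ne_zero hb, _, hq.trans ?_⟩
    rw [← Polynomial.smul_eq_C_mul, algebraMap_smul]
  have heval : ∀ q : Polynomial R, q.eval₂ φ η = Polynomial.aeval η (q.map (algebraMap R F)) := by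
    intro q
    rw [Polynomial.aeval_def, Polynomial.eval₂_map]
    congr 1
    ext r
    · exact (hψ _).symm
    · exact (hψ _).symm
  have hmapinj : Function.Injective (Polynomial.map (algebraMap R F)) :=
    Polynomial.map_injective _ (IsFractionRing.injective R F)
  have hb0 : ∀ b : R, b ≠ 0 → algebraMap R F b ≠ 0 := by
    intro b hb h
    exact hb ((IsFractionRing.injective R F) (by rw [h, map_zero]))
  obtain ⟨b, hbne, f, hf⟩ := hclear m
  refine ⟨d, y, η, f, hy0, hyO, hk, hind, ?_, ?_, ?_, ?_⟩
  · change f.eval₂ φ η = 0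
    rw [heval, hf, map_mul, minpoly.aeval, mul_zero]
  · change (Polynomial.derivative f).eval₂ φ η ≠ 0
    rw [heval, ← Polynomial.derivative_map, hf, Polynomial.derivative_C_mul, map_mul,
      Polynomial.aeval_C]
    apply mul_ne_zero
    · rw [Ne, map_eq_zero]
      exact hb0 b hbne
    · exact (Algebra.IsSeparable.isSeparable F η).aeval_derivative_ne_zero (minpoly.aeval _ _)
  · intro q hq
    change q.eval₂ φ η = 0 at hq
    rw [heval] at hq
    obtain ⟨g', hg'⟩ := minpoly.dvd F η hq
    obtain ⟨c, hc, g, hg⟩ := hclear g'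
    refine ⟨c * b, mul_ne_zero hc hbne, g, ?_⟩
    apply hmapinj
    rw [Polynomial.map_mul, Polynomial.map_mul, Polynomial.map_C, hg', hf, hg, map_mul,
      Polynomial.C_mul]
    ring
  · intro a
    have ha : a ∈ IntermediateField.adjoin F {η} := by rw [hηtop]; trivial
    rw [← IntermediateField.mem_toSubalgebra,
      IntermediateField.adjoin_simple_toSubalgebra_of_isAlgebraic hηint.isAlgebraic,
      Algebra.adjoin_singleton_eq_range_aeval] at ha
    obtain ⟨p, hp⟩ := ha
    obtain ⟨c, hc, Q, hQ⟩ := hclear p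
    refine ⟨c, Q, hc, ?_⟩
    change φ c * a = Q.eval₂ φ η
    rw [heval, hQ, map_mul, Polynomial.aeval_C, hψ', hψ]
    congr 1
    exact hp.symm

end Pool.Agent.AbPencil
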