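import Pool.Agent.Lib_MP_1209e6_sp.Defs

/-! PIECE S: formal expansions at a place and specialisation of the residue field to `ℂ`. -/

set_option autoImplicit false

namespace Pool.Agent.AbPencil

open Pool.Agent.Campana

open IsLocalRing

section field

/-- A field over `ℂ` is formally smooth. -/
theorem smooth_field (k : Type) [Field k] [Algebra ℂ k] : Algebra.FormallySmooth ℂ k := by
  obtain ⟨s, hs⟩ := exists_isTranscendenceBasis ℂ k
  have h1 : Algebra.IsAlgebraic (IntermediateField.adjoin ℂ (Set.range ((↑) : s → k))) k :=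
    hs.isAlgebraic_field
  have h2 : CharZero (IntermediateField.adjoin ℂ (Set.range ((↑) : s → k))) := inferInstance
  have h3 : Algebra.IsSeparable (IntermediateField.adjoin ℂ (Set.range ((↑) : s → k))) k :=
    inferInstance
  exact Algebra.FormallySmooth.of_algebraicIndependent_of_isSeparable hs.1

end field

section dvr

variable {O : Type} [CommRing O] [IsDomain O] [IsDiscreteValuationRing O] [Algebra ℂ O]

variable (O) in
/-- The quotient of `O / m^(L+1)` onto the residue field. -/
noncomputable def toRes (L : ℕ) : (O ⧸ (maximalIdeal O) ^ (L + 1)) →ₐ[ℂ] ResidueField O :=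
  Ideal.Quotient.liftₐ ((maximalIdeal O) ^ (L + 1)) (IsScalarTower.toAlgHom ℂ O (ResidueField O))
    (fun a ha => by
      have h : a ∈ maximalIdeal O := Ideal.pow_le_self (Nat.succ_ne_zero L) ha
      exact (residue_eq_zero_iff a).2 h)

theorem toRes_mk (L : ℕ) (a : O) : toRes O L (Ideal.Quotient.mk _ a) = residue O a := rfl

/-- A section over the residue field. -/
theorem exists_sec (L : ℕ) :
    ∃ σ : ResidueField O →ₐ[ℂ] (O ⧸ (maximalIdeal O) ^ (L + 1)), ∀ c, toRes O L (σ c) = c := by
  have h0 : Algebra.FormallySmooth ℂ (ResidueField O) := smooth_field _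
  have hs : Function.Surjective (toRes O L) := by
    intro c
    obtain ⟨a, rfl⟩ := residue_surjective c
    exact ⟨Ideal.Quotient.mk _ a, rfl⟩
  have hn : IsNilpotent (RingHom.ker (toRes O L)) := by
    refine ⟨L + 1, ?_⟩
    have h1 : RingHom.ker (toRes O L) ≤
        (maximalIdeal O).map (Ideal.Quotient.mk ((maximalIdeal O) ^ (L + 1))) := by
      intro b hb
      obtain ⟨a, rfl⟩ := Ideal.Quotient.mk_surjective b
      have h2 : residue O a = 0 := hb
      exact Ideal.mem_map_of_mem _ ((residue_eq_zero_iff a).1 h2)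
    rw [Ideal.zero_eq_bot, eq_bot_iff]
    refine (Ideal.pow_right_mono h1 _).trans ?_
    rw [← Ideal.map_pow]
    refine Ideal.map_le_iff_le_comap.2 ?_
    intro a ha
    rw [Ideal.mem_comap, Ideal.mem_bot]
    exact Ideal.Quotient.eq_zero_iff_mem.2 ha
  refine ⟨Algebra.FormallySmooth.liftOfSurjective (AlgHom.id ℂ _) (toRes O L) hs hn, fun c => ?_⟩
  exact Algebra.FormallySmooth.liftOfSurjective_apply (AlgHom.id ℂ _) (toRes O L) hs hn c

variable {L : ℕ} (σ : ResidueField O →ₐ[ℂ] (O ⧸ (maximalIdeal O) ^ (L + 1)))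
  (hσ : ∀ c, toRes O L (σ c) = c) (π : O) (hπ : Irreducible π)

/-- Polynomials in `π` with coefficients in the residue field. -/
noncomputable def evp : Polynomial (ResidueField O) →ₐ[ℂ] (O ⧸ (maximalIdeal O) ^ (L + 1)) where
  toRingHom := Polynomial.eval₂RingHom (σ : ResidueField O →+* _) (Ideal.Quotient.mk _ π)
  commutes' c := by
    simp [Polynomial.algebraMap_apply]

theorem evp_C (c : ResidueField O) : evp σ π (Polynomial.C c) = σ c := by
  show Polynomial.eval₂ _ _ _ = _
  simp

theorem evp_X : evp σ π Polynomial.X = Ideal.Quotient.mk _ π := by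
  show Polynomial.eval₂ _ _ _ = _
  simp

include hπ in
theorem toRes_evp (hσ : ∀ c, toRes O L (σ c) = c) (P : Polynomial (ResidueField O)) :
    toRes O L (evp σ π P) = P.coeff 0 := by
  have h : ∀ P : Polynomial (ResidueField O), toRes O L (evp σ π P) = P.eval 0 := by
    intro P
    induction P using Polynomial.induction_on' with
    | add p q hp hq => rw [map_add, map_add, hp, hq, Polynomial.eval_add]
    | monomial n c =>
      rw [← Polynomial.C_mul_X_pow_eq_monomial, map_mul, map_mul, map_pow, map_pow, evp_C, evp_X,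
        hσ, toRes_mk]
      have : residue O π = 0 :=
        (residue_eq_zero_iff π).2 ((mem_maximalIdeal π).2 hπ.not_isUnit)
      rw [this]
      simp
  rw [h, Polynomial.coeff_zero_eq_eval_zero]

include hπ in
theorem evp_surj (hσ : ∀ c, toRes O L (σ c) = c) (b : O) :
    ∃ P : Polynomial (ResidueField O), evp σ π P = Ideal.Quotient.mk _ b := by
  have h : ∀ j : ℕ, ∃ (P : Polynomial (ResidueField O)) (b' : O),
      Ideal.Quotient.mk _ b = evp σ π P + Ideal.Quotient.mk _ (π ^ j * b') := by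
    intro j
    induction j with
    | zero => exact ⟨0, b, by simp⟩
    | succ j ih =>
      obtain ⟨P, b', hb⟩ := ih
      obtain ⟨a, ha⟩ := Ideal.Quotient.mk_surjective (σ (residue O b'))
      have h1 : residue O a = residue O b' := by
        rw [← toRes_mk L a, ha, hσ]
      have h2 : b' - a ∈ maximalIdeal O := by
        rw [← residue_eq_zero_iff, map_sub, h1, sub_self]
      rw [hπ.maximalIdeal_eq, Ideal.mem_span_singleton] at h2
      obtain ⟨c, hc⟩ := h2
      refine ⟨P + Polynomial.C (residue O b') * Polynomial.X ^ j, c, ?_⟩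
      have h3 : evp σ π (Polynomial.C (residue O b') * Polynomial.X ^ j) =
          Ideal.Quotient.mk _ (a * π ^ j) := by
        rw [map_mul, map_pow, evp_C, evp_X, ← ha, ← map_pow, ← map_mul]
      rw [hb, map_add, h3, add_assoc, ← map_add]
      congr 2
      rw [eq_add_of_sub_eq hc]
      ring
  obtain ⟨P, b', hb⟩ := h (L + 1)
  refine ⟨P, ?_⟩
  rw [hb]
  have : Ideal.Quotient.mk ((maximalIdeal O) ^ (L + 1)) (π ^ (L + 1) * b') = 0 := by
    refine Ideal.Quotient.eq_zero_iff_mem.2 (Ideal.mul_mem_right _ _ (Ideal.pow_mem_pow ?_ _))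
    exact (mem_maximalIdeal π).2 hπ.not_isUnit
  rw [this, add_zero]

include hπ in
/-- Orders are the orders of the polynomials. -/
theorem mem_pow_iff (hσ : ∀ c, toRes O L (σ c) = c) (P : Polynomial (ResidueField O)) (b : O)
    (hb : evp σ π P = Ideal.Quotient.mk _ b) (j : ℕ) (hj : j ≤ L + 1) :
    b ∈ (maximalIdeal O) ^ j ↔ Polynomial.X ^ j ∣ P := by
  have hπm : π ∈ maximalIdeal O := (mem_maximalIdeal π).2 hπ.not_isUnit
  constructor
  · intro h
    by_contra hn
    have hP : P ≠ 0 := by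
      rintro rfl
      exact hn (dvd_zero _)
    obtain ⟨i, P', hP', hi⟩ : ∃ (i : ℕ) (P' : Polynomial (ResidueField O)),
        P'.coeff 0 ≠ 0 ∧ P = Polynomial.X ^ i * P' := by
      have h1 := Polynomial.exists_eq_pow_rootMultiplicity_mul_and_not_dvd P hP 0
      obtain ⟨q, hq1, hq2⟩ := h1
      refine ⟨Polynomial.rootMultiplicity 0 P, q, ?_, ?_⟩
      · intro h0
        apply hq2
        rw [Polynomial.C_0, sub_zero]
        exact Polynomial.X_dvd_iff.2 h0
      · rw [Polynomial.C_0, sub_zero] at hq1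
        exact hq1
    have hij : i < j := by
      by_contra hij
      exact hn (hi ▸ Dvd.dvd.mul_right (pow_dvd_pow _ (not_lt.1 hij)) _)
    obtain ⟨b', hb'⟩ := Ideal.Quotient.mk_surjective (evp σ π P')
    have h1 : residue O b' = P'.coeff 0 := by
      rw [← toRes_mk L b', hb', toRes_evp σ π hπ hσ]
    have h2 : b' ∉ maximalIdeal O := by
      intro h3
      rw [(residue_eq_zero_iff b').2 h3] at h1
      exact hP' h1.symm
    have h3 : Ideal.Quotient.mk ((maximalIdeal O) ^ (L + 1)) (b - π ^ i * b') = 0 := by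
      rw [map_sub, ← hb, hi, map_mul, map_pow, evp_X, map_mul, map_pow, hb', sub_self]
    have h4 : b - π ^ i * b' ∈ (maximalIdeal O) ^ (i + 1) :=
      Ideal.pow_le_pow_right (by omega) (Ideal.Quotient.eq_zero_iff_mem.1 h3)
    have h5 : π ^ i * b' ∈ (maximalIdeal O) ^ (i + 1) := by
      have := Ideal.sub_mem _ (Ideal.pow_le_pow_right (by omega : i + 1 ≤ j) h) h4
      rwa [sub_sub_cancel] at this
    rw [hπ.maximalIdeal_eq, Ideal.span_singleton_pow, Ideal.mem_span_singleton] at h5
    obtain ⟨c, hc⟩ := h5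
    have h6 : b' = π * c := by
      have h7 : π ^ i ≠ 0 := pow_ne_zero _ hπ.ne_zero
      apply mul_left_cancel₀ h7
      rw [hc]
      ring
    exact h2 (h6 ▸ Ideal.mul_mem_right _ _ hπm)
  · rintro ⟨P', rfl⟩
    obtain ⟨b', hb'⟩ := Ideal.Quotient.mk_surjective (evp σ π P')
    have h3 : Ideal.Quotient.mk ((maximalIdeal O) ^ (L + 1)) (b - π ^ j * b') = 0 := by
      rw [map_sub, ← hb, map_mul, map_pow, evp_X, map_mul, map_pow, hb', sub_self]
    have h4 : b - π ^ j * b' ∈ (maximalIdeal O) ^ j :=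
      Ideal.pow_le_pow_right hj (Ideal.Quotient.eq_zero_iff_mem.1 h3)
    have h5 : π ^ j * b' ∈ (maximalIdeal O) ^ j :=
      Ideal.mul_mem_right _ _ (Ideal.pow_mem_pow hπm _)
    have := Ideal.add_mem _ h4 h5
    rwa [sub_add_cancel] at this

/-- Step 2a: the orders of the polynomials in finitely many elements are the orders of the polynomials
in finitely many polynomials over the residue field. -/
theorem exists_formal {σ' : Type} (h : σ' → O) (L : ℕ) :
    ∃ P : σ' → Polynomial (ResidueField O), ∀ (q : MvPolynomial σ' ℂ) (j : ℕ), j ≤ L →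
      (MvPolynomial.aeval h q ∈ (maximalIdeal O) ^ j ↔
        Polynomial.X ^ j ∣ MvPolynomial.aeval P q) := by
  obtain ⟨σ, hσ⟩ := exists_sec (O := O) L
  obtain ⟨π, hπ⟩ := IsDiscreteValuationRing.exists_irreducible O
  choose P hP using fun i => evp_surj σ π hπ hσ (h i)
  refine ⟨P, fun q j hj => ?_⟩
  apply mem_pow_iff σ π hπ hσ _ _ _ j (by omega)
  have h1 : evp σ π (MvPolynomial.aeval P q) = MvPolynomial.aeval (fun i => evp σ π (P i)) q :=
    MvPolynomial.comp_aeval_apply (f := P) (evp σ π) q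
  have h2 : Ideal.Quotient.mkₐ ℂ ((maximalIdeal O) ^ (L + 1)) (MvPolynomial.aeval h q) =
      MvPolynomial.aeval (fun i => Ideal.Quotient.mkₐ ℂ ((maximalIdeal O) ^ (L + 1)) (h i)) q :=
    MvPolynomial.comp_aeval_apply (f := h) _ q
  rw [h1]
  refine Eq.trans ?_ h2.symm
  congr 1
  congr 1
  funext i
  exact hP i

end dvr

section specialise

/-- A point of a finitely generated domain over `ℂ` where a given nonzero element does not vanish. -/
theorem exists_point {R : Type} [CommRing R] [IsDomain R] [Algebra ℂ R] [Algebra.FiniteType ℂ R]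
    (a : R) (ha : a ≠ 0) : ∃ φ : R →ₐ[ℂ] ℂ, φ a ≠ 0 := by
  have hJ : IsJacobsonRing R := isJacobsonRing_of_finiteType (A := ℂ)
  have h1 : (⊥ : Ideal R).jacobson = ⊥ := hJ.out (Ideal.isRadical_bot_iff.2 inferInstance)
  have h2 : a ∉ (⊥ : Ideal R).jacobson := by
    rw [h1, Ideal.mem_bot]
    exact ha
  rw [Ideal.jacobson, Ideal.mem_sInf] at h2
  push Not at h2
  obtain ⟨M, ⟨_, hM⟩, haM⟩ := h2
  let _ : Field (R ⧸ M) := Ideal.Quotient.field M
  have h3 : Algebra.FiniteType ℂ (R ⧸ M) :=
    Algebra.FiniteType.of_surjective (Ideal.Quotient.mkₐ ℂ M) (Ideal.Quotient.mkₐ_surjective ℂ M)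
  have h4 : Module.Finite ℂ (R ⧸ M) := finite_of_finite_type_of_isJacobsonRing ℂ (R ⧸ M)
  have h5 : Function.Bijective (algebraMap ℂ (R ⧸ M)) :=
    IsAlgClosed.algebraMap_bijective_of_isIntegral
  let e : ℂ ≃ₐ[ℂ] (R ⧸ M) := AlgEquiv.ofBijective (Algebra.ofId ℂ (R ⧸ M)) h5
  refine ⟨(e.symm : (R ⧸ M) →ₐ[ℂ] ℂ).comp (Ideal.Quotient.mkₐ ℂ M), ?_⟩
  intro h6
  have h7 : e.symm (Ideal.Quotient.mk M a) = 0 := h6
  rw [map_eq_zero_iff _ e.symm.injective] at h7
  exact haM (Ideal.Quotient.eq_zero_iff_mem.1 h7)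

/-- Step 2b: specialisation of the coefficients. -/
theorem exists_special {k : Type} [Field k] [Algebra ℂ k] {σ' : Type} [Finite σ']
    (P : σ' → Polynomial k) (Q : Finset (MvPolynomial σ' ℂ)) :
    ∃ H : σ' → Polynomial ℂ, (∀ (q : MvPolynomial σ' ℂ) (j : ℕ),
      Polynomial.X ^ j ∣ MvPolynomial.aeval P q → Polynomial.X ^ j ∣ MvPolynomial.aeval H q) ∧
      ∀ q ∈ Q, ∀ j : ℕ, Polynomial.X ^ j ∣ MvPolynomial.aeval H q →
        Polynomial.X ^ j ∣ MvPolynomial.aeval P q := by
  classical
  set S : Set k := ⋃ i : σ', ((P i).coeffs : Set k) with hS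
  have hSf : S.Finite := Set.finite_iUnion fun i => Finset.finite_toSet _
  have hft : Algebra.FiniteType ℂ (Algebra.adjoin ℂ S) :=
    (Subalgebra.fg_iff_finiteType _).1 (Subalgebra.fg_def.2 ⟨S, hSf, rfl⟩)
  have hl : ∀ i, ∃ p : Polynomial (Algebra.adjoin ℂ S),
      p.map (Algebra.adjoin ℂ S).val.toRingHom = P i := by
    intro i
    have h1 : P i ∈ Polynomial.lifts (Algebra.adjoin ℂ S).val.toRingHom := by
      rw [Polynomial.lifts_iff_coeff_lifts]
      intro n
      by_cases hn : (P i).coeff n = 0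
      · exact ⟨0, by rw [hn]; simp⟩
      · have h2 : (P i).coeff n ∈ Algebra.adjoin ℂ S := Algebra.subset_adjoin
          (Set.mem_iUnion.2 ⟨i, Polynomial.coeff_mem_coeffs hn⟩)
        exact ⟨⟨_, h2⟩, rfl⟩
    obtain ⟨p, hp⟩ := (Polynomial.mem_lifts _).1 h1
    exact ⟨p, hp⟩
  choose P' hP' using hl
  have hA : ∀ q : MvPolynomial σ' ℂ, (MvPolynomial.aeval P' q).map
      (Algebra.adjoin ℂ S).val.toRingHom = MvPolynomial.aeval P q := by
    intro q
    have := MvPolynomial.comp_aeval_apply (f := P')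
      (Polynomial.mapAlgHom (Algebra.adjoin ℂ S).val) q
    refine Eq.trans this ?_
    congr 2
    funext i
    exact hP' i
  set b : MvPolynomial σ' ℂ → Algebra.adjoin ℂ S := fun q =>
    if MvPolynomial.aeval P' q = 0 then 1 else (MvPolynomial.aeval P' q).trailingCoeff with hb
  have hb0 : ∀ q, b q ≠ 0 := by
    intro q
    rw [hb]
    dsimp only
    split_ifs with h
    · exact one_ne_zero
    · exact Polynomial.trailingCoeff_nonzero_iff_nonzero.2 h
  obtain ⟨φ, hφ⟩ := exists_point (∏ q ∈ Q, b q) (Finset.prod_ne_zero_iff.2 fun q _ => hb0 q)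
  refine ⟨fun i => (P' i).map φ.toRingHom, ?_⟩
  have hB : ∀ q : MvPolynomial σ' ℂ, (MvPolynomial.aeval P' q).map φ.toRingHom =
      MvPolynomial.aeval (fun i => (P' i).map φ.toRingHom) q := by
    intro q
    exact MvPolynomial.comp_aeval_apply (f := P') (Polynomial.mapAlgHom φ) q
  constructor
  · intro q j h
    rw [← hB, Polynomial.X_pow_dvd_iff]
    intro i hi
    rw [← hA, Polynomial.X_pow_dvd_iff] at h
    have h1 := h i hi
    rw [Polynomial.coeff_map] at h1 ⊢
    have h2 : (MvPolynomial.aeval P' q).coeff i = 0 := Subtype.ext h1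
    rw [h2, map_zero]
  · intro q hq j h
    by_cases h0 : MvPolynomial.aeval P' q = 0
    · rw [← hA, h0, Polynomial.map_zero]
      exact dvd_zero _
    rw [← hB, Polynomial.X_pow_dvd_iff] at h
    rw [← hA, Polynomial.X_pow_dvd_iff]
    have h1 : φ (MvPolynomial.aeval P' q).trailingCoeff ≠ 0 := by
      intro h2
      apply hφ
      rw [map_prod]
      apply Finset.prod_eq_zero hq
      rw [hb]
      dsimp only
      rw [if_neg h0]
      exact h2
    have h2 : j ≤ (MvPolynomial.aeval P' q).natTrailingDegree := by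
      by_contra h3
      have := h _ (not_le.1 h3)
      rw [Polynomial.coeff_map] at this
      exact h1 this
    intro i hi
    rw [Polynomial.coeff_map, Polynomial.coeff_eq_zero_of_lt_natTrailingDegree (lt_of_lt_of_le hi h2),
      map_zero]

end specialise

/-- The order function and the powers of the maximal ideal. -/
theorem spec_mem_pow {K : Type} [Field K] (O : ValuationSubring K) (v : K → ℤ) (hv : IsOrd O v)
    (a : O) (j : ℕ) : a ∈ (maximalIdeal O) ^ j ↔ (a : K) = 0 ∨ (j : ℤ) ≤ v (a : K) := by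
  obtain ⟨t, ht0, ht1⟩ := hv.2.2
  have htO : t ∈ O := (hv.mem_iff ht0).2 (by omega)
  have hunit : ∀ b : O, (b : K) ≠ 0 → (b ∈ maximalIdeal O ↔ (1 : ℤ) ≤ v (b : K)) := by
    intro b hb
    have hb1 : 0 ≤ v (b : K) := (hv.mem_iff hb).1 b.2
    rw [mem_maximalIdeal, mem_nonunits_iff]
    constructor
    · intro h
      by_contra h1
      apply h
      have h2 : ((b : K))⁻¹ ∈ O := by
        rw [hv.mem_iff (inv_ne_zero hb), hv.map_inv hb]
        omega
      exact IsUnit.of_mul_eq_one ⟨_, h2⟩ (Subtype.ext (mul_inv_cancel₀ hb))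
    · intro h h1
      obtain ⟨c, hc⟩ := h1.exists_right_inv
      have h2 : (b : K) * (c : K) = 1 := congrArg Subtype.val hc
      have hc0 : (c : K) ≠ 0 := right_ne_zero_of_mul_eq_one h2
      have h3 := hv.map_mul hb hc0
      rw [h2, hv.map_one] at h3
      have h4 : 0 ≤ v (c : K) := (hv.mem_iff hc0).1 c.2
      omega
  have hspan : maximalIdeal O = Ideal.span {(⟨t, htO⟩ : O)} := by
    apply le_antisymm
    · intro b hb
      by_cases hb0 : (b : K) = 0
      · have : b = 0 := Subtype.ext hb0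
        rw [this]
        exact Ideal.zero_mem _
      · have h1 := (hunit b hb0).1 hb
        have h2 : (b : K) / t ∈ O := by
          rw [hv.mem_iff (div_ne_zero hb0 ht0), hv.map_div hb0 ht0]
          omega
        rw [Ideal.mem_span_singleton]
        exact ⟨⟨_, h2⟩, Subtype.ext (mul_div_cancel₀ (b : K) ht0).symm⟩
    · rw [Ideal.span_singleton_le_iff_mem]
      exact (hunit ⟨t, htO⟩ ht0).2 (by rw [ht1])
  rw [hspan, Ideal.span_singleton_pow, Ideal.mem_span_singleton]
  have htj : t ^ j ≠ 0 := pow_ne_zero _ ht0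
  have hvj : v (t ^ j) = j := by rw [hv.map_pow ht0, ht1, mul_one]
  constructor
  · rintro ⟨c, hc⟩
    by_cases hc0 : (c : K) = 0
    · left
      rw [hc]
      have : c = 0 := Subtype.ext hc0
      rw [this, mul_zero]
      rfl
    · right
      have h1 : (a : K) = t ^ j * (c : K) := by
        rw [hc]
        rfl
      rw [h1, hv.map_mul htj hc0, hvj]
      have := (hv.mem_iff hc0).1 c.2
      omega
  · rintro (h | h)
    · have : a = 0 := Subtype.ext h
      rw [this]
      exact dvd_zero _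
    · by_cases ha0 : (a : K) = 0
      · have : a = 0 := Subtype.ext ha0
        rw [this]
        exact dvd_zero _
      have h2 : (a : K) / t ^ j ∈ O := by
        rw [hv.mem_iff (div_ne_zero ha0 htj), hv.map_div ha0 htj, hvj]
        omega
      exact ⟨⟨_, h2⟩, Subtype.ext (mul_div_cancel₀ (a : K) htj).symm⟩

open Polynomial in
/-- Proof. Residue field of `O`, section by formal smoothness (`exists_formal`), specialisation of the
finitely many coefficients (`exists_special`). -/
theorem exists_spec {K : Type} [Field K] [Algebra ℂ K] (O : ValuationSubring K) (hO : IsPlace O)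
    (v : K → ℤ) (hv : IsOrd O v) (L : ℕ) {σ : Type} [Finite σ] (g : σ → K) (hg : ∀ i, g i ∈ O)
    (Q : Finset (MvPolynomial σ ℂ))
    (hQ : ∀ q ∈ Q, MvPolynomial.aeval g q ≠ 0 ∧ v (MvPolynomial.aeval g q) ≤ L) :
    ∃ H : σ → ℂ[X],
      (∀ (q : MvPolynomial σ ℂ) (s : ℕ), s ≤ L + 1 →
        (MvPolynomial.aeval g q = 0 ∨ (s : ℤ) ≤ v (MvPolynomial.aeval g q)) →
        X ^ s ∣ MvPolynomial.aeval H q) ∧
      ∀ q ∈ Q, ∀ s : ℕ, X ^ s ∣ MvPolynomial.aeval H q ↔ (s : ℤ) ≤ v (MvPolynomial.aeval g q) := by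
  have hdvr : IsDiscreteValuationRing O := hO.2
  let φ : ℂ →+* O := (algebraMap ℂ K).codRestrict O.toSubring hO.1
  let _ : Algebra ℂ O := φ.toAlgebra
  let ι : O →ₐ[ℂ] K := { O.subtype with commutes' := fun c => rfl }
  have hval : ∀ q : MvPolynomial σ ℂ,
      ((MvPolynomial.aeval (fun i => (⟨g i, hg i⟩ : O)) q : O) : K) = MvPolynomial.aeval g q := by
    intro q
    exact MvPolynomial.comp_aeval_apply (f := fun i => (⟨g i, hg i⟩ : O)) ι q
  obtain ⟨P, hP⟩ := exists_formal (fun i => (⟨g i, hg i⟩ : O)) (L + 1)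
  obtain ⟨H, h1, h2⟩ := exists_special P Q
  have h3 : ∀ (q : MvPolynomial σ ℂ) (s : ℕ), s ≤ L + 1 →
      ((MvPolynomial.aeval g q = 0 ∨ (s : ℤ) ≤ v (MvPolynomial.aeval g q)) ↔
        X ^ s ∣ MvPolynomial.aeval P q) := by
    intro q s hs
    rw [← hP q s hs, spec_mem_pow O v hv, hval]
  refine ⟨H, fun q s hs h => h1 q s ((h3 q s hs).1 h), fun q hq s => ?_⟩
  obtain ⟨hq0, hqL⟩ := hQ q hq
  constructor
  · intro h
    by_contra hs
    have h4 : 0 ≤ v (MvPolynomial.aeval g q) := by
      rw [← hv.mem_iff hq0, ← hval q]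
      exact Subtype.property _
    obtain ⟨n, hn⟩ := Int.eq_ofNat_of_zero_le h4
    have h5 : X ^ (n + 1) ∣ MvPolynomial.aeval H q :=
      (pow_dvd_pow _ (by omega)).trans h
    have h6 := (h3 q (n + 1) (by omega)).2 (h2 q hq (n + 1) h5)
    rcases h6 with h6 | h6
    · exact hq0 h6
    · push_cast at h6
      omega
  · intro h
    exact h1 q s ((h3 q s (by omega)).1 (Or.inr h))

end Pool.Agent.AbPencil
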