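import Pool.Agent.Lib_MP_1209e6_sp.N4
import Pool.Agent.Lib_MP_1209e6_sp.Defs
import Pool.Agent.Lib_MP_1209e6_mh.Mer
import Pool.Agent.Lib_MP_1209e6_mh.Pull
import Pool.Agent.Lib_MP_1209e6_mh.PlaceOf

/-! PIECE N5: a Zariski dense entire curve forces the orbifold base of each pencil to be special. -/

set_option autoImplicit false

namespace Pool.Agent.AbPencil
open Pool.Agent.GGL Pool.Agent.Campana Pool.Agent.SQ

private theorem Dv_eord (f : Ent) (a : ℂ) : Dv f.1 a = (eord a f : ℤ) :=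
  Dv_apply (Ent.diff f) a

/-- the place of a dense entire curve at a point, compared with the orders of meromorphic functions -/
private theorem mu_le {K : Type} [Field K] [Algebra ℂ K] (ψ : K →ₐ[ℂ] Mer) (x : K) (hx : x ≠ 0)
    (m : ℕ) (h : ∀ (O : ValuationSubring K) (v : K → ℤ), IsPlace O → IsOrd O v → 1 ≤ v x → (m : ℤ) ≤ v x)
    (a : ℂ) (hpos : 0 < mord a (ψ x)) : (m : ℤ) ≤ mord a (ψ x) := by
  have hψ : ∀ x : K, x ≠ 0 → ψ x ≠ 0 := fun x hx => (map_ne_zero_iff ψ ψ.toRingHom.injective).2 hx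
  obtain ⟨O, hO, e, v, he, hv, hev⟩ := place_of_val (K := K) (fun x => mord a (ψ x))
    (by
      intro x x' hx hx'
      simp only [map_mul]
      exact mord_mul a _ _ (hψ x hx) (hψ x' hx'))
    (by
      intro x x' hx hx' hxx'
      have h1 : ψ x + ψ x' ≠ 0 := by
        rw [← map_add]
        exact hψ _ hxx'
      have h2 := mord_add a _ _ (hψ x hx) (hψ x' hx') h1
      rw [← map_add] at h2
      exact h2)
    (by
      intro c hc
      show mord a (ψ (algebraMap ℂ K c)) = 0
      rw [AlgHom.commutes]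
      exact mord_const a c hc)
    ⟨x, hx, hpos.ne'⟩
  have h1 : mord a (ψ x) = e * v x := hev x hx
  rw [h1] at hpos ⊢
  have h2 : 1 ≤ v x := by
    by_contra hcon
    have : v x ≤ 0 := by omega
    nlinarith
  have h3 := h O v hO hv h2
  nlinarith

theorem sum_le_two_of_pullback {K : Type} [Field K] [Algebra ℂ K] (ψ : K →ₐ[ℂ] Mer) (T : K)
    (hT : Transcendental ℂ T) (μ : Option ℂ → ℕ) (h1 : ∀ b, 1 ≤ μ b)
    (h2 : ∀ (b : Option ℂ) (O : ValuationSubring K) (v : K → ℤ), IsPlace O → IsOrd O v →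
      1 ≤ v (par T b) → (μ b : ℤ) ≤ v (par T b)) (S : Finset (Option ℂ)) :
    ∑ b ∈ S, (1 - 1 / (μ b : ℝ)) ≤ 2 := by
  classical
  have hinj : Function.Injective ψ := ψ.toRingHom.injective
  have hne : ∀ x : K, x ≠ 0 → ψ x ≠ 0 := fun x hx => (map_ne_zero_iff ψ hinj).2 hx
  have hT0 : T ≠ 0 := by
    rintro rfl
    exact hT isAlgebraic_zero
  have hTc : ∀ c : ℂ, T ≠ algebraMap ℂ K c := by
    intro c hc
    apply hT
    rw [hc]
    exact isAlgebraic_algebraMap c
  obtain ⟨g, h, hg, hh, hgh⟩ := mer_exists (ψ T) (hne T hT0)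
  have hg' : algebraMap Ent Mer g ≠ 0 := by rwa [Ne, FaithfulSMul.algebraMap_eq_zero_iff]
  have hh' : algebraMap Ent Mer h ≠ 0 := by rwa [Ne, FaithfulSMul.algebraMap_eq_zero_iff]
  have hcm : ∀ c : ℂ, algebraMap Ent Mer (algebraMap ℂ Ent c) = algebraMap ℂ Mer c := fun c =>
    (IsScalarTower.algebraMap_apply ℂ Ent Mer c).symm
  -- `ψ (T - c)`
  have hsub : ∀ c : ℂ, ψ (T - algebraMap ℂ K c) =
      algebraMap Ent Mer (g - algebraMap ℂ Ent c * h) / algebraMap Ent Mer h := by
    intro c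
    rw [map_sub, AlgHom.commutes, hgh, map_sub, map_mul, hcm]
    field_simp
  have hsubne : ∀ c : ℂ, g - algebraMap ℂ Ent c * h ≠ 0 := by
    intro c hc
    have h3 := hsub c
    rw [hc, map_zero, zero_div] at h3
    exact hne _ (sub_ne_zero.2 (hTc c)) h3
  have hval : ∀ (c z : ℂ), (g - algebraMap ℂ Ent c * h).1 z = g.1 z - c * h.1 z := fun c z => rfl
  have hFb : ∀ c : ℂ, Fb h.1 g.1 (some c) = (g - algebraMap ℂ Ent c * h).1 := fun c => rfl
  have hli : LinearIndependent ℂ ![h.1, g.1] := by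
    rw [LinearIndependent.pair_iff]
    intro s t hst
    by_cases ht : t = 0
    · refine ⟨?_, ht⟩
      by_contra hs
      apply hh
      apply Ent.ext'
      intro z
      have h3 := congrFun hst z
      simp only [Pi.add_apply, Pi.smul_apply, smul_eq_mul, Pi.zero_apply, ht, zero_mul, add_zero] at h3
      exact (mul_eq_zero.1 h3).resolve_left hs
    · exfalso
      apply hsubne (-s / t)
      apply Ent.ext'
      intro z
      rw [hval]
      have h3 := congrFun hst z
      simp only [Pi.add_apply, Pi.smul_apply, smul_eq_mul, Pi.zero_apply] at h3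
      show g.1 z - -s / t * h.1 z = 0
      field_simp
      linear_combination h3
  refine ram_bound_entire h.1 g.1 (Ent.diff h) (Ent.diff g) hli μ h1 ?_ S
  intro b a hpos
  have hgne : ∃ z, g.1 z ≠ 0 := (Ent.ne_zero_iff g).1 hg
  have hhne : ∃ z, h.1 z ≠ 0 := (Ent.ne_zero_iff h).1 hh
  have key : Dv (Fb h.1 g.1 b) a - min (Dv h.1 a) (Dv g.1 a) = mord a (ψ (par T b)) := by
    cases b with
    | none =>
      have h3 : ψ (par T none) = algebraMap Ent Mer h / algebraMap Ent Mer g := by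
        show ψ (T⁻¹) = _
        rw [map_inv₀, hgh, inv_div]
      rw [h3, mord_div a h g hh hg]
      have h4 : Fb h.1 g.1 none = h.1 := rfl
      rw [h4] at hpos ⊢
      rw [Dv_eord, Dv_eord] at hpos ⊢
      rcases le_total (eord a h : ℤ) (eord a g : ℤ) with h5 | h5
      · rw [min_eq_left h5] at hpos
        omega
      · rw [min_eq_right h5]
    | some c =>
      have h3 : ψ (par T (some c)) =
          algebraMap Ent Mer (g - algebraMap ℂ Ent c * h) / algebraMap Ent Mer h := hsub c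
      rw [h3, mord_div a _ h (hsubne c) hh]
      have h4 := Dv_comb (Ent.diff (g - algebraMap ℂ Ent c * h)) (Ent.diff h) (Ent.diff g)
        ((Ent.ne_zero_iff _).1 (hsubne c)) hhne hgne 1 c (fun z => by rw [hval]; ring) a
      rw [hFb] at hpos ⊢
      rw [Dv_eord, Dv_eord, Dv_eord] at hpos ⊢
      rw [Dv_eord, Dv_eord, Dv_eord] at h4
      rcases le_total (eord a h : ℤ) (eord a g : ℤ) with h5 | h5
      · rw [min_eq_left h5]
      · rw [min_eq_right h5] at hpos ⊢
        rcases min_le_iff.1 h4 with h6 | h6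
        · omega
        · omega
  rw [key] at hpos ⊢
  have hpar : par T b ≠ 0 := by
    cases b with
    | none => exact inv_ne_zero hT0
    | some c => exact sub_ne_zero.2 (hTc c)
  exact mu_le ψ (par T b) hpar (μ b) (h2 b) a hpos

/-- A Zariski dense entire curve on `X` forces `∑ (1 - 1 / m_b) ≤ 2` for each pencil `T` on `X`
(`m_b` at most the multiplicities of `T - b` at all places of the function field over `b`). -/
theorem sum_le_two_of_brody {m : ℕ} (P : Ideal (MvPolynomial (Fin (m + 1)) ℂ)) [P.IsPrime]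
    (hP : IsVariety P) (hB : BrodySpecial P) (T : FunField P) (hT : Transcendental ℂ T)
    (μ : Option ℂ → ℕ) (h1 : ∀ b, 1 ≤ μ b)
    (h2 : ∀ (b : Option ℂ) (O : ValuationSubring (FunField P)) (v : FunField P → ℤ), IsPlace O →
      IsOrd O v → 1 ≤ v (par T b) → (μ b : ℤ) ≤ v (par T b)) (S : Finset (Option ℂ)) :
    ∑ b ∈ S, (1 - 1 / (μ b : ℝ)) ≤ 2 := by
  obtain ⟨f, hf, -, hfP, hdense⟩ := hB
  obtain ⟨j₀, hj₀⟩ := hP.2.2
  obtain ⟨ψ, -⟩ := exists_pullback P j₀ hj₀ f hf hfP hdense
  exact sum_le_two_of_pullback ψ T hT μ h1 h2 S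

end Pool.Agent.AbPencil
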