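import Pool.Agent.Lib_MP_1209e6_sp.Defs

/-! PIECE H: Hensel's lemma for holomorphic germs. -/

set_option autoImplicit false

open Filter Topology

namespace Pool.Agent.AbPencil

open Polynomial

open scoped ContDiff in
/-- Implicit function theorem for two complex variables. -/
private theorem analytic_implicit_H (f : ℂ × ℂ → ℂ) (hf : AnalyticAt ℂ f (0, 0))
    (h0 : f (0, 0) = 0) (hd : deriv (fun w => f (0, w)) 0 ≠ 0) :
    ∃ ψ : ℂ → ℂ, AnalyticAt ℂ ψ 0 ∧ ψ 0 = 0 ∧ ∀ᶠ z in 𝓝 0, f (z, ψ z) = 0 := by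
  have hc : ContDiffAt ℂ ω f (0, 0) := hf.contDiffAt
  have hdf : HasFDerivAt f (fderiv ℂ f (0, 0)) (0, 0) := hf.differentiableAt.hasFDerivAt
  have h1 : HasDerivAt (fun w : ℂ => f (0, w)) (fderiv ℂ f (0, 0) (0, 1)) 0 := by
    have h2 : HasFDerivAt (fun w : ℂ => ((0 : ℂ), w)) (ContinuousLinearMap.inr ℂ ℂ ℂ) 0 :=
      hasFDerivAt_prodMk_right 0 0
    have h3 := (HasFDerivAt.comp (0 : ℂ) hdf h2).hasDerivAt
    have h4 : (fderiv ℂ f (0, 0) ∘SL ContinuousLinearMap.inr ℂ ℂ ℂ) 1 =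
      fderiv ℂ f (0, 0) (0, 1) := rfl
    rw [← h4]
    exact h3
  rw [h1.deriv] at hd
  have hinv : (fderiv ℂ f (0, 0) ∘L ContinuousLinearMap.inr ℂ ℂ ℂ).IsInvertible := by
    refine ⟨ContinuousLinearEquiv.unitsEquivAut ℂ (Units.mk0 _ hd), ?_⟩
    ext
    simp [ContinuousLinearEquiv.unitsEquivAut]
  have hω : (ω : WithTop ℕ∞) ≠ 0 := by simp
  refine ⟨hc.implicitFunction hω hinv, ?_, ?_, ?_⟩
  · exact (hc.contDiffAt_implicitFunction hω hinv).analyticAt
  · exact hc.implicitFunction_apply_self hω hinv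
  · have := hc.eventually_apply_implicitFunction hω hinv
    filter_upwards [this] with z hz
    rw [hz, h0]

/-- the value of a polynomial over `ℂ[z]` at the point `(z, y)` -/
private noncomputable def ev2_H (z y : ℂ) : Polynomial ℂ[X] →+* ℂ :=
  Polynomial.eval₂RingHom (Polynomial.evalRingHom z) y

private theorem ev2_H_C (p : ℂ[X]) (z y : ℂ) : ev2_H z y (C p) = p.eval z := by
  simp [ev2_H]

private theorem ev2_H_X (z y : ℂ) : ev2_H z y X = y := by
  simp [ev2_H]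

private theorem analytic_ev2_H (F : Polynomial ℂ[X]) (p : ℂ × ℂ) :
    AnalyticAt ℂ (fun p : ℂ × ℂ => ev2_H p.1 p.2 F) p := by
  induction F using Polynomial.induction_on' with
  | add F G hF hG =>
    have h : (fun p : ℂ × ℂ => ev2_H p.1 p.2 (F + G)) =
        fun p : ℂ × ℂ => ev2_H p.1 p.2 F + ev2_H p.1 p.2 G := by
      funext p
      exact map_add _ _ _
    rw [h]
    exact hF.add hG
  | monomial n a =>
    have h : (fun p : ℂ × ℂ => ev2_H p.1 p.2 (Polynomial.monomial n a)) =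
        fun p : ℂ × ℂ => a.eval p.1 * p.2 ^ n := by
      funext p
      rw [← Polynomial.C_mul_X_pow_eq_monomial, map_mul, map_pow, ev2_H_C, ev2_H_X]
    rw [h]
    have h1 : AnalyticAt ℂ (fun p : ℂ × ℂ => a.eval p.1) p := by
      have := (AnalyticAt.aeval_polynomial (𝕜 := ℂ) (analyticAt_fst (p := p)) a)
      simpa using this
    exact h1.mul (analyticAt_snd.pow n)

private theorem analytic_eval_H (a : ℂ[X]) (z : ℂ) : AnalyticAt ℂ (fun z : ℂ => a.eval z) z := by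
  have := (AnalyticAt.aeval_polynomial (𝕜 := ℂ) (analyticAt_id (z := z)) a)
  simpa using this

/-- evaluation of a polynomial with constant coefficients -/
private theorem ev2_H_eval (f : Polynomial ℂ[X]) (x : Polynomial ℂ[X]) (z y : ℂ) :
    ev2_H z y ((f.map C).eval x) = (f.map (evalRingHom z)).eval (ev2_H z y x) := by
  rw [eval_map, eval_map, hom_eval₂]
  congr 1
  ext p
  · simp [ev2_H]
  · simp [ev2_H]

/-- An approximate root of `f(z, Y)` is close to a holomorphic root. Proof. Let `c₀ ≤ c` be the exact order of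
`f'(H)` (`X^c₀ ∣`, `¬ X^(c₀+1) ∣`; it is not zero). Taylor expansion:
`f(z, H + W') = f(H) + f'(H) W' + W'^2 R(z, W')` with a polynomial `R` (for example
`Polynomial.evalSubFactor`/`Polynomial.binomExpansion` in `ℂ[X][Y]`). Put `W' = z^(c₀+1) W` and divide by
`z^(2c₀+1)`: `Ψ(z, W) = z^(L - 2c₀) a(z) + b(z) W + z W^2 R(z, z^(c₀+1) W)` with polynomials `a`, `b`,
`f(H) = X^(L+1) a`, `f'(H) = X^c₀ b`, `b(0) ≠ 0`; `L - 2c₀ ≥ 1`. So `Ψ(0, 0) = 0` and `∂Ψ/∂W (0, 0) = b(0) ≠ 0`: by the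
implicit function theorem there is a holomorphic `W` with `W(0) = 0` and `Ψ(z, W(z)) = 0` near `0` (for example
apply the inverse function theorem to the map `(z, W) ↦ (z, Ψ(z, W))` of `ℂ × ℂ`, whose inverse is analytic; or
`HasStrictFDerivAt.implicitFunction` and differentiability on a neighbourhood). Finally
`W' (b z^c₀ + W' R) = - z^(L+1) a` with `W' = z^(c₀+1) W`, so `W' = z^(L+1-c₀) · w₁` with
`w₁ = - a / (b + z W R)` holomorphic at `0`, and `z^(L+1-c₀) = z^(L+1-c) z^(c-c₀)`. -/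
theorem hensel (f : Polynomial ℂ[X]) (H : ℂ[X]) (c L : ℕ) (hL : 2 * c + 1 ≤ L)
    (h1 : X ^ (L + 1) ∣ f.eval H) (h2 : ¬ X ^ (c + 1) ∣ (derivative f).eval H) :
    ∃ w : ℂ → ℂ, AnalyticAt ℂ w 0 ∧
      ∀ᶠ z in 𝓝 (0 : ℂ), (f.map (evalRingHom z)).eval (H.eval z + z ^ (L + 1 - c) * w z) = 0 := by
  classical
  -- the exact order of the derivative
  obtain ⟨c₀, hc₀, ⟨b, hb⟩, h3⟩ : ∃ c₀, c₀ ≤ c ∧ X ^ c₀ ∣ (derivative f).eval H ∧
      ¬ X ^ (c₀ + 1) ∣ (derivative f).eval H := by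
    have hex : ∃ n, ¬ X ^ (n + 1) ∣ (derivative f).eval H := ⟨c, h2⟩
    refine ⟨Nat.find hex, Nat.find_min' hex h2, ?_, Nat.find_spec hex⟩
    rcases Nat.eq_zero_or_pos (Nat.find hex) with h | h
    · rw [h, pow_zero]
      exact one_dvd _
    · have h4 := Nat.find_min hex (Nat.sub_lt h one_pos)
      have h5 : Nat.find hex - 1 + 1 = Nat.find hex := Nat.sub_add_cancel h
      rw [not_not, h5] at h4
      exact h4
  obtain ⟨a, ha⟩ := h1
  have hb0 : b.eval 0 ≠ 0 := by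
    intro h
    apply h3
    have h4 : X ∣ b := by
      rw [X_dvd_iff, coeff_zero_eq_eval_zero]
      exact h
    obtain ⟨b', hb'⟩ := h4
    exact ⟨b', by rw [hb, hb', pow_succ]; ring⟩
  -- the Taylor expansion
  obtain ⟨R, hR⟩ := binomExpansion (f.map C) (C H) (C (X ^ (c₀ + 1)) * X : Polynomial ℂ[X])
  have e1 : (f.map C).eval (C H) = (C (X ^ (L + 1) * a) : Polynomial ℂ[X]) := by
    rw [eval_map, eval₂_hom, ha]
  have e2 : (derivative (f.map C)).eval (C H) = (C (X ^ c₀ * b) : Polynomial ℂ[X]) := by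
    rw [derivative_map, eval_map, eval₂_hom, hb]
  rw [e1, e2] at hR
  obtain ⟨m, hm⟩ : ∃ m, L = 2 * c₀ + (m + 1) := ⟨L - 2 * c₀ - 1, by omega⟩
  have hRv : ∀ z y : ℂ, (f.map (evalRingHom z)).eval (H.eval z + z ^ (c₀ + 1) * y) =
      z ^ (2 * c₀ + 1) * (z ^ (m + 1) * a.eval z + b.eval z * y + z * y ^ 2 * ev2_H z y R) := by
    intro z y
    have h5 := congrArg (ev2_H z y) hR
    rw [ev2_H_eval] at h5
    simp only [map_add, map_mul, map_pow, ev2_H_C, ev2_H_X, eval_X] at h5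
    rw [h5, hm]
    ring
  -- the implicit function
  let P : Polynomial ℂ[X] := C (X ^ (m + 1) * a) + C b * X + C X * X ^ 2 * R
  have hP : ∀ z y : ℂ, ev2_H z y P =
      z ^ (m + 1) * a.eval z + b.eval z * y + z * y ^ 2 * ev2_H z y R := by
    intro z y
    simp only [P, map_add, map_mul, map_pow, ev2_H_C, ev2_H_X, eval_X]
  have hP0 : ∀ y : ℂ, ev2_H 0 y P = b.eval 0 * y := by
    intro y
    rw [hP]
    simp
  have hder : deriv (fun w : ℂ => ev2_H 0 w P) 0 ≠ 0 := by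
    have h6 : (fun w : ℂ => ev2_H 0 w P) = fun w => b.eval 0 * w := funext hP0
    rw [h6]
    have h7 : HasDerivAt (fun w : ℂ => b.eval 0 * w) (b.eval 0 * 1) 0 :=
      (hasDerivAt_id (0 : ℂ)).const_mul _
    rw [h7.deriv, mul_one]
    exact hb0
  obtain ⟨ψ, hψ, hψ0, hψe⟩ := analytic_implicit_H (fun p => ev2_H p.1 p.2 P)
    (analytic_ev2_H P _) (by rw [hP0]; simp) hder
  -- the denominator
  have hRa : AnalyticAt ℂ (fun z => ev2_H z (ψ z) R) 0 := by
    have h8 : AnalyticAt ℂ (fun z : ℂ => (z, ψ z)) 0 := analyticAt_id.prod hψ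
    have h9 : AnalyticAt ℂ (fun p : ℂ × ℂ => ev2_H p.1 p.2 R) ((fun z : ℂ => (z, ψ z)) 0) :=
      analytic_ev2_H R _
    exact AnalyticAt.fun_comp (g := fun p : ℂ × ℂ => ev2_H p.1 p.2 R)
      (f := fun z : ℂ => (z, ψ z)) h9 h8
  have hD : AnalyticAt ℂ (fun z => b.eval z + z * ψ z * ev2_H z (ψ z) R) 0 :=
    (analytic_eval_H b 0).add ((analyticAt_id.mul hψ).mul hRa)
  have hD0 : b.eval 0 + 0 * ψ 0 * ev2_H 0 (ψ 0) R ≠ 0 := by
    rw [zero_mul, zero_mul, add_zero]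
    exact hb0
  have hDe := hD.continuousAt.eventually_ne hD0
  refine ⟨fun z => z ^ (c - c₀) * (-(a.eval z) / (b.eval z + z * ψ z * ev2_H z (ψ z) R)),
    (analyticAt_id.pow _).mul ((analytic_eval_H a 0).neg.div hD hD0), ?_⟩
  filter_upwards [hψe, hDe] with z hz hDz
  have hz' : ψ z * (b.eval z + z * ψ z * ev2_H z (ψ z) R) = -(z ^ (m + 1) * a.eval z) := by
    have h9 : ev2_H z (ψ z) P = 0 := hz
    rw [hP] at h9
    linear_combination h9
  have hψz : ψ z = z ^ (m + 1) * (-(a.eval z) / (b.eval z + z * ψ z * ev2_H z (ψ z) R)) := by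
    rw [mul_div_assoc', eq_div_iff hDz, hz']
    ring
  have hfin : z ^ (L + 1 - c) * (z ^ (c - c₀) *
      (-(a.eval z) / (b.eval z + z * ψ z * ev2_H z (ψ z) R))) = z ^ (c₀ + 1) * ψ z := by
    conv_rhs => rw [hψz]
    rw [← mul_assoc, ← mul_assoc, ← pow_add, ← pow_add]
    congr 2
    omega
  have hgoal := hRv z (ψ z)
  rw [← hP, show ev2_H z (ψ z) P = 0 from hz, mul_zero] at hgoal
  change (f.map (evalRingHom z)).eval (H.eval z + z ^ (L + 1 - c) * (z ^ (c - c₀) *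
      (-(a.eval z) / (b.eval z + z * ψ z * ev2_H z (ψ z) R)))) = 0
  rw [hfin]
  exact hgoal

end Pool.Agent.AbPencil
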