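import Pool.Agent.Lib_MP_1209e6_sp.S
import Pool.Agent.Lib_MP_1209e6_sp.H

/-! PIECE A1: holomorphic arcs in the hypersurface `f(y, η) = 0`. -/

set_option autoImplicit false

open Filter Topology

namespace Pool.Agent.AbPencil

open Pool.Agent.Campana Polynomial

/-- A polynomial in the variables `some i` with coefficients in polynomials, as a polynomial in `Option`
variables. -/
private noncomputable def toOpt {d : ℕ} (q : Polynomial (MvPolynomial (Fin (d + 1)) ℂ)) :
    MvPolynomial (Option (Fin (d + 1))) ℂ :=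
  q.eval₂ (MvPolynomial.rename (R := ℂ) (some : Fin (d + 1) → Option (Fin (d + 1)))).toRingHom
    (MvPolynomial.X none)

private theorem aeval_toOpt {d : ℕ} {B : Type} [CommRing B] [Algebra ℂ B]
    (G : Option (Fin (d + 1)) → B) (q : Polynomial (MvPolynomial (Fin (d + 1)) ℂ)) :
    MvPolynomial.aeval G (toOpt q) =
      q.eval₂ (MvPolynomial.aeval fun i => G (some i)).toRingHom (G none) := by
  unfold toOpt
  have h1 := Polynomial.hom_eval₂ q
    (MvPolynomial.rename (R := ℂ) (some : Fin (d + 1) → Option (Fin (d + 1)))).toRingHom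
    (MvPolynomial.aeval (R := ℂ) G).toRingHom (MvPolynomial.X none)
  have h2 : (MvPolynomial.aeval (R := ℂ) G).toRingHom.comp
      (MvPolynomial.rename (R := ℂ) (some : Fin (d + 1) → Option (Fin (d + 1)))).toRingHom =
      (MvPolynomial.aeval (R := ℂ) fun i => G (some i)).toRingHom := by
    ext x
    · simp
    · simp
  have h3 : (MvPolynomial.aeval (R := ℂ) G).toRingHom (MvPolynomial.X none) = G none := by
    simp
  rw [h2, h3] at h1
  exact h1

/-- A polynomial in two variables evaluated at holomorphic germs is holomorphic. -/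
private theorem analyticAt_eval_map (P : Polynomial ℂ[X]) (δ : ℂ → ℂ) (hδ : AnalyticAt ℂ δ 0) :
    AnalyticAt ℂ (fun z => (P.map (evalRingHom z)).eval (δ z)) 0 := by
  have hpol : ∀ a : ℂ[X], AnalyticAt ℂ (fun z => a.eval z) 0 := by
    intro a
    exact a.differentiable.analyticAt 0
  induction P using Polynomial.induction_on' with
  | add p q hp hq =>
    have : (fun z => ((p + q).map (evalRingHom z)).eval (δ z)) =
        fun z => (p.map (evalRingHom z)).eval (δ z) + (q.map (evalRingHom z)).eval (δ z) := by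
      funext z
      rw [Polynomial.map_add, eval_add]
    rw [this]
    exact hp.add hq
  | monomial n a =>
    have : (fun z => ((monomial n a).map (evalRingHom z)).eval (δ z)) =
        fun z => a.eval z * δ z ^ n := by
      funext z
      rw [map_monomial, eval_monomial]
      rfl
    rw [this]
    exact (hpol a).mul (hδ.pow n)

/-- Given a place with `y i, η ∈ O` there are polynomials `Y i ∈ ℂ[X]` and a holomorphic germ `e` such that
`(Y, e)` is a point of `f = 0`, the orders of the given polynomials `E ∈ 𝓔` are preserved, and orders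
(up to `L₀`) do not decrease for any polynomial. Proof. `MvPolynomial (Option (Fin (d+1))) ℂ ≃ (MvPolynomial
(Fin (d+1)) ℂ)[X]` (`MvPolynomial.optionEquivLeft`). Let `c = v (f'(η))` (a natural number, `h.sep`), `L ≥ 2c + 1 +
L₀ + ∑_{E} v(E(y))`. `exists_spec` for `g = (y, η) : Option (Fin (d+1)) → K` and `Q` = `f'` and the `E ∈ 𝓔`: `H`; `Y i = H (some
i)`. `hensel` for `F = f.map (aeval Y) ∈ ℂ[X][X]` and `H none`, `c`, `L`: `e z = (H none)(z) + z^(L+1-c) w z`. For the last
claim: `q(Y, e) = q(Y, H none) + (e - H none) * (polynomial in Y, e, H none)`, both terms are divisible by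
`z^s` because `s ≤ L₀ ≤ L + 1 - c`. -/
theorem exists_arc₀ {K : Type} [Field K] [Algebra ℂ K] (O : ValuationSubring K) (hO : IsPlace O)
    (v : K → ℤ) (hv : IsOrd O v) {d : ℕ} (y : Fin (d + 1) → K) (η : K)
    (f : Polynomial (MvPolynomial (Fin (d + 1)) ℂ)) (h : Pres y η f) (hy : ∀ i, y i ∈ O) (hη : η ∈ O)
    (𝓔 : Finset (MvPolynomial (Fin (d + 1)) ℂ)) (h𝓔 : ∀ E ∈ 𝓔, E ≠ 0) (L₀ : ℕ) :
    ∃ (Y : Fin (d + 1) → ℂ[X]) (e : ℂ → ℂ), AnalyticAt ℂ e 0 ∧
      (∀ᶠ z in 𝓝 (0 : ℂ), f.eval₂ (MvPolynomial.aeval fun i => (Y i).eval z).toRingHom (e z) = 0) ∧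
      (∀ E ∈ 𝓔, ∀ s : ℕ, X ^ s ∣ MvPolynomial.aeval Y E ↔ (s : ℤ) ≤ v (MvPolynomial.aeval y E)) ∧
      ∀ (q : Polynomial (MvPolynomial (Fin (d + 1)) ℂ)) (s : ℕ), s ≤ L₀ →
        (q.eval₂ (MvPolynomial.aeval y).toRingHom η = 0 ∨
          (s : ℤ) ≤ v (q.eval₂ (MvPolynomial.aeval y).toRingHom η)) →
        ∃ w : ℂ → ℂ, AnalyticAt ℂ w 0 ∧ ∀ᶠ z in 𝓝 (0 : ℂ),
          q.eval₂ (MvPolynomial.aeval fun i => (Y i).eval z).toRingHom (e z) = z ^ s * w z := by
  classical
  -- the point `(y, η)`
  set g : Option (Fin (d + 1)) → K := fun o => o.elim η y with hg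
  have hgO : ∀ o, g o ∈ O := by
    intro o
    cases o with
    | none => exact hη
    | some i => exact hy i
  have hge : ∀ q : Polynomial (MvPolynomial (Fin (d + 1)) ℂ), MvPolynomial.aeval g (toOpt q) =
      q.eval₂ (MvPolynomial.aeval y).toRingHom η := fun q => aeval_toOpt g q
  -- values of polynomials lie in `O`
  have hval : ∀ q : MvPolynomial (Option (Fin (d + 1))) ℂ, MvPolynomial.aeval g q ∈ O := by
    intro q
    induction q using MvPolynomial.induction_on with
    | C a =>
      rw [MvPolynomial.aeval_C]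
      exact hO.1 a
    | add p q hp hq =>
      rw [map_add]
      exact O.add_mem _ _ hp hq
    | mul_X p i hp =>
      rw [map_mul, MvPolynomial.aeval_X]
      exact O.mul_mem _ _ hp (hgO i)
  -- the order of the derivative
  have hD0 : MvPolynomial.aeval g (toOpt (derivative f)) ≠ 0 := by
    rw [hge]
    exact h.sep
  obtain ⟨c, hc⟩ := Int.eq_ofNat_of_zero_le ((hv.mem_iff hD0).1 (hval _))
  -- the orders of the elements of `𝓔`
  have hE0 : ∀ E ∈ 𝓔, MvPolynomial.aeval g (MvPolynomial.rename some E) ≠ 0 := by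
    intro E hE
    rw [MvPolynomial.aeval_rename]
    intro h0
    have h1 : MvPolynomial.aeval y E = 0 := h0
    exact h𝓔 E hE (h.ind.eq_zero_of_aeval_eq_zero E h1)
  set B : ℕ := ∑ E ∈ 𝓔, (v (MvPolynomial.aeval g (MvPolynomial.rename some E))).toNat with hB
  set L : ℕ := 2 * c + 1 + L₀ + B with hL
  obtain ⟨H, hH1, hH2⟩ := exists_spec O hO v hv L g hgO
    (insert (toOpt (derivative f)) (𝓔.image (MvPolynomial.rename some))) (by
      intro q hq
      rw [Finset.mem_insert, Finset.mem_image] at hq
      rcases hq with rfl | ⟨E, hE, rfl⟩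
      · refine ⟨hD0, ?_⟩
        rw [hc]
        omega
      · refine ⟨hE0 E hE, ?_⟩
        have h1 : (v (MvPolynomial.aeval g (MvPolynomial.rename some E))).toNat ≤ B :=
          Finset.single_le_sum
            (f := fun E => (v (MvPolynomial.aeval g (MvPolynomial.rename some E))).toNat)
            (fun _ _ => Nat.zero_le _) hE
        have h2 := Int.self_le_toNat (v (MvPolynomial.aeval g (MvPolynomial.rename some E)))
        omega)
  set Y : Fin (d + 1) → ℂ[X] := fun i => H (some i) with hY
  set h₀ : ℂ[X] := H none with hh₀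
  -- the polynomial `f` over `ℂ[X]`
  have hmap : ∀ q : Polynomial (MvPolynomial (Fin (d + 1)) ℂ),
      (q.map (MvPolynomial.aeval (R := ℂ) Y).toRingHom).eval h₀ = MvPolynomial.aeval H (toOpt q) := by
    intro q
    rw [eval_map, aeval_toOpt]
  have hF1 : X ^ (L + 1) ∣ (f.map (MvPolynomial.aeval (R := ℂ) Y).toRingHom).eval h₀ := by
    rw [hmap]
    refine hH1 _ _ le_rfl (Or.inl ?_)
    rw [hge]
    exact h.root
  have hF2 : ¬ X ^ (c + 1) ∣
      (derivative (f.map (MvPolynomial.aeval (R := ℂ) Y).toRingHom)).eval h₀ := by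
    rw [derivative_map, hmap, hH2 _ (Finset.mem_insert_self _ _), hc]
    omega
  obtain ⟨w, hw, hwz⟩ := hensel (f.map (MvPolynomial.aeval (R := ℂ) Y).toRingHom) h₀ c L (by omega)
    hF1 hF2
  -- specialisation at `z`
  have hspec : ∀ (q : Polynomial (MvPolynomial (Fin (d + 1)) ℂ)) (z t : ℂ),
      q.eval₂ (MvPolynomial.aeval fun i => (Y i).eval z).toRingHom t =
        ((q.map (MvPolynomial.aeval (R := ℂ) Y).toRingHom).map (evalRingHom z)).eval t := by
    intro q z t
    rw [Polynomial.map_map, eval_map]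
    congr 1
    ext x
    · simp
    · simp
  have hpow : AnalyticAt ℂ (fun z : ℂ => z ^ (L + 1 - c) * w z) 0 :=
    (analyticAt_id.pow _).mul hw
  have hh0an : AnalyticAt ℂ (fun z : ℂ => h₀.eval z) 0 := h₀.differentiable.analyticAt 0
  refine ⟨Y, fun z => h₀.eval z + z ^ (L + 1 - c) * w z, hh0an.add hpow, ?_, ?_, ?_⟩
  · filter_upwards [hwz] with z hz
    rw [hspec]
    exact hz
  · intro E hE s
    have h1 := hH2 (MvPolynomial.rename some E)
      (Finset.mem_insert_of_mem (Finset.mem_image_of_mem _ hE)) s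
    rw [MvPolynomial.aeval_rename, MvPolynomial.aeval_rename] at h1
    exact h1
  · intro q s hs hq
    set Q : Polynomial ℂ[X] := q.map (MvPolynomial.aeval (R := ℂ) Y).toRingHom with hQ
    have h1 : X ^ s ∣ Q.eval h₀ := by
      rw [hQ, hmap]
      refine hH1 _ _ (by omega) ?_
      rw [hge]
      exact hq
    obtain ⟨A, hA⟩ := h1
    set T : Polynomial ℂ[X] := taylor h₀ Q with hT
    have hT1 : T = divX T * X + C (Q.eval h₀) := by
      conv_lhs => rw [← divX_mul_X_add T]
      rw [hT, taylor_coeff_zero]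
    refine ⟨fun z => A.eval z + z ^ (L + 1 - c - s) * w z *
      ((divX T).map (evalRingHom z)).eval (z ^ (L + 1 - c) * w z), ?_, ?_⟩
    · exact (A.differentiable.analyticAt 0).add
        (((analyticAt_id.pow _).mul hw).mul (analyticAt_eval_map _ _ hpow))
    · refine Filter.Eventually.of_forall fun z => ?_
      rw [hspec]
      have h2 : (Q.map (evalRingHom z)).eval (h₀.eval z + z ^ (L + 1 - c) * w z) =
          (T.map (evalRingHom z)).eval (z ^ (L + 1 - c) * w z) := by
        rw [hT, map_taylor, taylor_eval]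
        congr 1
        simp [add_comm]
      change (Q.map (evalRingHom z)).eval (h₀.eval z + z ^ (L + 1 - c) * w z) = _
      have h5 : (T.map (evalRingHom z)).eval (z ^ (L + 1 - c) * w z) =
          ((divX T).map (evalRingHom z)).eval (z ^ (L + 1 - c) * w z) * (z ^ (L + 1 - c) * w z) +
            (Q.eval h₀).eval z := by
        conv_lhs => rw [hT1]
        rw [Polynomial.map_add, Polynomial.map_mul, map_X, map_C, eval_add, eval_mul, eval_X, eval_C,
          coe_evalRingHom]
      rw [h2, h5, hA]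
      beta_reduce
      have h3 : L + 1 - c = s + (L + 1 - c - s) := by omega
      have h4 : z ^ (L + 1 - c) = z ^ s * z ^ (L + 1 - c - s) := by
        rw [← pow_add, ← h3]
      generalize ((divX T).map (evalRingHom z)).eval (z ^ (L + 1 - c) * w z) = R
      rw [eval_mul, eval_pow, eval_X, h4]
      ring

end Pool.Agent.AbPencil
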