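import Pool.Agent.Lib_MP_1209e6_sp.A1
import Pool.Agent.Lib_MP_1209e6_sp.P

/-! PIECE A2: holomorphic arcs from places. -/

set_option autoImplicit false

open Filter Topology

namespace Pool.Agent.AbPencil

open Pool.Agent.Campana

/-- substitution of fractions with denominator `S` in a polynomial, cleared -/
private theorem A2_subst {d N : ℕ} (S : MvPolynomial (Fin (d + 1)) ℂ)
    (Q : Fin (N + 1) → Polynomial (MvPolynomial (Fin (d + 1)) ℂ))
    (p : MvPolynomial (Fin 1 ⊕ Fin (N + 1)) ℂ) :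
    ∃ (R : Polynomial (MvPolynomial (Fin (d + 1)) ℂ)) (k : ℕ),
      ∀ {A : Type} [CommRing A] [Algebra ℂ A] (ρ : Fin (d + 1) → A) (e : A) (w : Fin (N + 1) → A),
        (∀ l, MvPolynomial.aeval ρ S * w l = (Q l).eval₂ (MvPolynomial.aeval ρ).toRingHom e) →
        R.eval₂ (MvPolynomial.aeval ρ).toRingHom e =
          MvPolynomial.aeval ρ S ^ k * MvPolynomial.aeval (Sum.elim (fun _ => ρ 0) w) p := by
  induction p using MvPolynomial.induction_on with
  | C a =>
    refine ⟨Polynomial.C (MvPolynomial.C a), 0, ?_⟩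
    intro A _ _ ρ e w hw
    simp
  | add p q hp hq =>
    obtain ⟨R₁, k₁, h₁⟩ := hp
    obtain ⟨R₂, k₂, h₂⟩ := hq
    refine ⟨R₁ * Polynomial.C (S ^ k₂) + R₂ * Polynomial.C (S ^ k₁), k₁ + k₂, ?_⟩
    intro A _ _ ρ e w hw
    rw [Polynomial.eval₂_add, Polynomial.eval₂_mul, Polynomial.eval₂_mul, Polynomial.eval₂_C,
      Polynomial.eval₂_C, h₁ ρ e w hw, h₂ ρ e w hw]
    simp only [AlgHom.toRingHom_eq_coe, RingHom.coe_coe, map_pow, map_add]
    ring
  | mul_X p s hp =>
    obtain ⟨R₁, k₁, h₁⟩ := hp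
    rcases s with i | l
    · refine ⟨R₁ * Polynomial.C (MvPolynomial.X 0), k₁, ?_⟩
      intro A _ _ ρ e w hw
      rw [Polynomial.eval₂_mul, Polynomial.eval₂_C, h₁ ρ e w hw]
      simp only [AlgHom.toRingHom_eq_coe, RingHom.coe_coe, map_mul, MvPolynomial.aeval_X,
        Sum.elim_inl]
      ring
    · refine ⟨R₁ * Q l, k₁ + 1, ?_⟩
      intro A _ _ ρ e w hw
      rw [Polynomial.eval₂_mul, h₁ ρ e w hw, ← hw l]
      simp only [map_mul, MvPolynomial.aeval_X, Sum.elim_inr]
      ring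

/-- polynomials in elements of a place lie in the place -/
private theorem A2_mem {K : Type} [Field K] [Algebra ℂ K] (O : ValuationSubring K) (hO : IsPlace O)
    {σ : Type} (y : σ → K) (hy : ∀ i, y i ∈ O) (p : MvPolynomial σ ℂ) :
    MvPolynomial.aeval y p ∈ O := by
  induction p using MvPolynomial.induction_on with
  | C a => simpa using hO.1 a
  | add p q hp hq => simpa using O.add_mem _ _ hp hq
  | mul_X p s hp => simpa using O.mul_mem _ _ hp (hy s)

/-- exact power of `X` in a polynomial -/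
private theorem A2_exact (P : Polynomial ℂ) (n : ℕ) (h1 : Polynomial.X ^ n ∣ P)
    (h2 : ¬ Polynomial.X ^ (n + 1) ∣ P) :
    ∃ P₁ : Polynomial ℂ, P = Polynomial.X ^ n * P₁ ∧ P₁.eval 0 ≠ 0 := by
  obtain ⟨P₁, hP₁⟩ := h1
  refine ⟨P₁, hP₁, fun h0 => h2 ?_⟩
  have h3 : Polynomial.X ∣ P₁ := by
    rw [Polynomial.X_dvd_iff, Polynomial.coeff_zero_eq_eval_zero]
    exact h0
  rw [hP₁, pow_succ]
  exact mul_dvd_mul_left _ h3

private theorem A2_eval {d : ℕ} (Y : Fin (d + 1) → Polynomial ℂ) (z : ℂ)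
    (E : MvPolynomial (Fin (d + 1)) ℂ) :
    MvPolynomial.aeval (fun i => (Y i).eval z) E = (MvPolynomial.aeval Y E).eval z := by
  induction E using MvPolynomial.induction_on with
  | C a => simp
  | add p q hp hq => rw [map_add, hp, hq, map_add, Polynomial.eval_add]
  | mul_X p s hp => rw [map_mul, hp, map_mul, Polynomial.eval_mul, MvPolynomial.aeval_X,
      MvPolynomial.aeval_X]

private theorem A2_an (P : Polynomial ℂ) (z : ℂ) : AnalyticAt ℂ (fun w => P.eval w) z :=
  (Polynomial.differentiable P).analyticAt z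

private theorem A2_ne (P : Polynomial ℂ) (hP : P ≠ 0) : ∀ᶠ z in 𝓝[≠] (0 : ℂ), P.eval z ≠ 0 := by
  rcases (A2_an P 0).eventually_eq_zero_or_eventually_ne_zero with h | h
  · exfalso
    apply hP
    apply Polynomial.eq_zero_of_infinite_isRoot
    have h2 : {z : ℂ | P.eval z = 0} ∈ 𝓝 (0 : ℂ) := h
    exact infinite_of_mem_nhds (0 : ℂ) h2
  · exact h

/-- A place with `v τ = e` and elements `q l ∈ O` give holomorphic germs `r` (of order `e`) and `V` which satisfy
all polynomial relations between `τ` and the `q l`. Proof. `exists_pres`: `y 0 = τ`, `η`, `f`. By `gen` there are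
`S ≠ 0` and `Q l` with `S(y) q l = Q l (y, η)` (common denominator). For each relation `p` there are `k` and a
polynomial `R` in `(y, η)` with `R = S^k p(y 0, Q/S)` (substitute and clear denominators, compare
`subst_frac` in `Lib_MP_1209e6_ab/N3.lean`); `R(y, η) = 0`, so `E R = f g`, `E ≠ 0`. The ideal of relations is
finitely generated (Hilbert): `p_1, …, p_s`, with `E_1, …, E_s`. `exists_arc₀` with `𝓔 = {X 0, S, E_1, …, E_s}` and
`L₀ ≥ δ := v (S(y))`: `Y`, `e`. `r = (Y 0).eval` has order exactly `e`. `S(Y) = X^δ S₁` with `S₁(0) ≠ 0` and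
`Q l (Y, e) = z^δ w l` (`v (Q l (y, η)) = δ + v (q l) ≥ δ`), `V l = w l / S₁`. Then `S(Y)^k p_i(r, V) = R_i(Y, e)`
and `E_i(Y) R_i(Y, e) = 0`, where `S(Y(z)) ≠ 0`, `E_i(Y(z)) ≠ 0` for `z ≠ 0` near `0`: `p_i(r, V) = 0` for `z ≠ 0`
near `0`, and at `0` by continuity. -/
theorem exists_arc {K : Type} [Field K] [Algebra ℂ K] (T : Finset K)
    (hT : IntermediateField.adjoin ℂ (T : Set K) = ⊤) (O : ValuationSubring K) (hO : IsPlace O)
    (v : K → ℤ) (hv : IsOrd O v) (τ : K) (hτ : Transcendental ℂ τ) (e : ℕ) (he : 1 ≤ e)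
    (hve : v τ = e) {N : ℕ} (q : Fin (N + 1) → K) (hq : ∀ l, q l ∈ O) :
    ∃ (r : ℂ → ℂ) (V : ℂ → Fin (N + 1) → ℂ), AnalyticAt ℂ r 0 ∧ AnalyticAt ℂ V 0 ∧
      analyticOrderAt r 0 = e ∧ ∀ p : MvPolynomial (Fin 1 ⊕ Fin (N + 1)) ℂ,
        MvPolynomial.aeval (Sum.elim (fun _ => τ) q) p = 0 →
        ∀ᶠ z in 𝓝 (0 : ℂ), MvPolynomial.aeval (Sum.elim (fun _ => r z) (V z)) p = 0 := by
  classical
  obtain ⟨d, y, η, f, hy0, hyO, hηO, hP⟩ := exists_pres T hT O hO v hv τ hτ (by rw [hve]; exact_mod_cast he)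
  -- common denominator
  choose S' Q' hS' hQ' using fun l => hP.gen (q l)
  set S : MvPolynomial (Fin (d + 1)) ℂ := ∏ l, S' l with hS
  set Q : Fin (N + 1) → Polynomial (MvPolynomial (Fin (d + 1)) ℂ) := fun l =>
    Polynomial.C (∏ m ∈ Finset.univ.erase l, S' m) * Q' l with hQ
  have hS0 : S ≠ 0 := Finset.prod_ne_zero_iff.2 fun l _ => hS' l
  have hQS : ∀ l, MvPolynomial.aeval y S * q l = (Q l).eval₂ (MvPolynomial.aeval y).toRingHom η := by
    intro l
    rw [hQ]
    simp only [Polynomial.eval₂_mul, Polynomial.eval₂_C]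
    rw [← hQ' l, hS, ← Finset.prod_erase_mul _ _ (Finset.mem_univ l), map_mul]
    simp only [AlgHom.toRingHom_eq_coe, RingHom.coe_coe]
    ring
  have hSy : MvPolynomial.aeval y S ≠ 0 := by
    intro h0
    exact hS0 (hP.ind (h0.trans (map_zero _).symm))
  obtain ⟨δ, hδ⟩ : ∃ δ : ℕ, (δ : ℤ) = v (MvPolynomial.aeval y S) := by
    have h1 := (hv.mem_iff hSy).1 (A2_mem O hO y hyO S)
    exact ⟨(v (MvPolynomial.aeval y S)).toNat, Int.toNat_of_nonneg h1⟩
  -- relations
  choose R k hR using fun p => A2_subst S Q p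
  have hRK : ∀ p : MvPolynomial (Fin 1 ⊕ Fin (N + 1)) ℂ,
      MvPolynomial.aeval (Sum.elim (fun _ => τ) q) p = 0 →
      ∃ E : MvPolynomial (Fin (d + 1)) ℂ, E ≠ 0 ∧ ∃ g, Polynomial.C E * R p = f * g := by
    intro p hp
    apply hP.dvd
    rw [hR p y η q hQS, hy0, hp, mul_zero]
  obtain ⟨G, hG⟩ : (RingHom.ker (MvPolynomial.aeval
      (Sum.elim (fun _ : Fin 1 => τ) q) : MvPolynomial (Fin 1 ⊕ Fin (N + 1)) ℂ →ₐ[ℂ] K)).FG :=
    IsNoetherian.noetherian _
  have hGp : ∀ p ∈ G, MvPolynomial.aeval (Sum.elim (fun _ => τ) q) p = 0 := by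
    intro p hp
    have h1 : p ∈ RingHom.ker (MvPolynomial.aeval
      (Sum.elim (fun _ : Fin 1 => τ) q) : MvPolynomial (Fin 1 ⊕ Fin (N + 1)) ℂ →ₐ[ℂ] K) := by
      rw [← hG]
      exact Ideal.subset_span hp
    exact h1
  have hch : ∀ p : MvPolynomial (Fin 1 ⊕ Fin (N + 1)) ℂ,
      ∃ E : MvPolynomial (Fin (d + 1)) ℂ, E ≠ 0 ∧ (p ∈ G → ∃ g, Polynomial.C E * R p = f * g) := by
    intro p
    by_cases hp : p ∈ G
    · obtain ⟨E, hE, hg⟩ := hRK p (hGp p hp)
      exact ⟨E, hE, fun _ => hg⟩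
    · exact ⟨1, one_ne_zero, fun h => absurd h hp⟩
  choose E hE0 hEg using hch
  obtain ⟨Y, ε, hε, hroot, hord, hdiv⟩ := exists_arc₀ O hO v hv y η f hP hyO hηO
    (insert (MvPolynomial.X 0) (insert S (G.image E)))
    (by
      intro F hF
      rcases Finset.mem_insert.1 hF with h | h
      · rw [h]; exact MvPolynomial.X_ne_zero 0
      · rcases Finset.mem_insert.1 h with h | h
        · rw [h]; exact hS0
        · obtain ⟨p, _, rfl⟩ := Finset.mem_image.1 h
          exact hE0 p) δ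
  -- the base coordinate
  have hX := hord (MvPolynomial.X 0) (Finset.mem_insert_self _ _)
  simp only [MvPolynomial.aeval_X, hy0, hve, Nat.cast_le] at hX
  obtain ⟨P₀, hP₀, hP₀0⟩ := A2_exact (Y 0) e ((hX e).2 le_rfl)
    (fun h => by have := (hX (e + 1)).1 h; omega)
  -- the denominator
  have hSo := hord S (Finset.mem_insert_of_mem (Finset.mem_insert_self _ _))
  simp only [← hδ, Nat.cast_le] at hSo
  obtain ⟨S₁, hS₁, hS₁0⟩ := A2_exact (MvPolynomial.aeval Y S) δ ((hSo δ).2 le_rfl)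
    (fun h => by have := (hSo (δ + 1)).1 h; omega)
  -- the numerators
  have hnum : ∀ l, ∃ w : ℂ → ℂ, AnalyticAt ℂ w 0 ∧ ∀ᶠ z in 𝓝 (0 : ℂ),
      (Q l).eval₂ (MvPolynomial.aeval fun i => (Y i).eval z).toRingHom (ε z) = z ^ δ * w z := by
    intro l
    apply hdiv (Q l) δ le_rfl
    rw [← hQS l]
    by_cases hl : q l = 0
    · left; rw [hl, mul_zero]
    · right
      rw [hv.map_mul hSy hl, ← hδ]
      have := (hv.mem_iff hl).1 (hq l)
      linarith
  choose w hwan hw using hnum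
  have hS₁ne : ∀ᶠ z in 𝓝 (0 : ℂ), S₁.eval z ≠ 0 :=
    (A2_an S₁ 0).continuousAt.eventually_ne hS₁0
  have hVan : AnalyticAt ℂ (fun z => fun l => w l z / S₁.eval z) 0 :=
    analyticAt_pi_iff.2 fun l => (hwan l).div (A2_an S₁ 0) hS₁0
  have hran : AnalyticAt ℂ (fun z => (Y 0).eval z) 0 := A2_an (Y 0) 0
  refine ⟨fun z => (Y 0).eval z, fun z => fun l => w l z / S₁.eval z, hran, hVan, ?_, ?_⟩
  · rw [hran.analyticOrderAt_eq_natCast]
    refine ⟨fun z => P₀.eval z, A2_an P₀ 0, hP₀0, Eventually.of_forall fun z => ?_⟩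
    rw [hP₀]
    simp
  · -- all relations
    have hgen : ∀ p ∈ G, ∀ᶠ z in 𝓝 (0 : ℂ),
        MvPolynomial.aeval (Sum.elim (fun _ : Fin 1 => (Y 0).eval z)
          (fun l => w l z / S₁.eval z)) p = 0 := by
      intro p hp
      have hpun : ∀ᶠ z in 𝓝[≠] (0 : ℂ),
          MvPolynomial.aeval (Sum.elim (fun _ : Fin 1 => (Y 0).eval z)
            (fun l => w l z / S₁.eval z)) p = 0 := by
        have hEo := hord (E p) (Finset.mem_insert_of_mem (Finset.mem_insert_of_mem
          (Finset.mem_image_of_mem _ hp)))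
        have hEY : MvPolynomial.aeval Y (E p) ≠ 0 := by
          intro h0
          have h1 := (hEo ((v (MvPolynomial.aeval y (E p))).toNat + 1)).1 (h0 ▸ dvd_zero _)
          have h2 := Int.self_le_toNat (v (MvPolynomial.aeval y (E p)))
          push_cast at h1
          linarith
        have hSY : MvPolynomial.aeval Y S ≠ 0 := by
          intro h0
          apply hS₁0
          have h1 : S₁ = 0 := by
            have h2 : Polynomial.X ^ δ * S₁ = 0 := by rw [← hS₁, h0]
            exact (mul_eq_zero.1 h2).resolve_left (pow_ne_zero _ Polynomial.X_ne_zero)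
          rw [h1, Polynomial.eval_zero]
        filter_upwards [A2_ne _ hEY, A2_ne _ hSY, (hS₁ne.filter_mono nhdsWithin_le_nhds),
          (hroot.filter_mono nhdsWithin_le_nhds),
          ((eventually_all.2 hw).filter_mono nhdsWithin_le_nhds)] with z h1 h2 h3 h4 h5
        obtain ⟨g, hg⟩ := hEg p hp
        have h6 := congrArg (Polynomial.eval₂
          (MvPolynomial.aeval fun i => (Y i).eval z).toRingHom (ε z)) hg
        rw [Polynomial.eval₂_mul, Polynomial.eval₂_mul, h4, zero_mul, Polynomial.eval₂_C,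
          hR p (fun i => (Y i).eval z) (ε z) (fun l => w l z / S₁.eval z) ?_] at h6
        · have h7 : (MvPolynomial.aeval fun i => (Y i).eval z).toRingHom (E p) ≠ 0 := by
            change MvPolynomial.aeval (fun i => (Y i).eval z) (E p) ≠ 0
            rw [A2_eval]
            exact h1
          have h8 : MvPolynomial.aeval (fun i => (Y i).eval z) S ≠ 0 := by
            rw [A2_eval]
            exact h2
          exact (mul_eq_zero.1 ((mul_eq_zero.1 h6).resolve_left h7)).resolve_left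
            (pow_ne_zero _ h8)
        · intro l
          rw [h5 l, A2_eval, hS₁, Polynomial.eval_mul, Polynomial.eval_pow, Polynomial.eval_X]
          field_simp
      have hcont : ContinuousAt (fun z : ℂ =>
          MvPolynomial.aeval (Sum.elim (fun _ : Fin 1 => (Y 0).eval z)
            (fun l => w l z / S₁.eval z)) p) 0 := by
        have h1 : ContinuousAt (fun z : ℂ => (Sum.elim (fun _ : Fin 1 => (Y 0).eval z)
            (fun l => w l z / S₁.eval z) : Fin 1 ⊕ Fin (N + 1) → ℂ)) 0 := by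
          rw [continuousAt_pi]
          rintro (i | l)
          · exact hran.continuousAt
          · exact ((hwan l).div (A2_an S₁ 0) hS₁0).continuousAt
        exact (MvPolynomial.continuous_eval p).continuousAt.comp h1
      have h0 : MvPolynomial.aeval (Sum.elim (fun _ : Fin 1 => (Y 0).eval (0 : ℂ))
            (fun l => w l 0 / S₁.eval 0)) p = 0 := by
        have h1 := hcont.tendsto.mono_left (nhdsWithin_le_nhds (s := {(0 : ℂ)}ᶜ))
        have h2 : Tendsto (fun z : ℂ =>
          MvPolynomial.aeval (Sum.elim (fun _ : Fin 1 => (Y 0).eval z)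
            (fun l => w l z / S₁.eval z)) p) (𝓝[≠] (0 : ℂ)) (𝓝 0) :=
          tendsto_const_nhds.congr' (hpun.mono fun z hz => hz.symm)
        exact tendsto_nhds_unique h1 h2
      have h1 := eventually_nhdsWithin_iff.1 hpun
      filter_upwards [h1] with z hz
      by_cases hz0 : z = 0
      · rw [hz0]; exact h0
      · exact hz hz0
    intro p hp
    have hpG : p ∈ Ideal.span (G : Set (MvPolynomial (Fin 1 ⊕ Fin (N + 1)) ℂ)) := by
      rw [hG]
      exact hp
    filter_upwards [(Filter.eventually_all_finset G).2 hgen] with z hz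
    have hle : Ideal.span (G : Set (MvPolynomial (Fin 1 ⊕ Fin (N + 1)) ℂ)) ≤
        RingHom.ker (MvPolynomial.aeval (Sum.elim (fun _ : Fin 1 => (Y 0).eval z)
            (fun l => w l z / S₁.eval z)) : MvPolynomial (Fin 1 ⊕ Fin (N + 1)) ℂ →ₐ[ℂ] ℂ) := by
      rw [Ideal.span_le]
      intro a ha
      exact hz a ha
    exact hle hpG

end Pool.Agent.AbPencil
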