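import Pool.Agent.Lib_MP_1209e6_sp.A2
import Pool.Agent.Lib_MP_1209e6_ab.B1

/-! PIECE B: arcs in the family. -/

set_option autoImplicit false

open Filter Topology

namespace Pool.Agent.AbPencil

open Pool.Agent.Campana Pool.Agent.AbFib

/-- substitution of the inverse in the first variable, cleared -/
private theorem B_inv {N : ℕ} (p : MvPolynomial (Fin 1 ⊕ Fin (N + 1)) ℂ) :
    ∃ (p' : MvPolynomial (Fin 1 ⊕ Fin (N + 1)) ℂ) (k : ℕ),
      ∀ {A : Type} [Field A] [Algebra ℂ A] (ρ : A) (w : Fin (N + 1) → A), ρ ≠ 0 →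
        MvPolynomial.aeval (Sum.elim (fun _ => ρ) w) p' =
          ρ ^ k * MvPolynomial.aeval (Sum.elim (fun _ => ρ⁻¹) w) p := by
  induction p using MvPolynomial.induction_on with
  | C a =>
    refine ⟨MvPolynomial.C a, 0, ?_⟩
    intro A _ _ ρ w _
    simp
  | add p q hp hq =>
    obtain ⟨p₁, k₁, h₁⟩ := hp
    obtain ⟨p₂, k₂, h₂⟩ := hq
    refine ⟨p₁ * MvPolynomial.X (Sum.inl 0) ^ k₂ + p₂ * MvPolynomial.X (Sum.inl 0) ^ k₁, k₁ + k₂, ?_⟩
    intro A _ _ ρ w hρ
    rw [map_add, map_mul, map_mul, h₁ ρ w hρ, h₂ ρ w hρ, map_pow, map_pow, MvPolynomial.aeval_X,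
      Sum.elim_inl, map_add]
    ring
  | mul_X p s hp =>
    obtain ⟨p₁, k₁, h₁⟩ := hp
    rcases s with i | l
    · refine ⟨p₁, k₁ + 1, ?_⟩
      intro A _ _ ρ w hρ
      rw [h₁ ρ w hρ, map_mul, MvPolynomial.aeval_X, Sum.elim_inl, pow_succ]
      field_simp
    · refine ⟨p₁ * MvPolynomial.X (Sum.inr l), k₁, ?_⟩
      intro A _ _ ρ w hρ
      rw [map_mul, h₁ ρ w hρ, map_mul, MvPolynomial.aeval_X, MvPolynomial.aeval_X, Sum.elim_inr,
        Sum.elim_inr]
      ring

/-- translation of the first variable -/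
private theorem B_add {N : ℕ} (c : ℂ) (p : MvPolynomial (Fin 1 ⊕ Fin (N + 1)) ℂ) :
    ∃ p' : MvPolynomial (Fin 1 ⊕ Fin (N + 1)) ℂ,
      ∀ {A : Type} [Field A] [Algebra ℂ A] (ρ : A) (w : Fin (N + 1) → A),
        MvPolynomial.aeval (Sum.elim (fun _ => ρ) w) p' =
          MvPolynomial.aeval (Sum.elim (fun _ => algebraMap ℂ A c + ρ) w) p := by
  induction p using MvPolynomial.induction_on with
  | C a =>
    refine ⟨MvPolynomial.C a, ?_⟩
    intro A _ _ ρ w
    simp
  | add p q hp hq =>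
    obtain ⟨p₁, h₁⟩ := hp
    obtain ⟨p₂, h₂⟩ := hq
    refine ⟨p₁ + p₂, ?_⟩
    intro A _ _ ρ w
    rw [map_add, h₁ ρ w, h₂ ρ w, map_add]
  | mul_X p s hp =>
    obtain ⟨p₁, h₁⟩ := hp
    rcases s with i | l
    · refine ⟨p₁ * (MvPolynomial.C c + MvPolynomial.X (Sum.inl 0)), ?_⟩
      intro A _ _ ρ w
      rw [map_mul, h₁ ρ w, map_mul, map_add, MvPolynomial.aeval_X, MvPolynomial.aeval_X,
        MvPolynomial.aeval_C, Sum.elim_inl, Sum.elim_inl]
    · refine ⟨p₁ * MvPolynomial.X (Sum.inr l), ?_⟩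
      intro A _ _ ρ w
      rw [map_mul, h₁ ρ w, map_mul, MvPolynomial.aeval_X, MvPolynomial.aeval_X, Sum.elim_inr,
        Sum.elim_inr]

/-- relations between the local parameter and the coordinates -/
private theorem B_rel {N : ℕ} (b : Option ℂ) (p : MvPolynomial (Fin 1 ⊕ Fin (N + 1)) ℂ) :
    ∃ (p' : MvPolynomial (Fin 1 ⊕ Fin (N + 1)) ℂ) (k : ℕ),
      (∀ {K : Type} [Field K] [Algebra ℂ K] (T : K) (w : Fin (N + 1) → K), T ≠ 0 →
        MvPolynomial.aeval (Sum.elim (fun _ => T) w) p = 0 →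
        MvPolynomial.aeval (Sum.elim (fun _ => par T b) w) p' = 0) ∧
      ∀ (s : ℂ) (w : Fin (N + 1) → ℂ), s ≠ 0 →
        MvPolynomial.aeval (Sum.elim (fun _ => s) w) p' =
          s ^ k * MvPolynomial.aeval (Sum.elim (fun _ => pt b s) w) p := by
  cases b with
  | none =>
    obtain ⟨p', k, h⟩ := B_inv p
    refine ⟨p', k, ?_, ?_⟩
    · intro K _ _ T w hT hp
      change MvPolynomial.aeval (Sum.elim (fun _ => T⁻¹) w) p' = 0
      rw [h T⁻¹ w (inv_ne_zero hT), inv_inv, hp, mul_zero]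
    · intro s w hs
      exact h s w hs
  | some c =>
    obtain ⟨p', h⟩ := B_add c p
    refine ⟨p', 0, ?_, ?_⟩
    · intro K _ _ T w _ hp
      change MvPolynomial.aeval (Sum.elim (fun _ => T - algebraMap ℂ K c) w) p' = 0
      rw [h, add_sub_cancel, hp]
    · intro s w _
      rw [pow_zero, one_mul]
      exact h s w

/-- points of the fibre in one chart -/
private theorem B_mem {K : Type} [Field K] [Algebra ℂ K] {n N : ℕ} (t : Fin n → K)
    (x : Fin (N + 1) → K) (j : Fin (N + 1)) (hxj : x j ≠ 0) (u : Fin n → ℂ) (w : Fin (N + 1) → ℂ)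
    (h : w j = 1) (hp : ∀ p : MvPolynomial (Fin n ⊕ Fin (N + 1)) ℂ,
      MvPolynomial.aeval (co t x j) p = 0 → MvPolynomial.aeval (Sum.elim u w) p = 0) :
    w ∈ Fibre t x u := by
  have hj : w j ≠ 0 := by rw [h]; exact one_ne_zero
  have hco : co u w j = Sum.elim u w := by
    funext s
    cases s with
    | inl a => rfl
    | inr l =>
      change w l / w j = w l
      rw [h, div_one]
  refine ⟨fun h0 => hj (by rw [h0]; rfl), fun j' hj' p hp' => ?_⟩
  obtain ⟨p', d, hd⟩ := change_chart p j' j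
  have h1 := hd t x hxj
  rw [hp', mul_zero] at h1
  have h2 := hp p' h1
  rw [← hco, hd u w hj] at h2
  exact (mul_eq_zero.1 h2).resolve_left (pow_ne_zero _ (div_ne_zero hj' hj))

private theorem B_par_transcendental {K : Type} [Field K] [Algebra ℂ K] (T : K)
    (hT : Transcendental ℂ T) (b : Option ℂ) : Transcendental ℂ (par T b) := by
  cases b with
  | none =>
    intro h
    apply hT
    have h1 : IsAlgebraic ℂ (T⁻¹)⁻¹ := IsAlgebraic.inv h
    rwa [inv_inv] at h1
  | some c =>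
    intro h
    apply hT
    have h1 : IsAlgebraic ℂ (par T (some c) + algebraMap ℂ K c) := h.add (isAlgebraic_algebraMap c)
    have h2 : par T (some c) + algebraMap ℂ K c = T := by
      change T - algebraMap ℂ K c + algebraMap ℂ K c = T
      rw [sub_add_cancel]
    rwa [h2] at h1

/-- Proof. Choose `j` with `v (x j)` minimal, `q l = x l / x j ∈ O`, `q j = 1`. `exists_arc` for `τ = par T b`: `r`, `V`; `V z j = 1`
near `0` (relation `q j - 1`). For `z ≠ 0` near `0`, `r z ≠ 0`. A polynomial relation `p(T, x/x_j) = 0`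
becomes a relation between `τ` and `q` (`T = τ + b` if `b = some b`; for `none` multiply by a power of
`τ`, `T = τ⁻¹`), so `p (pt b (r z), V z) = 0` near `0`, `z ≠ 0`. The neighbourhood must not depend on `p`: the
ideal of relations is finitely generated, or use the identity theorem on a fixed disc where `r` and `V` are
holomorphic and `r z ≠ 0` for `z ≠ 0`. One chart suffices: `change_chart` and the proof of
`Fam.mem_fib_iff` in `Lib_MP_1209e6_ab/B1.lean`. -/
theorem hasArc_of_place {K : Type} [Field K] [Algebra ℂ K] (T₀ : Finset K)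
    (hT₀ : IntermediateField.adjoin ℂ (T₀ : Set K) = ⊤) (T : K) (hT : Transcendental ℂ T) {N : ℕ}
    (x : Fin (N + 1) → K) (hx : ∀ l, x l ≠ 0) (b : Option ℂ) (O : ValuationSubring K)
    (hO : IsPlace O) (v : K → ℤ) (hv : IsOrd O v) (e : ℕ) (he : 1 ≤ e) (hve : v (par T b) = e) :
    HasArc T x b e := by
  classical
  obtain ⟨j, hj⟩ := Finite.exists_min fun l => v (x l)
  have hT0 : T ≠ 0 := by
    intro h0
    apply hT
    rw [h0]
    exact isAlgebraic_zero
  set q : Fin (N + 1) → K := fun l => x l / x j with hqdef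
  have hq : ∀ l, q l ∈ O := by
    intro l
    have h1 : q l ≠ 0 := div_ne_zero (hx l) (hx j)
    rw [hv.mem_iff h1, hqdef]
    beta_reduce
    rw [hv.map_div (hx l) (hx j)]
    have := hj l
    omega
  obtain ⟨r, V, hr, hV, hre, hrel⟩ := exists_arc T₀ hT₀ O hO v hv (par T b)
    (B_par_transcendental T hT b) e he hve q hq
  refine ⟨r, V, hr, hV, hre, ?_⟩
  -- `V z j = 1`
  have hVj : ∀ᶠ z in 𝓝 (0 : ℂ), V z j = 1 := by
    have h1 := hrel (MvPolynomial.X (Sum.inr j) - 1) (by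
      rw [map_sub, MvPolynomial.aeval_X, map_one, Sum.elim_inr, hqdef]
      beta_reduce
      rw [div_self (hx j), sub_self])
    filter_upwards [h1] with z hz
    rw [map_sub, MvPolynomial.aeval_X, map_one, Sum.elim_inr, sub_eq_zero] at hz
    exact hz
  -- `r z ≠ 0`
  have hrne : ∀ᶠ z in 𝓝[≠] (0 : ℂ), r z ≠ 0 := by
    rcases hr.eventually_eq_zero_or_eventually_ne_zero with h | h
    · exfalso
      have h1 : analyticOrderAt r 0 = ⊤ := analyticOrderAt_eq_top.2 h
      rw [hre] at h1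
      exact absurd h1 (ENat.natCast_ne_top e)
    · exact h
  -- generators of the ideal of relations
  have hco : co (fun _ : Fin 1 => T) x j = Sum.elim (fun _ => T) q := rfl
  obtain ⟨G, hG⟩ : (RingHom.ker (MvPolynomial.aeval
      (Sum.elim (fun _ : Fin 1 => T) q) : MvPolynomial (Fin 1 ⊕ Fin (N + 1)) ℂ →ₐ[ℂ] K)).FG :=
    IsNoetherian.noetherian _
  have hgen : ∀ p ∈ G, ∀ᶠ z in 𝓝[≠] (0 : ℂ),
      MvPolynomial.aeval (Sum.elim (fun _ : Fin 1 => pt b (r z)) (V z)) p = 0 := by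
    intro p hp
    have h0 : MvPolynomial.aeval (Sum.elim (fun _ : Fin 1 => T) q) p = 0 := by
      have h1 : p ∈ RingHom.ker (MvPolynomial.aeval
          (Sum.elim (fun _ : Fin 1 => T) q) : MvPolynomial (Fin 1 ⊕ Fin (N + 1)) ℂ →ₐ[ℂ] K) := by
        rw [← hG]
        exact Ideal.subset_span hp
      exact h1
    obtain ⟨p', k, hk1, hk2⟩ := B_rel b p
    filter_upwards [(hrel p' (hk1 T q hT0 h0)).filter_mono nhdsWithin_le_nhds, hrne] with z h1 h2
    rw [hk2 (r z) (V z) h2] at h1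
    exact (mul_eq_zero.1 h1).resolve_left (pow_ne_zero _ h2)
  filter_upwards [(Filter.eventually_all_finset G).2 hgen,
    hVj.filter_mono nhdsWithin_le_nhds] with z hz h1
  refine B_mem (fun _ : Fin 1 => T) x j (hx j) _ (V z) h1 fun p hp => ?_
  rw [hco] at hp
  have hpG : p ∈ Ideal.span (G : Set (MvPolynomial (Fin 1 ⊕ Fin (N + 1)) ℂ)) := by
    rw [hG]
    exact hp
  have hle : Ideal.span (G : Set (MvPolynomial (Fin 1 ⊕ Fin (N + 1)) ℂ)) ≤
      RingHom.ker (MvPolynomial.aeval (Sum.elim (fun _ : Fin 1 => pt b (r z)) (V z)) :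
        MvPolynomial (Fin 1 ⊕ Fin (N + 1)) ℂ →ₐ[ℂ] ℂ) := by
    rw [Ideal.span_le]
    intro a ha
    exact hz a ha
  exact hle hpG

end Pool.Agent.AbPencil
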