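import Pool.Agent.Lib_MP_1209e6_sp.Defs

/-! PIECE C: local lifts from arcs. -/

set_option autoImplicit false

open Filter Topology

namespace Pool.Agent.AbPencil

open Pool.Agent.Campana Pool.Agent.AbFib

/-- a holomorphic function of order `k e` is the `e`-th power of a holomorphic function of order `k` -/
private theorem c_root {f : ℂ → ℂ} {z₀ : ℂ} {e k : ℕ} (he : 1 ≤ e) (hf : AnalyticAt ℂ f z₀)
    (ho : analyticOrderAt f z₀ = (k * e : ℕ)) :
    ∃ ρ : ℂ → ℂ, AnalyticAt ℂ ρ z₀ ∧ ρ z₀ ≠ 0 ∧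
      ∀ᶠ z in 𝓝 z₀, f z = ((z - z₀) ^ k * ρ z) ^ e := by
  obtain ⟨g, hg, hg0, hfg⟩ := (hf.analyticOrderAt_eq_natCast).1 ho
  obtain ⟨c, hc⟩ := IsAlgClosed.exists_pow_nat_eq (g z₀) (n := e) (by omega)
  have he' : (e : ℂ) ≠ 0 := by
    rw [Nat.cast_ne_zero]
    omega
  have hc0 : c ≠ 0 := by
    rintro rfl
    apply hg0
    rw [← hc, zero_pow (by omega)]
  have hq : AnalyticAt ℂ (fun z => g z / g z₀) z₀ := hg.div analyticAt_const hg0
  have hlog : AnalyticAt ℂ (fun z => Complex.log (g z / g z₀)) z₀ := by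
    apply AnalyticAt.clog hq
    rw [div_self hg0]
    exact Complex.one_mem_slitPlane
  refine ⟨fun z => c * Complex.exp (Complex.log (g z / g z₀) / e), ?_, ?_, ?_⟩
  · exact analyticAt_const.mul ((hlog.div analyticAt_const he').cexp)
  · exact mul_ne_zero hc0 (Complex.exp_ne_zero _)
  · filter_upwards [hfg, hg.continuousAt.eventually_ne hg0] with z hz hz0
    rw [hz, smul_eq_mul, mul_pow, mul_pow, ← pow_mul, ← Complex.exp_nat_mul, hc,
      mul_div_cancel₀ _ he', Complex.exp_log (div_ne_zero hz0 hg0), mul_div_cancel₀ _ hg0]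

/-- Proof. At `z₀` let `b, s, k` be as in `Ram`, `e = μ b`, and `(r, V)` the arc over `b`. `r z = z^e ρ z` with `ρ 0 ≠ 0`,
`ρ = ρ₁^e` near `0` with `ρ₁` holomorphic (`ρ₁ = ρ(0)^(1/e) exp (log (ρ/ρ(0)) / e)`), so
`r = g^e`, `g z = z ρ₁ z`, `g 0 = 0`, `deriv g 0 ≠ 0`; likewise `s = h^e` near `z₀` with `h` holomorphic of
order `k ≥ 1`. Let `γ` be the local inverse of `g` at `0` (holomorphic) and `φ = γ ∘ h`: `φ z₀ = 0`,
`g (φ z) = h z`, hence `r (φ z) = s z` near `z₀`, and `φ z ≠ 0` for `z ≠ z₀` near `z₀`. Then `V ∘ φ` is a local lift: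
`V (φ z)` is in the fibre over `pt b (r (φ z)) = pt b (s z) = u z`. -/
theorem lifts_of_arcs {K : Type} [Field K] [Algebra ℂ K] (T : K) {N : ℕ} (x : Fin (N + 1) → K)
    (μ : Option ℂ → ℕ) (h1 : ∀ b, 1 ≤ μ b) (harc : ∀ b, HasArc T x b (μ b)) (u : ℂ → ℂ)
    (hu : Ram μ u) : LiftsLocally (fun _ : Fin 1 => T) x fun z _ => u z := by
  intro z₀
  obtain ⟨b, s, k, hk, hs, hso, hus⟩ := hu z₀
  obtain ⟨r, V, hr, hV, hro, hfib⟩ := harc b
  obtain ⟨σ, hσ, hσ0, hsσ⟩ := c_root (h1 b) hs hso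
  obtain ⟨ρ, hρ, hρ0, hrρ⟩ := c_root (k := 1) (h1 b) hr (by rw [one_mul]; exact hro)
  set g : ℂ → ℂ := fun z => (z - 0) ^ 1 * ρ z with hgdef
  set h : ℂ → ℂ := fun z => (z - z₀) ^ k * σ z with hhdef
  have hg : AnalyticAt ℂ g 0 := ((analyticAt_id.sub analyticAt_const).pow 1).mul hρ
  have hh : AnalyticAt ℂ h z₀ := ((analyticAt_id.sub analyticAt_const).pow k).mul hσ
  have hg00 : g 0 = 0 := by simp [hgdef]
  have hh0 : h z₀ = 0 := by
    simp only [hhdef, sub_self]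
    rw [zero_pow (by omega), zero_mul]
  have hdg : deriv g 0 ≠ 0 := by
    have h2 : HasDerivAt g (1 * ρ 0 + (0 : ℂ) * deriv ρ 0) 0 := by
      have h3 := (hasDerivAt_id (0 : ℂ)).mul hρ.differentiableAt.hasDerivAt
      refine h3.congr_of_eventuallyEq (Eventually.of_forall fun z => ?_)
      simp [hgdef]
    rw [h2.deriv, one_mul, zero_mul, add_zero]
    exact hρ0
  set γ : ℂ → ℂ := hg.hasStrictDerivAt.localInverse _ _ _ hdg with hγdef
  have hγ : AnalyticAt ℂ γ (g 0) := hg.analyticAt_localInverse hdg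
  have hγ0 : γ (g 0) = 0 := (HasStrictDerivAt.eventually_left_inverse ..).self_of_nhds
  have hgγ : ∀ᶠ y in 𝓝 (g 0), g (γ y) = y := HasStrictDerivAt.eventually_right_inverse ..
  rw [hg00] at hγ hγ0 hgγ
  have hφ : AnalyticAt ℂ (fun z => γ (h z)) z₀ := by
    have h3 : AnalyticAt ℂ γ (h z₀) := by rw [hh0]; exact hγ
    exact h3.comp hh
  have hφ0 : γ (h z₀) = 0 := by rw [hh0, hγ0]
  have hgφ : ∀ᶠ z in 𝓝 z₀, g (γ (h z)) = h z := by
    have h3 : Tendsto h (𝓝 z₀) (𝓝 0) := by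
      have := hh.continuousAt.tendsto
      rwa [hh0] at this
    exact h3.eventually hgγ
  have hφt : Tendsto (fun z => γ (h z)) (𝓝 z₀) (𝓝 0) := by
    have := hφ.continuousAt.tendsto
    rwa [hφ0] at this
  have hφne : ∀ᶠ z in 𝓝[≠] z₀, γ (h z) ≠ 0 := by
    filter_upwards [hgφ.filter_mono nhdsWithin_le_nhds,
      (hσ.continuousAt.eventually_ne hσ0).filter_mono nhdsWithin_le_nhds,
      self_mem_nhdsWithin] with z hz1 hz2 hz3 hz4
    rw [hz4, hg00] at hz1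
    have h5 : h z ≠ 0 := mul_ne_zero (pow_ne_zero _ (sub_ne_zero.2 hz3)) hz2
    exact h5 hz1.symm
  have hφt' : Tendsto (fun z => γ (h z)) (𝓝[≠] z₀) (𝓝[≠] 0) :=
    tendsto_nhdsWithin_iff.2 ⟨hφt.mono_left nhdsWithin_le_nhds, hφne⟩
  refine ⟨fun z => V (γ (h z)), ?_, ?_⟩
  · have h3 : AnalyticAt ℂ V (γ (h z₀)) := by rw [hφ0]; exact hV
    exact AnalyticAt.fun_comp (f := fun z => γ (h z)) h3 hφ
  · filter_upwards [hφt'.eventually hfib, hus, hgφ.filter_mono nhdsWithin_le_nhds,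
      (hφt.eventually hrρ).filter_mono nhdsWithin_le_nhds,
      hsσ.filter_mono nhdsWithin_le_nhds] with z hz1 hz2 hz3 hz4 hz5
    have h6 : r (γ (h z)) = s z := by
      have h7 : r (γ (h z)) = (g (γ (h z))) ^ μ b := hz4
      have h8 : s z = (h z) ^ μ b := hz5
      rw [h7, h8, hz3]
    rw [h6, ← hz2] at hz1
    exact hz1

end Pool.Agent.AbPencil
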