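import Pool.Agent.Lib_MP_1209e6_sp.Main
import Pool.Agent.Lib_MP_1209e6_sp.N5

/-! The analytic criterion: an abelian pencil has a Zariski dense entire curve if and only if its orbifold
base is special. -/

set_option autoImplicit false

open Filter Topology

namespace Pool.Agent.AbPencil

open Pool.Agent.Campana Pool.Agent.CampanaFlow Pool.Agent.AbFib

/-- `IsMult T b e`: some place `O` of `K` (with normalised order `v`) lies over the point `b` of `ℙ¹` with
multiplicity `e ≥ 1`: `v (T - b) = e`, respectively `v (1 / T) = e` for `b = ∞` (written `none`). -/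
def IsMult {K : Type} [Field K] [Algebra ℂ K] (T : K) (b : Option ℂ) (e : ℕ) : Prop :=
  ∃ (O : ValuationSubring K) (v : K → ℤ), IsPlace O ∧ IsOrd O v ∧ 1 ≤ e ∧ v (par T b) = e

/-- The multiplicity of the pencil `T` over the point `b` of `ℙ¹`: the minimum over all places over `b`. -/
noncomputable def infMult {K : Type} [Field K] [Algebra ℂ K] (T : K) (b : Option ℂ) : ℕ :=
  sInf {e | IsMult T b e}

/-- The orbifold base of the pencil `T` is special: `∑ (1 - 1 / m_b) ≤ 2`. -/
def BaseSpecial {K : Type} [Field K] [Algebra ℂ K] (T : K) : Prop :=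
  ∀ S : Finset (Option ℂ), ∑ b ∈ S, (1 - 1 / (infMult T b : ℝ)) ≤ 2

section
variable {m : ℕ} (P : Ideal (MvPolynomial (Fin (m + 1)) ℂ)) [P.IsPrime] (T : FunField P)
  (hT : Transcendental ℂ T)

include hT in
theorem infMult_spec (b : Option ℂ) : IsMult T b (infMult T b) := by
  obtain ⟨T₀, hT₀⟩ := funField_fg P
  obtain ⟨O, v, hO, hv, h1⟩ := exists_place_over T₀ hT₀ (par T b) (par_transcendental T hT b)
  obtain ⟨e, he⟩ := Int.eq_ofNat_of_zero_le (by omega : (0 : ℤ) ≤ v (par T b))
  have h2 : ({e | IsMult T b e} : Set ℕ).Nonempty := ⟨e, O, v, hO, hv, by omega, he⟩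
  exact Nat.sInf_mem h2

include hT in
theorem one_le_infMult (b : Option ℂ) : 1 ≤ infMult T b := by
  obtain ⟨O, v, hO, hv, h1, h2⟩ := infMult_spec P T hT b
  exact h1

theorem infMult_le (b : Option ℂ) (O : ValuationSubring (FunField P)) (v : FunField P → ℤ)
    (hO : IsPlace O) (hv : IsOrd O v) (h : 1 ≤ v (par T b)) : (infMult T b : ℤ) ≤ v (par T b) := by
  obtain ⟨e, he⟩ := Int.eq_ofNat_of_zero_le (by omega : (0 : ℤ) ≤ v (par T b))
  rw [he]
  have h4 : infMult T b ≤ e := Nat.sInf_le ⟨O, v, hO, hv, by omega, he⟩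
  exact_mod_cast h4

include hT in
/-- special varieties: the orbifold base of each pencil is special -/
theorem baseSpecial_of_special (hs : SpecialField (FunField P)) : BaseSpecial T :=
  special_bound T hT hs (infMult T) (one_le_infMult P T hT) (infMult_le P T)

include hT in
/-- varieties with a Zariski dense entire curve: the orbifold base of each pencil is special -/
theorem baseSpecial_of_brody (hP : IsVariety P) (hB : BrodySpecial P) : BaseSpecial T :=
  sum_le_two_of_brody P hP hB T hT (infMult T) (one_le_infMult P T hT) (infMult_le P T)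

include hT in
/-- abelian pencils: if the orbifold base is special then there is a Zariski dense entire curve -/
theorem brody_of_baseSpecial (hP : IsVariety P) {N : ℕ} (x : Fin (N + 1) → FunField P)
    (h : IsAbelianFibration (fun _ : Fin 1 => T) x) (hb : BaseSpecial T) : BrodySpecial P := by
  obtain ⟨T₀, hT₀⟩ := funField_fg P
  obtain ⟨u, hu⟩ := exists_ram ellCurve (infMult T) (one_le_infMult P T hT) hb
  have h4 : ∀ b, HasArc T x b (infMult T b) := by
    intro b
    obtain ⟨O, v, hO, hv, h5, h6⟩ := infMult_spec P T hT b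
    exact hasArc_of_place T₀ hT₀ T hT x h.ne_zero b O hO v hv (infMult T b) h5 h6
  exact (main_iff P hP (fun _ : Fin 1 => T) x h).2
    ⟨fun z _ => u z, dense_of_ram T hT (infMult T) (one_le_infMult P T hT) u hu,
      lifts_of_arcs T x (infMult T) (one_le_infMult P T hT) h4 u hu⟩

include hT in
/-- The criterion. -/
theorem crit (hP : IsVariety P) {N : ℕ} (x : Fin (N + 1) → FunField P)
    (h : IsAbelianFibration (fun _ : Fin 1 => T) x) :
    (BrodySpecial P ↔ BaseSpecial T) ∧ (SpecialField (FunField P) → BrodySpecial P) :=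
  ⟨⟨baseSpecial_of_brody P T hT hP, brody_of_baseSpecial P T hT hP x h⟩, fun hs =>
    brody_of_baseSpecial P T hT hP x h (baseSpecial_of_special P T hT hs)⟩

end

end Pool.Agent.AbPencil
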