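import Pool.Agent.Lib_MP_1209e6_sp.Defs
import Pool.Agent.Lib_MP_1209e6_ab.B1
import Pool.Agent.Lib_MP_1209e6_ag.Der

/-! PIECE E1: plane cubics as families over a point. -/

set_option autoImplicit false

open Filter Topology

namespace Pool.Agent.AbPencil

open Pool.Agent.Campana Pool.Agent.AbFib

/-- the coefficients of the vector field in the three charts -/
private noncomputable def ellP (a b c : ℂ) : Fin 3 → Fin 3 → MvPolynomial (Fin 0 ⊕ Fin 3) ℂ :=
  let X : Fin 3 → MvPolynomial (Fin 0 ⊕ Fin 3) ℂ := fun l => MvPolynomial.X (Sum.inr l)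
  let C : ℂ → MvPolynomial (Fin 0 ⊕ Fin 3) ℂ := MvPolynomial.C
  ![![0, 2 * X 2, 3 * X 1 ^ 2 + 2 * C a * X 1 + C b],
    ![-(2 * X 2 * X 0), 0, X 2 ^ 2 - C a - 2 * C b * X 0 - 3 * C c * X 0 ^ 2],
    ![-(3 * X 1 ^ 2 + 2 * C a * X 1 * X 0 + C b * X 0 ^ 2),
      -1 + C a * X 1 ^ 2 + 2 * C b * X 1 * X 0 + 3 * C c * X 0 ^ 2, 0]]

private theorem exists_pt (B : Type) [CommRing B] [Algebra ℂ B] [IsDomain B]
    [Algebra.FiniteType ℂ B] : Nonempty (B →ₐ[ℂ] ℂ) := by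
  obtain ⟨m, hm⟩ := Ideal.exists_maximal B
  let _ := Ideal.Quotient.field m
  have h4 : Algebra.FiniteType ℂ (B ⧸ m) :=
    Algebra.FiniteType.of_surjective (Ideal.Quotient.mkₐ ℂ m) (Ideal.Quotient.mkₐ_surjective ℂ m)
  have h5 : Module.Finite ℂ (B ⧸ m) := finite_of_finite_type_of_isJacobsonRing ℂ _
  have hbij : Function.Bijective (algebraMap ℂ (B ⧸ m)) :=
    IsAlgClosed.algebraMap_bijective_of_isIntegral
  let e : ℂ ≃ₐ[ℂ] (B ⧸ m) := AlgEquiv.ofBijective (Algebra.ofId ℂ _) hbij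
  exact ⟨e.symm.toAlgHom.comp (Ideal.Quotient.mkₐ ℂ m)⟩

/-- every family has points over each point of a zero dimensional base -/
private theorem exists_fib {K : Type} [Field K] [Algebra ℂ K] {N g : ℕ} (F : Fam 0 N g K)
    (u : Fin 0 → ℂ) : ∃ v, v ∈ F.fib u := by
  have hft : Algebra.FiniteType ℂ (F.R 0) := by
    rw [← Subalgebra.fg_iff_finiteType]
    exact ⟨(Set.finite_range (co F.t F.x 0)).toFinset, by rw [Set.Finite.coe_toFinset]; rfl⟩
  obtain ⟨q⟩ := exists_pt (F.R 0)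
  have h : F.IsHom 0 u (fun l => q (F.Y 0 (Sum.inr l))) q := by
    intro s
    cases s with
    | inl a => exact a.elim0
    | inr l => rfl
  exact ⟨_, (F.mem_of_isHom h).1⟩

private theorem idn10 {K : Type} [Field K] {x y : K} (hx : x ≠ 0) :
    (x ^ 2)⁻¹ * -(2 * y) = -(2 * (y / x) * x⁻¹) := by
  field_simp

private theorem idn12 {K : Type} [Field K] {x y a b c : K} (hx : x ≠ 0)
    (h : y ^ 2 = x ^ 3 + a * x ^ 2 + b * x + c) :
    (x ^ 2)⁻¹ * (x * (3 * x ^ 2 + 2 * a * x + b) - y * (2 * y)) =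
      (y / x) ^ 2 - a - 2 * b * x⁻¹ - 3 * c * x⁻¹ ^ 2 := by
  field_simp
  linear_combination -3 * h

private theorem idn20 {K : Type} [Field K] {x y a b : K} (hy : y ≠ 0) :
    (y ^ 2)⁻¹ * (-b + (-(2 * a * x) + -(3 * x ^ 2))) =
      -(b * y⁻¹ ^ 2) + (-(2 * a * (x / y) * y⁻¹) + -(3 * (x / y) ^ 2)) := by
  field_simp

private theorem idn21 {K : Type} [Field K] {x y a b c : K} (hy : y ≠ 0)
    (h : y ^ 2 = x ^ 3 + a * x ^ 2 + b * x + c) :
    (y ^ 2)⁻¹ * (y * (2 * y) - x * (3 * x ^ 2 + 2 * a * x + b)) =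
      -1 + a * (x / y) ^ 2 + 2 * b * (x / y) * y⁻¹ + 3 * c * y⁻¹ ^ 2 := by
  field_simp
  linear_combination 3 * h

/-- The plane cubic `y² = x³ + a x² + b x + c` with its vector field `D x = 2 y`, `D y = 3 x² + 2 a x + b`. Proof. `K` is
the algebraic closure of `RatFunc ℂ`, `x = X`, `y` a square root of `x³ + a x² + b x + c`; there is `D₀` with `D₀ x = 1`
(`exists_derivation` in `Lib_MP_1209e6_ag/Der`, `Fin 1`), `D = (2 y) • D₀`; coordinates `![1, x, y]`, `t = Fin.elim0`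
(or `fun i => i.elim0`). The polynomials `P 0 j l` (`X l` for the coordinate `Sum.inr l`):
chart 0: `0`, `2 X 2`, `3 (X 1)^2 + 2 a X 1 + b`;
chart 1: `D (1/x) = - 2 (y/x) (1/x)`: `- 2 X 2 X 0`; `0`; `D (y/x) = (y/x)^2 - a - 2 b (1/x) - 3 c (1/x)^2`:
`(X 2)^2 - a - 2 b X 0 - 3 c (X 0)^2`;
chart 2: `D (1/y) = - (3 (x/y)^2 + 2 a (x/y) (1/y) + b (1/y)^2)`: `- (3 (X 1)^2 + 2 a X 1 X 0 + b (X 0)^2)`;
`D (x/y) = - 1 + a (x/y)^2 + 2 b (x/y) (1/y) + 3 c (1/y)^2`: `- 1 + a (X 1)^2 + 2 b X 1 X 0 + 3 c (X 0)^2`; `0`.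
A point of the fibre: the subalgebra of `K` generated by `x, y` is a finitely generated domain, so it has a
homomorphism `φ` to `ℂ` (`Pool.Agent.Lib_KF.exists_point`, `MP8178.exists_point_ne_zero`: copy), `v = (1, φ x, φ y)`,
`F.mem_fib_iff 0`. The cubic relation of a point `v` of the fibre: `v j ≠ 0` for some `j`, and the polynomial
`(X 2)^2 X 0 - (X 1)^3 - a (X 1)^2 X 0 - b X 1 (X 0)^2 - c (X 0)^3` vanishes at the coordinates `x_l / x_j`. -/
theorem exists_ellFam (a b c : ℂ) :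
    ∃ (K : Type) (_ : Field K) (_ : Algebra ℂ K) (F : Fam 0 2 1 K),
      (∀ u, ∃ v, v ∈ F.fib u) ∧
      (∀ u, ∀ v ∈ F.fib u, v 2 ^ 2 * v 0 =
        v 1 ^ 3 + a * v 1 ^ 2 * v 0 + b * v 1 * v 0 ^ 2 + c * v 0 ^ 3) ∧
      ∀ (u : Fin 0 → ℂ) (v : Fin 3 → ℂ),
        MvPolynomial.aeval (Sum.elim u v) (F.P 0 0 1) = 2 * v 2 ∧
        MvPolynomial.aeval (Sum.elim u v) (F.P 0 0 2) = 3 * v 1 ^ 2 + 2 * a * v 1 + b ∧
        MvPolynomial.aeval (Sum.elim u v) (F.P 0 2 1) =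
          -1 + a * v 1 ^ 2 + 2 * b * v 1 * v 0 + 3 * c * v 0 ^ 2 := by
  classical
  -- the field and the two functions
  have hcl : IsAlgClosed (AlgebraicClosure (RatFunc ℂ)) := inferInstance
  let K := AlgebraicClosure (RatFunc ℂ)
  let x : K := algebraMap (RatFunc ℂ) K RatFunc.X
  have hx : Transcendental ℂ x :=
    (transcendental_algebraMap_iff (FaithfulSMul.algebraMap_injective (RatFunc ℂ) K)).2
      RatFunc.transcendental_X
  let κ : ℂ → K := algebraMap ℂ K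
  obtain ⟨y, hy⟩ := IsAlgClosed.exists_pow_nat_eq (x ^ 3 + κ a * x ^ 2 + κ b * x + κ c)
    (n := 2) (by norm_num)
  have hx0 : x ≠ 0 := fun h0 => hx (by rw [h0]; exact isAlgebraic_zero)
  have hy0 : y ≠ 0 := by
    intro h0
    apply hx
    rw [h0] at hy
    refine ⟨Polynomial.X ^ 3 + Polynomial.C a * Polynomial.X ^ 2 + Polynomial.C b * Polynomial.X +
      Polynomial.C c, ?_, ?_⟩
    · intro h
      have h1 := congrArg (fun p => Polynomial.coeff p 3) h
      simp at h1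
    · simp only [map_add, map_mul, map_pow, Polynomial.aeval_X, Polynomial.aeval_C]
      rw [← hy]
      norm_num
  obtain ⟨D₀, hD₀⟩ := Pool.Agent.Campana.exists_derivation (fun _ : Fin 1 => x)
    (algebraicIndependent_unique_type_iff.2 hx) (fun _ => (1 : K))
  have hD₀x : D₀ x = 1 := hD₀ 0
  have hκ : ∀ (D : Derivation ℂ K K) (e : ℂ), D (κ e) = 0 := fun D e => D.map_algebraMap e
  have hD₀y : 2 * y * D₀ y = 3 * x ^ 2 + 2 * κ a * x + κ b := by
    have h1 := congrArg D₀ hy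
    simp only [map_add, Derivation.leibniz, Derivation.leibniz_pow, hκ, hD₀x, smul_eq_mul,
      nsmul_eq_mul] at h1
    push_cast at h1
    linear_combination h1
  let D : Derivation ℂ K K := (2 * y) • D₀
  have hDx : D x = 2 * y := by
    change (2 * y) * D₀ x = 2 * y
    rw [hD₀x, mul_one]
  have hDy : D y = 3 * x ^ 2 + 2 * κ a * x + κ b := hD₀y
  have hD1 : D 1 = 0 := D.map_one_eq_zero
  let X : Fin 3 → K := ![1, x, y]
  have hX : ∀ l, X l ≠ 0 := by
    intro l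
    fin_cases l
    · exact one_ne_zero
    · exact hx0
    · exact hy0
  let t : Fin 0 → K := fun i => i.elim0
  have hEX : ∀ j l, D (X l / X j) = MvPolynomial.aeval (co t X j) (ellP a b c j l) := by
    intro j l
    rw [Derivation.leibniz_div]
    fin_cases j <;> fin_cases l <;> simp [ellP, X, co, hDx, hDy]
    · rfl
    · exact idn10 hx0
    · exact idn12 hx0 hy
    · exact idn20 hy0
    · exact idn21 hy0 hy
  refine ⟨K, inferInstance, inferInstance,
    { t := t, x := X, E := fun _ => D, P := fun _ j l => ellP a b c j l, x_ne := hX,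
      Et := fun _ a => a.elim0, EX := fun _ j l => hEX j l, comm := fun _ _ _ => rfl },
    exists_fib _, ?_, ?_⟩
  · intro u v hv
    obtain ⟨j, hj⟩ := Function.ne_iff.1 hv.1
    have hj' : v j ≠ 0 := hj
    let X' : Fin 3 → MvPolynomial (Fin 0 ⊕ Fin 3) ℂ := fun l => MvPolynomial.X (Sum.inr l)
    have h1 := hv.2 j hj' (X' 2 ^ 2 * X' 0 - (X' 1 ^ 3 + MvPolynomial.C a * X' 1 ^ 2 * X' 0 +
      MvPolynomial.C b * X' 1 * X' 0 ^ 2 + MvPolynomial.C c * X' 0 ^ 3)) (by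
        simp only [X', map_sub, map_add, map_mul, map_pow, MvPolynomial.aeval_X, co,
          MvPolynomial.algHom_C, Sum.elim_inr]
        change (y / X j) ^ 2 * (1 / X j) - ((x / X j) ^ 3 + κ a * (x / X j) ^ 2 * (1 / X j) +
          κ b * (x / X j) * (1 / X j) ^ 2 + κ c * (1 / X j) ^ 3) = 0
        have h3 : (y / X j) ^ 2 * (1 / X j) - ((x / X j) ^ 3 + κ a * (x / X j) ^ 2 * (1 / X j) +
          κ b * (x / X j) * (1 / X j) ^ 2 + κ c * (1 / X j) ^ 3) =
          (1 / X j) ^ 3 * (y ^ 2 - (x ^ 3 + κ a * x ^ 2 + κ b * x + κ c)) := by ring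
        rw [h3, hy, sub_self, mul_zero])
    simp only [X', map_sub, map_add, map_mul, map_pow, MvPolynomial.aeval_X, co,
      MvPolynomial.algHom_C, Sum.elim_inr] at h1
    change (v 2 / v j) ^ 2 * (v 0 / v j) - ((v 1 / v j) ^ 3 + a * (v 1 / v j) ^ 2 * (v 0 / v j) +
      b * (v 1 / v j) * (v 0 / v j) ^ 2 + c * (v 0 / v j) ^ 3) = 0 at h1
    field_simp at h1
    linear_combination h1
  · intro u v
    refine ⟨?_, ?_, ?_⟩
    · simp [ellP]
    · simp [ellP]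
    · simp [ellP]


end Pool.Agent.AbPencil
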