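import Pool.Agent.Lib_MP_1209e6_sp.Defs

/-! PIECE F: truncated expansions at a place. -/

set_option autoImplicit false

namespace Pool.Agent.AbPencil

open Pool.Agent.Campana Polynomial

/-- Proof. `κ` is the residue field of `O`, `π` an element of order 1, `m` the maximal ideal
(generated by `π`), `R = O ⧸ m^(L+1)`. `κ` is formally smooth over `ℂ`
(`exists_isTranscendenceBasis`, `Algebra.FormallySmooth.of_algebraicIndependent_of_isSeparable`), so the
surjection `R → κ` of `ℂ`-algebras with nilpotent kernel has a section `σ : κ →ₐ[ℂ] R`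
(`Algebra.FormallySmooth.exists_lift` or `liftOfSurjective`; `O` is a `ℂ`-algebra by `hO.1`). The homomorphism
`ev : κ[X] → R`, `X ↦ π`, is surjective (`R = σ(κ) + π R`, iterate) with kernel `(X^(L+1))`: if
`p = X^j (c + X …)` with `c ≠ 0`, `j ≤ L`, then `ev p` is the class of an element of order exactly `j`.
For `x ∈ O` let `θ x` be a preimage of the class of `x` (`0` for `x ∉ O`). More generally `X^s ∣ p` iff
`ev p` is the class of an element of order `≥ s`, for `s ≤ L + 1`. -/
theorem exists_trunc {K : Type} [Field K] [Algebra ℂ K] (O : ValuationSubring K) (hO : IsPlace O)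
    (v : K → ℤ) (hv : IsOrd O v) (L : ℕ) :
    ∃ (κ : Type) (_ : Field κ) (_ : Algebra ℂ κ) (θ : K → κ[X]), IsTrunc O v L θ := by
  sorry

end Pool.Agent.AbPencil
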