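import Pool.Agent.Lib_MP_1209e6_sp.P0
import Pool.Agent.Lib_MP_1209e6_sp.P2
import Pool.Agent.Lib_MP_1209e6_sp.B
import Pool.Agent.Lib_MP_1209e6_sp.C
import Pool.Agent.Lib_MP_1209e6_sp.D
import Pool.Agent.Lib_MP_1209e6_sp.U6
import Pool.Agent.Lib_MP_1209e6_sp.E2
import Pool.Agent.Lib_MP_1209e6_ab.Main2
import Pool.Agent.Lib_MP_1209e6_fl.W4

/-! Assembly. -/

set_option autoImplicit false

open Filter Topology

namespace Pool.Agent.AbPencil

open Pool.Agent.Campana Pool.Agent.CampanaFlow Pool.Agent.AbFib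

theorem par_transcendental {K : Type} [Field K] [Algebra ℂ K] (T : K) (hT : Transcendental ℂ T)
    (b : Option ℂ) : Transcendental ℂ (par T b) := by
  intro hA
  apply hT
  cases b with
  | none =>
    have h1 : IsAlgebraic ℂ (T⁻¹) := hA
    exact IsAlgebraic.inv_iff.1 h1
  | some c =>
    have h1 : IsAlgebraic ℂ (T - algebraMap ℂ K c) := hA
    have h2 := h1.add (isAlgebraic_algebraMap (R := ℂ) (A := K) c)
    rwa [sub_add_cancel] at h2

/-- Special abelian pencils have a Zariski dense entire curve. -/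
theorem main {m N : ℕ} (P : Ideal (MvPolynomial (Fin (m + 1)) ℂ)) [P.IsPrime] (hP : IsVariety P)
    (T : FunField P) (hT : Transcendental ℂ T) (x : Fin (N + 1) → FunField P)
    (h : IsAbelianFibration (fun _ : Fin 1 => T) x) (hs : SpecialField (FunField P)) :
    BrodySpecial P := by
  classical
  obtain ⟨T₀, hT₀⟩ := funField_fg P
  -- the inf-multiplicities
  let Q : Option ℂ → ℕ → Prop := fun b e => ∃ (O : ValuationSubring (FunField P))
    (v : FunField P → ℤ), IsPlace O ∧ IsOrd O v ∧ 1 ≤ e ∧ v (par T b) = e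
  have hQ : ∀ b, ∃ e, Q b e := by
    intro b
    obtain ⟨O, v, hO, hv, h1⟩ := exists_place_over T₀ hT₀ (par T b) (par_transcendental T hT b)
    obtain ⟨e, he⟩ := Int.eq_ofNat_of_zero_le (by omega : (0 : ℤ) ≤ v (par T b))
    exact ⟨e, O, v, hO, hv, by omega, he⟩
  let μ : Option ℂ → ℕ := fun b => Nat.find (hQ b)
  have h1 : ∀ b, 1 ≤ μ b := by
    intro b
    obtain ⟨O, v, hO, hv, h1, h2⟩ := Nat.find_spec (hQ b)
    exact h1
  have h2 : ∀ (b : Option ℂ) (O : ValuationSubring (FunField P)) (v : FunField P → ℤ),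
      IsPlace O → IsOrd O v → 1 ≤ v (par T b) → (μ b : ℤ) ≤ v (par T b) := by
    intro b O v hO hv h3
    obtain ⟨e, he⟩ := Int.eq_ofNat_of_zero_le (by omega : (0 : ℤ) ≤ v (par T b))
    rw [he]
    have h4 : Nat.find (hQ b) ≤ e := Nat.find_min' (hQ b) ⟨O, v, hO, hv, by omega, he⟩
    exact_mod_cast h4
  have h3 := special_bound T hT hs μ h1 h2
  obtain ⟨u, hu⟩ := exists_ram ellCurve μ h1 h3
  have h4 : ∀ b, HasArc T x b (μ b) := by
    intro b
    obtain ⟨O, v, hO, hv, h5, h6⟩ := Nat.find_spec (hQ b)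
    exact hasArc_of_place T₀ hT₀ T hT x h.ne_zero b O hO v hv (μ b) h5 h6
  exact (main_iff P hP (fun _ : Fin 1 => T) x h).2
    ⟨fun z _ => u z, dense_of_ram T hT μ h1 u hu, lifts_of_arcs T x μ h1 h4 u hu⟩

end Pool.Agent.AbPencil
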