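import Pool.Agent.Lib_MP_b9fedf_ag.Green

/-! PIECE N1: Nevanlinna's second main theorem with truncation, for several targets. -/

set_option autoImplicit false

namespace Pool.Agent.AbPencil
open Pool.Agent.GGL
open Filter Metric Real Set Function MeromorphicOn ValueDistribution

/-- A system of entire functions `F k` (the functions `g₁ - c g₀` and `g₀`), any two of which span the
others, with all two by two Wronskians proportional to `W`. -/
structure Sys {ι : Type} (F : ι → ℂ → ℂ) (W : ℂ → ℂ) (κ : ι → ι → ℂ) (α β : ι → ι → ι → ℂ) : Prop where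
  diff : ∀ k, Differentiable ℂ (F k)
  ne : ∀ k, ∃ z, F k z ≠ 0
  Wdiff : Differentiable ℂ W
  Wne : ∃ z, W z ≠ 0
  κne : ∀ a b, a ≠ b → κ a b ≠ 0
  κW : ∀ a b, a ≠ b → ∀ z, F a z * deriv (F b) z - F b z * deriv (F a) z = κ a b * W z
  span : ∀ a b, a ≠ b → ∀ c z, F c z = α a b c * F a z + β a b c * F b z

variable {ι : Type} [Fintype ι] {F : ι → ℂ → ℂ} {W : ℂ → ℂ} {κ : ι → ι → ℂ}
  {α β : ι → ι → ι → ℂ}

/-- the pointwise inequality -/
theorem smt_pointwise (h : Sys F W κ α β) (hq : 2 ≤ Fintype.card ι) (j0 : ι) :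
    ∃ C : ℝ, ∀ (z : ℂ) (B : ℝ), 1 ≤ B → (∀ k, F k z ≠ 0) → W z ≠ 0 →
      (∀ k, AnalyticAt ℂ (fun z => F k z / F j0 z) z →
        ‖deriv (fun z => F k z / F j0 z) z‖ ≤ Real.exp 1 * B * ‖F k z / F j0 z‖) →
      ((Fintype.card ι : ℝ) - 2) * Real.log ‖fun k => F k z‖ ≤
        ∑ k, Real.log ‖F k z‖ - Real.log ‖W z‖ + (C + Real.log B) := by
  classical
  set q : ℝ := (Fintype.card ι : ℝ) with hqdef
  set K : ℝ := 1 + ∑ a, ∑ b, ∑ c, (‖α a b c‖ + ‖β a b c‖) with hK
  set K₂ : ℝ := 1 + ∑ a, ∑ b, ‖κ a b‖⁻¹ with hK₂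
  have hK1 : 1 ≤ K := by
    rw [hK]
    have : 0 ≤ ∑ a, ∑ b, ∑ c, (‖α a b c‖ + ‖β a b c‖) :=
      Finset.sum_nonneg fun a _ => Finset.sum_nonneg fun b _ => Finset.sum_nonneg fun c _ => by positivity
    linarith
  have hK₂1 : 1 ≤ K₂ := by
    rw [hK₂]
    have : 0 ≤ ∑ a, ∑ b, ‖κ a b‖⁻¹ :=
      Finset.sum_nonneg fun a _ => Finset.sum_nonneg fun b _ => by positivity
    linarith
  have hKle : ∀ a b c, ‖α a b c‖ + ‖β a b c‖ ≤ K := by
    intro a b c
    have h1 : ‖α a b c‖ + ‖β a b c‖ ≤ ∑ c, (‖α a b c‖ + ‖β a b c‖) :=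
      Finset.single_le_sum (f := fun c => ‖α a b c‖ + ‖β a b c‖) (fun c _ => by positivity)
        (Finset.mem_univ c)
    have h2 : ∑ c, (‖α a b c‖ + ‖β a b c‖) ≤ ∑ b, ∑ c, (‖α a b c‖ + ‖β a b c‖) :=
      Finset.single_le_sum (f := fun b => ∑ c, (‖α a b c‖ + ‖β a b c‖))
        (fun b _ => Finset.sum_nonneg fun c _ => by positivity) (Finset.mem_univ b)
    have h3 : ∑ b, ∑ c, (‖α a b c‖ + ‖β a b c‖) ≤ ∑ a, ∑ b, ∑ c, (‖α a b c‖ + ‖β a b c‖) :=
      Finset.single_le_sum (f := fun a => ∑ b, ∑ c, (‖α a b c‖ + ‖β a b c‖))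
        (fun a _ => Finset.sum_nonneg fun b _ => Finset.sum_nonneg fun c _ => by positivity)
        (Finset.mem_univ a)
    rw [hK]; linarith
  have hκle : ∀ a b, ‖κ a b‖⁻¹ ≤ K₂ := by
    intro a b
    have h1 : ‖κ a b‖⁻¹ ≤ ∑ b, ‖κ a b‖⁻¹ :=
      Finset.single_le_sum (f := fun b => ‖κ a b‖⁻¹) (fun c _ => by positivity) (Finset.mem_univ b)
    have h2 : ∑ b, ‖κ a b‖⁻¹ ≤ ∑ a, ∑ b, ‖κ a b‖⁻¹ :=
      Finset.single_le_sum (f := fun a => ∑ b, ‖κ a b‖⁻¹)
        (fun a _ => Finset.sum_nonneg fun b _ => by positivity) (Finset.mem_univ a)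
    rw [hK₂]; linarith
  refine ⟨(q - 1) * Real.log K + Real.log K₂ + Real.log (2 * Real.exp 1), ?_⟩
  intro z B hB hz hWz hder
  have hpos : ∀ k, 0 < ‖F k z‖ := fun k => norm_pos_iff.2 (hz k)
  have hne : Nonempty ι := ⟨j0⟩
  -- the smallest function
  obtain ⟨j, -, hj⟩ := Finset.exists_min_image Finset.univ (fun k => ‖F k z‖) ⟨j0, Finset.mem_univ _⟩
  have hj' : ∀ k, ‖F j z‖ ≤ ‖F k z‖ := fun k => hj k (Finset.mem_univ k)
  obtain ⟨k, hkj⟩ : ∃ k, k ≠ j := by
    have : 1 < Fintype.card ι := by omega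
    exact Fintype.exists_ne_of_one_lt_card this j
  have hnorm : ∀ b, b ≠ j → ‖fun k => F k z‖ ≤ K * ‖F b z‖ := by
    intro b hb
    refine (pi_norm_le_iff_of_nonneg (by positivity)).2 fun c => ?_
    rw [h.span j b (Ne.symm hb) c z]
    calc ‖α j b c * F j z + β j b c * F b z‖ ≤ ‖α j b c‖ * ‖F j z‖ + ‖β j b c‖ * ‖F b z‖ := by
          refine (norm_add_le _ _).trans ?_
          rw [norm_mul, norm_mul]
      _ ≤ ‖α j b c‖ * ‖F b z‖ + ‖β j b c‖ * ‖F b z‖ := by
          have := mul_le_mul_of_nonneg_left (hj' b) (norm_nonneg (α j b c))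
          linarith
      _ = (‖α j b c‖ + ‖β j b c‖) * ‖F b z‖ := by ring
      _ ≤ K * ‖F b z‖ := mul_le_mul_of_nonneg_right (hKle j b c) (norm_nonneg _)
  have hFpos : 0 < ‖fun k => F k z‖ :=
    lt_of_lt_of_le (hpos j) (norm_le_pi_norm (fun k => F k z) j)
  -- the logarithmic derivatives
  have han : ∀ k, AnalyticAt ℂ (F k) z := fun k => (h.diff k).analyticAt z
  have hlog : ∀ b, ‖deriv (F b) z * F j0 z - F b z * deriv (F j0) z‖ ≤
      Real.exp 1 * B * (‖F b z‖ * ‖F j0 z‖) := by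
    intro b
    have h1 := hder b ((han b).fun_div (han j0) (hz j0))
    have h2 : deriv (fun z => F b z / F j0 z) z =
        (deriv (F b) z * F j0 z - F b z * deriv (F j0) z) / F j0 z ^ 2 := by
      exact deriv_fun_div ((h.diff b) z) ((h.diff j0) z) (hz j0)
    rw [h2, norm_div, norm_pow, norm_div, div_le_iff₀ (by have := hpos j0; positivity)] at h1
    refine h1.trans (le_of_eq ?_)
    have := (hpos j0).ne'
    field_simp
  have hWle : ‖W z‖ ≤ K₂ * (2 * Real.exp 1 * B) * (‖F j z‖ * ‖fun k => F k z‖) := by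
    have h1 : F j0 z * (κ j k * W z) =
        F j z * (deriv (F k) z * F j0 z - F k z * deriv (F j0) z) -
        F k z * (deriv (F j) z * F j0 z - F j z * deriv (F j0) z) := by
      rw [← h.κW j k (Ne.symm hkj) z]; ring
    have h2 : ‖F j0 z‖ * (‖κ j k‖ * ‖W z‖) ≤
        ‖F j0 z‖ * (2 * Real.exp 1 * B * (‖F j z‖ * ‖F k z‖)) := by
      calc ‖F j0 z‖ * (‖κ j k‖ * ‖W z‖) = ‖F j0 z * (κ j k * W z)‖ := by rw [norm_mul, norm_mul]
        _ ≤ ‖F j z * (deriv (F k) z * F j0 z - F k z * deriv (F j0) z)‖ +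
            ‖F k z * (deriv (F j) z * F j0 z - F j z * deriv (F j0) z)‖ := by
            rw [h1]; exact norm_sub_le _ _
        _ ≤ ‖F j z‖ * (Real.exp 1 * B * (‖F k z‖ * ‖F j0 z‖)) +
            ‖F k z‖ * (Real.exp 1 * B * (‖F j z‖ * ‖F j0 z‖)) := by
            rw [norm_mul, norm_mul]
            exact add_le_add (mul_le_mul_of_nonneg_left (hlog k) (norm_nonneg _))
              (mul_le_mul_of_nonneg_left (hlog j) (norm_nonneg _))
        _ = _ := by ring
    have h3 := le_of_mul_le_mul_left h2 (hpos j0)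
    have hκpos : 0 < ‖κ j k‖ := norm_pos_iff.2 (h.κne j k (Ne.symm hkj))
    have h4 : ‖W z‖ ≤ ‖κ j k‖⁻¹ * (2 * Real.exp 1 * B * (‖F j z‖ * ‖F k z‖)) := by
      rw [inv_mul_eq_div, le_div_iff₀ hκpos]
      linarith
    have h5 : ‖F k z‖ ≤ ‖fun k => F k z‖ := norm_le_pi_norm (fun k => F k z) k
    have he : 0 < Real.exp 1 := Real.exp_pos 1
    calc ‖W z‖ ≤ ‖κ j k‖⁻¹ * (2 * Real.exp 1 * B * (‖F j z‖ * ‖F k z‖)) := h4
      _ ≤ K₂ * (2 * Real.exp 1 * B * (‖F j z‖ * ‖F k z‖)) :=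
          mul_le_mul_of_nonneg_right (hκle j k) (by positivity)
      _ ≤ K₂ * (2 * Real.exp 1 * B * (‖F j z‖ * ‖fun k => F k z‖)) := by
          apply mul_le_mul_of_nonneg_left _ (by linarith)
          apply mul_le_mul_of_nonneg_left _ (by positivity)
          exact mul_le_mul_of_nonneg_left h5 (norm_nonneg _)
      _ = _ := by ring
  have he : 0 < Real.exp 1 := Real.exp_pos 1
  have hlogW : Real.log ‖W z‖ ≤ Real.log K₂ + (Real.log (2 * Real.exp 1) + Real.log B) +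
      (Real.log ‖F j z‖ + Real.log ‖fun k => F k z‖) := by
    have h1 := Real.log_le_log (norm_pos_iff.2 hWz) hWle
    rw [Real.log_mul (by positivity) (by have := hpos j; positivity),
      Real.log_mul (by positivity) (by positivity), Real.log_mul (by positivity) (by positivity),
      Real.log_mul (hpos j).ne' hFpos.ne'] at h1
    exact h1
  have hsum : Real.log ‖F j z‖ + (q - 1) * (Real.log ‖fun k => F k z‖ - Real.log K) ≤
      ∑ k, Real.log ‖F k z‖ := by
    rw [← Finset.add_sum_erase Finset.univ _ (Finset.mem_univ j)]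
    apply add_le_add le_rfl
    have h1 : ∀ b ∈ Finset.univ.erase j, Real.log ‖fun k => F k z‖ - Real.log K ≤
        Real.log ‖F b z‖ := by
      intro b hb
      have h2 := Real.log_le_log hFpos (hnorm b (Finset.ne_of_mem_erase hb))
      rw [Real.log_mul (by linarith) (hpos b).ne'] at h2
      linarith
    have h2 := Finset.sum_le_sum h1
    rw [Finset.sum_const, Finset.card_erase_of_mem (Finset.mem_univ j), Finset.card_univ,
      nsmul_eq_mul, Nat.cast_sub (by omega)] at h2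
    push_cast at h2
    exact h2
  linarith

end Pool.Agent.AbPencil
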