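import Pool.Agent.Lib_MP_1209e6_sp.N1

/-! PIECE N2: the second main theorem, integrated, and the divisor inequality. -/

set_option autoImplicit false

namespace Pool.Agent.AbPencil
open Pool.Agent.GGL
open Filter Metric Real Set Function MeromorphicOn ValueDistribution

variable {ι : Type} [Fintype ι] [Nonempty ι] {F : ι → ℂ → ℂ} {W : ℂ → ℂ} {κ : ι → ι → ℂ}
  {α β : ι → ι → ι → ℂ}

theorem smt (h : Sys F W κ α β) (hq : 2 ≤ Fintype.card ι) (j0 : ι) :
    ∃ C : ℝ, ∀ r B : ℝ, 1 ≤ r → 1 ≤ B →
      (∀ k, ∀ z ∈ sphere (0 : ℂ) r, AnalyticAt ℂ (fun z => F k z / F j0 z) z → ∀ i : ℕ,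
        ‖iteratedDeriv i (fun z => F k z / F j0 z) z‖ ≤
        Real.exp 1 * i.factorial * B ^ i * ‖F k z / F j0 z‖) →
      ((Fintype.card ι : ℝ) - 2) * TC F r ≤ Function.locallyFinsuppWithin.logCounting
        (∑ k, Dv (F k) - Dv W - (Fintype.card ι - 2) • minDv (fun k => Dv (F k))) r +
        C + Real.log B := by
  classical
  obtain ⟨C, hC⟩ := smt_pointwise h hq j0
  refine ⟨∑ k, Real.log ‖meromorphicTrailingCoeffAt (F k) 0‖ -
    Real.log ‖meromorphicTrailingCoeffAt W 0‖ + C, ?_⟩
  intro r B hr hB hG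
  have hr0 : 0 < r := by linarith
  have hkI : ∀ k, CircleIntegrable (fun z => Real.log ‖F k z‖) 0 r := fun k =>
    log_integrable (mero_of_diff (h.diff k)) r
  have hsI : CircleIntegrable (fun z => ∑ k, Real.log ‖F k z‖) 0 r := by
    have := CircleIntegrable.sum Finset.univ (f := fun k z => Real.log ‖F k z‖)
      (c := 0) (R := r) (fun k _ => hkI k)
    convert! this using 1
    ext z
    simp
  have hWI := log_integrable (mero_of_diff h.Wdiff) r
  have hvI := vec_integrable h.diff r
  have hqI : CircleIntegrable (fun z => ((Fintype.card ι : ℝ) - 2) * Real.log ‖fun k => F k z‖) 0 r :=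
    hvI.const_smul (a := ((Fintype.card ι : ℝ) - 2))
  have h1 : circleAverage (fun z => ((Fintype.card ι : ℝ) - 2) * Real.log ‖fun k => F k z‖) 0 r ≤
      circleAverage (fun z => (∑ k, Real.log ‖F k z‖ - Real.log ‖W z‖) + (C + Real.log B)) 0 r := by
    apply circleAverage_mono_codiscrete hr0 hqI
      ((hsI.sub hWI).add (circleIntegrable_const _ _ _))
    have h2 : ∀ᶠ z in codiscreteWithin (sphere (0 : ℂ) r), ∀ k, F k z ≠ 0 :=
      Filter.eventually_all.mpr fun k => nonzero_codiscrete (h.diff k) (h.ne k) r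
    filter_upwards [h2, nonzero_codiscrete h.Wdiff h.Wne r, self_mem_codiscreteWithin _] with z hz hWz hzs
    refine hC z B hB hz hWz fun k han => ?_
    have h3 := hG k z hzs han 1
    rw [iteratedDeriv_one] at h3
    simpa using h3
  have h2 : circleAverage (fun z => ((Fintype.card ι : ℝ) - 2) * Real.log ‖fun k => F k z‖) 0 r =
      ((Fintype.card ι : ℝ) - 2) * circleAverage (fun z => Real.log ‖fun k => F k z‖) 0 r := by
    have := circleAverage_fun_smul (a := ((Fintype.card ι : ℝ) - 2))
      (f := fun z => Real.log ‖fun k => F k z‖) (c := 0) (R := r)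
    simpa [smul_eq_mul] using this
  have hsWI : CircleIntegrable (fun z => ∑ k, Real.log ‖F k z‖ - Real.log ‖W z‖) 0 r := hsI.sub hWI
  rw [h2, circleAverage_fun_add hsWI (circleIntegrable_const _ _ _), circleAverage_const,
    circleAverage_fun_sub hsI hWI, circleAverage_fun_sum (fun k _ => hkI k)] at h1
  have h3 : ∑ k, circleAverage (fun z => Real.log ‖F k z‖) 0 r =
      Function.locallyFinsuppWithin.logCounting (∑ k, Dv (F k)) r +
        ∑ k, Real.log ‖meromorphicTrailingCoeffAt (F k) 0‖ := by
    rw [map_sum, Finset.sum_apply, ← Finset.sum_add_distrib]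
    exact Finset.sum_congr rfl fun k _ => jensen (mero_of_diff (h.diff k)) hr
  rw [h3, jensen (mero_of_diff h.Wdiff) hr] at h1
  rw [TC, map_sub, map_sub, Pi.sub_apply, Pi.sub_apply, map_nsmul, Pi.smul_apply, nsmul_eq_mul,
    Nat.cast_sub hq]
  push_cast
  linarith

/-- the order of the Wronskian of a pair -/
theorem ord_W (h : Sys F W κ α β) (a : ℂ) (k b : ι) (hkb : k ≠ b) (c o : ℕ)
    (hk : analyticOrderAt (F k) a = c) (hb : analyticOrderAt (F b) a = o) (hco : c ≤ o) :
    ((2 * c + (o - c - 1) : ℕ) : ℕ∞) ≤ analyticOrderAt W a := by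
  classical
  have hWr : ∀ z, κ k b * W z = Wr ![F k, F b] z := by
    intro z
    rw [← h.κW k b hkb z]
    unfold Wr
    rw [Matrix.det_fin_two]
    simp [iteratedDeriv_zero, iteratedDeriv_one]
  have hg0 : ∃ z, -(F k z + F b z) ≠ 0 := by
    by_contra hcon
    push Not at hcon
    -- then `F b = - F k` and the Wronskian vanishes
    obtain ⟨z, hz⟩ := h.Wne
    have h1 : F b = fun z => - F k z := by
      funext z
      have := hcon z
      rw [neg_eq_zero] at this
      exact eq_neg_of_add_eq_zero_right this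
    have h2 := h.κW k b hkb z
    rw [h1] at h2
    have h3 : deriv (fun z => - F k z) z = - deriv (F k) z := deriv.fun_neg
    rw [h3] at h2
    have h4 : κ k b * W z = 0 := by rw [← h2]; ring
    exact (mul_ne_zero (h.κne k b hkb) hz) h4
  set g : Fin 3 → ℂ → ℂ := ![fun z => -(F k z + F b z), F k, F b] with hg
  have hgd : ∀ i, Differentiable ℂ (g i) := by
    intro i
    fin_cases i
    · exact ((h.diff k).add (h.diff b)).neg
    · exact h.diff k
    · exact h.diff b
  obtain ⟨o₀, ho₀⟩ := ENat.ne_top_iff_exists.1 (order_ne_top (hgd 0) hg0 a)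
  have hco0 : c ≤ o₀ := by
    have h1 : (c : ℕ∞) ≤ analyticOrderAt (fun z => -(F k z + F b z)) a := by
      have e1 : (fun z => -(F k z + F b z)) = -(F k + F b) := rfl
      rw [e1, analyticOrderAt_neg]
      refine le_trans ?_ le_analyticOrderAt_add
      rw [hk, hb]
      exact le_min le_rfl (by exact_mod_cast hco)
    have h2 : analyticOrderAt (fun z => -(F k z + F b z)) a = o₀ := ho₀.symm
    rw [h2] at h1
    exact_mod_cast h1
  have h1 := order_Wr (m := 2) g a (fun i => (hgd i).analyticAt a)
    (Filter.Eventually.of_forall fun z => by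
      rw [Fin.sum_univ_three]
      simp only [hg, Matrix.cons_val_zero, Matrix.cons_val_one, Matrix.cons_val]
      ring) ![o₀, c, o]
    (by
      intro i
      fin_cases i
      · exact ho₀.symm
      · exact hk
      · exact hb) c
    (by
      intro i
      fin_cases i
      · exact hco0
      · exact le_rfl
      · exact hco) ⟨1, rfl⟩
  have h2 : (Wr fun i : Fin 2 => g i.succ) = fun z => κ k b * W z := by
    funext z
    rw [hWr z]
    rfl
  rw [h2] at h1
  have h3 : analyticOrderAt (fun z => κ k b * W z) a = analyticOrderAt W a := by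
    have e1 : (fun z => κ k b * W z) = (fun _ : ℂ => κ k b) * W := rfl
    rw [e1, analyticOrderAt_mul analyticAt_const (h.Wdiff.analyticAt a)]
    have : analyticOrderAt (fun _ : ℂ => κ k b) a = 0 :=
      (analyticAt_const.analyticOrderAt_eq_zero).2 (h.κne k b hkb)
    rw [this, zero_add]
  rw [h3] at h1
  refine le_trans ?_ h1
  have h4 : 2 * c + (o - c - 1) ≤ 2 * c + ∑ k : Fin 3, ((![o₀, c, o] : Fin 3 → ℕ) k - c - (2 - 1)) := by
    rw [Fin.sum_univ_three]
    simp only [Matrix.cons_val_zero, Matrix.cons_val_one, Matrix.cons_val]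
    omega
  exact_mod_cast h4

/-- the divisor inequality: truncation -/
theorem smt_divisor_le (h : Sys F W κ α β) (hq : 2 ≤ Fintype.card ι) (a : ℂ) :
    (∑ k, Dv (F k) - Dv W - (Fintype.card ι - 2) • minDv (fun k => Dv (F k))) a ≤
      ∑ k, min (Dv (F k) a - minDv (fun k => Dv (F k)) a) 1 := by
  classical
  set o : ι → ℕ := fun k => (analyticOrderAt (F k) a).toNat with ho
  have ho1 : ∀ k, analyticOrderAt (F k) a = o k := fun k =>
    (ENat.natCast_toNat (order_ne_top (h.diff k) (h.ne k) a)).symm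
  have hD : ∀ k, Dv (F k) a = (o k : ℤ) := fun k => Dv_apply (h.diff k) a
  obtain ⟨k0, hk0⟩ := exists_minDv (fun k => Dv (F k)) a
  have hc : minDv (fun k => Dv (F k)) a = (o k0 : ℤ) := by rw [hk0, hD]
  have hcle : ∀ k, o k0 ≤ o k := by
    intro k
    have := minDv_le (fun k => Dv (F k)) k a
    rw [hc, hD] at this
    exact_mod_cast this
  obtain ⟨w, hw⟩ := ENat.ne_top_iff_exists.1 (order_ne_top h.Wdiff h.Wne a)
  have hDW : Dv W a = (w : ℤ) := by
    rw [Dv_apply h.Wdiff a, ← hw]; rfl
  -- at most one function has a larger order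
  have huniq : ∀ b b', b ≠ b' → o k0 < o b → o k0 < o b' → False := by
    intro b b' hbb' h1 h2
    have h3 : F k0 = (fun z => α b b' k0 * F b z) + (fun z => β b b' k0 * F b' z) := by
      funext z
      exact h.span b b' hbb' k0 z
    have h4 : ((o k0 + 1 : ℕ) : ℕ∞) ≤ analyticOrderAt (F k0) a := by
      rw [h3]
      refine le_trans ?_ le_analyticOrderAt_add
      apply le_min
      · have e1 : (fun z => α b b' k0 * F b z) = (fun _ : ℂ => α b b' k0) * F b := rfl
        rw [e1, analyticOrderAt_mul analyticAt_const ((h.diff b).analyticAt a), ho1 b]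
        have : ((o k0 + 1 : ℕ) : ℕ∞) ≤ (o b : ℕ∞) := by exact_mod_cast h1
        exact this.trans le_add_self
      · have e1 : (fun z => β b b' k0 * F b' z) = (fun _ : ℂ => β b b' k0) * F b' := rfl
        rw [e1, analyticOrderAt_mul analyticAt_const ((h.diff b').analyticAt a), ho1 b']
        have : ((o k0 + 1 : ℕ) : ℕ∞) ≤ (o b' : ℕ∞) := by exact_mod_cast h2
        exact this.trans le_add_self
    rw [ho1 k0] at h4
    have : o k0 + 1 ≤ o k0 := by exact_mod_cast h4
    omega
  rw [locallyFinsuppWithin.coe_sub, locallyFinsuppWithin.coe_sub, Pi.sub_apply, Pi.sub_apply,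
    locallyFinsuppWithin.coe_sum, Finset.sum_apply, locallyFinsuppWithin.coe_nsmul, Pi.smul_apply,
    nsmul_eq_mul, hc, hDW]
  simp_rw [hD]
  by_cases hall : ∀ k, o k = o k0
  · -- all orders are equal
    obtain ⟨b, hb⟩ : ∃ b, b ≠ k0 := by
      have : 1 < Fintype.card ι := by omega
      exact Fintype.exists_ne_of_one_lt_card this k0
    have h1 := ord_W h a k0 b (Ne.symm hb) (o k0) (o b) (ho1 k0) (ho1 b) (hcle b)
    rw [← hw] at h1
    have h2 : 2 * o k0 + (o b - o k0 - 1) ≤ w := by exact_mod_cast h1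
    have h3 : ∑ k, ((o k : ℕ) : ℤ) = Fintype.card ι * (o k0 : ℤ) := by
      rw [Finset.sum_congr rfl fun k _ => by rw [hall k], Finset.sum_const, Finset.card_univ,
        nsmul_eq_mul]
    have h4 : ∑ k, min ((o k : ℤ) - (o k0 : ℤ)) 1 = 0 := by
      apply Finset.sum_eq_zero
      intro k _
      rw [hall k, sub_self]; rfl
    rw [h3, h4, Nat.cast_sub hq]
    have h5 : (2 : ℤ) * o k0 ≤ w := by
      have : 2 * o k0 ≤ w := by omega
      exact_mod_cast this
    push_cast
    linarith
  · push Not at hall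
    obtain ⟨b, hb⟩ := hall
    have hlt : o k0 < o b := lt_of_le_of_ne (hcle b) (Ne.symm hb)
    have hbk : k0 ≠ b := by
      rintro rfl
      exact lt_irrefl _ hlt
    have hothers : ∀ k ∈ Finset.univ.erase b, o k = o k0 := by
      intro k hk
      by_contra hne
      exact huniq k b (Finset.ne_of_mem_erase hk) (lt_of_le_of_ne (hcle k) (Ne.symm hne)) hlt
    have h1 := ord_W h a k0 b hbk (o k0) (o b) (ho1 k0) (ho1 b) (hcle b)
    rw [← hw] at h1
    have h2 : 2 * o k0 + (o b - o k0 - 1) ≤ w := by exact_mod_cast h1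
    have h3 : ∑ k, ((o k : ℕ) : ℤ) = o b + (Fintype.card ι - 1) * (o k0 : ℤ) := by
      rw [← Finset.add_sum_erase Finset.univ _ (Finset.mem_univ b),
        Finset.sum_congr rfl fun k hk => by rw [hothers k hk], Finset.sum_const,
        Finset.card_erase_of_mem (Finset.mem_univ b), Finset.card_univ, nsmul_eq_mul,
        Nat.cast_sub (by omega)]
      push_cast
      ring
    have h4 : ∑ k, min ((o k : ℤ) - (o k0 : ℤ)) 1 = 1 := by
      rw [← Finset.add_sum_erase Finset.univ _ (Finset.mem_univ b),
        Finset.sum_eq_zero (s := Finset.univ.erase b) (fun k hk => by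
          rw [hothers k hk, sub_self]; rfl), add_zero]
      apply min_eq_right
      omega
    rw [h3, h4, Nat.cast_sub hq]
    have h5 : (o k0 : ℤ) + o b - 1 ≤ w := by omega
    push_cast
    linarith

end Pool.Agent.AbPencil
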