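import Pool.Agent.Lib_MP_1209e6_sp.N2

/-! PIECE N3: the ramification bound (periodic case). -/

set_option autoImplicit false

namespace Pool.Agent.AbPencil
open Pool.Agent.GGL
open Filter Metric Real Set Function MeromorphicOn ValueDistribution

variable {ι : Type} [Fintype ι] [Nonempty ι] {F : ι → ℂ → ℂ} {W : ℂ → ℂ} {κ : ι → ι → ℂ}
  {α β : ι → ι → ι → ℂ}

theorem ram_periodic (h : Sys F W κ α β) (hq : 2 ≤ Fintype.card ι) (j0 j1 : ι) (hj : j1 ≠ j0)
    (hper : ∀ k z, F k (z + 2 * Real.pi * Complex.I) = F k z) (m : ι → ℕ) (hm : ∀ k, 1 ≤ m k)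
    (hram : ∀ k a, 0 < Dv (F k) a - minDv (fun k => Dv (F k)) a →
      (m k : ℤ) ≤ Dv (F k) a - minDv (fun k => Dv (F k)) a)
    (hbig : (2 : ℝ) < ∑ k, (1 - 1 / (m k : ℝ))) : False := by
  classical
  set Dc := minDv (fun k => Dv (F k)) with hDc
  set M : ℕ := ∏ k, m k with hM
  set Mk : ι → ℕ := fun k => ∏ j ∈ Finset.univ.erase k, m j with hMk
  have hMMk : ∀ k, M = m k * Mk k := fun k =>
    (Finset.mul_prod_erase Finset.univ m (Finset.mem_univ k)).symm
  have hM0 : 1 ≤ M := Finset.one_le_prod' fun k _ => hm k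
  have hMk0 : ∀ k, 1 ≤ Mk k := fun k => Finset.one_le_prod' fun j _ => hm j
  set E : locallyFinsupp ℂ ℤ := ∑ k, Mk k • (Dv (F k) - Dc) with hE
  set Q := ∑ k, Dv (F k) - Dv W - (Fintype.card ι - 2) • Dc with hQ
  have hEle : ∀ a, (M • Q) a ≤ E a := by
    intro a
    rw [hE, locallyFinsuppWithin.coe_nsmul, Pi.smul_apply, locallyFinsuppWithin.coe_sum,
      Finset.sum_apply, nsmul_eq_mul]
    have h1 := smt_divisor_le h hq a
    have h2 : (M : ℤ) * Q a ≤ M * ∑ k, min (Dv (F k) a - Dc a) 1 :=
      mul_le_mul_of_nonneg_left h1 (Int.natCast_nonneg _)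
    refine h2.trans ?_
    rw [Finset.mul_sum]
    apply Finset.sum_le_sum
    intro k _
    rw [locallyFinsuppWithin.coe_nsmul, Pi.smul_apply, locallyFinsuppWithin.coe_sub, Pi.sub_apply,
      nsmul_eq_mul]
    have h3 : 0 ≤ Dv (F k) a - Dc a := by
      have := minDv_le (fun k => Dv (F k)) k a
      rw [hDc]; linarith
    rcases h3.eq_or_lt with h4 | h4
    · rw [← h4]; simp
    · have h5 := hram k a h4
      have h6 : min (Dv (F k) a - Dc a) 1 = 1 := min_eq_right (by omega)
      rw [h6, mul_one]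
      have h7 : (M : ℤ) = (m k : ℤ) * (Mk k : ℤ) := by exact_mod_cast hMMk k
      rw [h7]
      have h8 : (0 : ℤ) ≤ Mk k := Int.natCast_nonneg _
      nlinarith
  obtain ⟨C, hC⟩ := smt h hq j0
  -- the quotient functions
  set G : ι → ℂ → ℂ := fun k z => F k z / F j0 z with hG
  have hGm : ∀ k, Meromorphic (G k) := fun k => div_mero (h.diff k) (h.diff j0)
  obtain ⟨C1, hC11, hC1⟩ := ldl G hGm
    (fun k z => div_order_ne_top (h.diff k) (h.diff j0) (h.ne k) (h.ne j0) z)
  set τ : ℝ → ℝ := fun r => ∑ k, characteristic (G k) ⊤ r with hτ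
  have hτmono : MonotoneOn τ (Set.Ici 1) := by
    intro a ha b hb hab
    apply Finset.sum_le_sum
    intro k _
    exact characteristic_monotoneOn (hGm k) (show (0 : ℝ) < a from lt_of_lt_of_le one_pos ha)
      (show (0 : ℝ) < b from lt_of_lt_of_le one_pos hb) hab
  have hτ0 : ∀ r, 1 ≤ r → 0 ≤ τ r := fun r hr =>
    Finset.sum_nonneg fun k _ => characteristic_nonneg hr
  set q : ℝ := (Fintype.card ι : ℝ) with hqdef
  have hq0 : 0 ≤ q := Nat.cast_nonneg _
  set c0 : ℝ := |Real.log ‖meromorphicTrailingCoeffAt (F j0) 0‖| with hc0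
  set cs : ℝ := ∑ k, (Mk k : ℝ) * |Real.log ‖meromorphicTrailingCoeffAt (F k) 0‖| with hcs
  have hcs0 : 0 ≤ cs := Finset.sum_nonneg fun k _ => by positivity
  have hτT : ∀ r, 1 ≤ r → τ r ≤ q * (TC F r + c0) := by
    intro r hr
    have : ∀ k ∈ (Finset.univ : Finset ι), characteristic (G k) ⊤ r ≤ TC F r + c0 := by
      intro k _
      have h1 := characteristic_div_le_TC h.diff h.ne hr k j0
      have h2 := neg_abs_le (Real.log ‖meromorphicTrailingCoeffAt (F j0) 0‖)
      linarith
    refine (Finset.sum_le_sum this).trans (le_of_eq ?_)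
    rw [Finset.sum_const, Finset.card_univ, nsmul_eq_mul]
  set SM : ℝ := ∑ k, (Mk k : ℝ) with hSM
  -- upper bound for `N(E)`
  have hNE : ∀ r, 1 ≤ r → Function.locallyFinsuppWithin.logCounting E r ≤ SM * TC F r + cs := by
    intro r hr
    rw [hE, map_sum, Finset.sum_apply, hSM, hcs, Finset.sum_mul, ← Finset.sum_add_distrib]
    apply Finset.sum_le_sum
    intro k _
    rw [map_nsmul, Pi.smul_apply, nsmul_eq_mul]
    have h1 := N_le_TC h.diff h.ne hr k
    have h2 := neg_abs_le (Real.log ‖meromorphicTrailingCoeffAt (F k) 0‖)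
    have h3 : Function.locallyFinsuppWithin.logCounting (Dv (F k) - Dc) r ≤
        TC F r + |Real.log ‖meromorphicTrailingCoeffAt (F k) 0‖| := by linarith
    have h4 := mul_le_mul_of_nonneg_left h3 (Nat.cast_nonneg (α := ℝ) (Mk k))
    linarith
  -- the gain
  set ε : ℝ := (q - 2) * M - SM with hε
  have hεpos : 0 < ε := by
    have h1 : SM = M * ∑ k, (1 / (m k : ℝ)) := by
      rw [hSM, Finset.mul_sum]
      apply Finset.sum_congr rfl
      intro k _
      have h2 : (M : ℝ) = (m k : ℝ) * (Mk k : ℝ) := by exact_mod_cast hMMk k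
      have h3 : (m k : ℝ) ≠ 0 := by
        have := hm k
        exact_mod_cast (by omega : m k ≠ 0)
      rw [h2]
      field_simp
    have h2 : ∑ k, (1 - 1 / (m k : ℝ)) = q - ∑ k, (1 / (m k : ℝ)) := by
      rw [Finset.sum_sub_distrib, Finset.sum_const, Finset.card_univ, nsmul_eq_mul, mul_one]
    have h3 : (1 : ℝ) ≤ M := by exact_mod_cast hM0
    rw [h2] at hbig
    rw [hε, h1]
    nlinarith
  refine growth_contradiction τ hτmono hτ0
    (q * ((cs + M * (|C| + Real.log C1 + 4)) / ε + c0)) ?_ ?_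
  · intro r δ hr hδ0 hδ1
    obtain ⟨r', hr', B, hB1, hBle, hder⟩ := hC1 r δ hr hδ0 hδ1
    refine ⟨r', hr', ?_⟩
    have hr'1 : 1 ≤ r' := hr.trans hr'.1
    have h1 := hC r' B hr'1 hB1 (fun k z hz han i => hder k z hz han i)
    have h2 := hNE r' hr'1
    have h3 := hτT r' hr'1
    set X : ℝ := (1 + τ (r + 2 * δ)) * (r + 2) / δ with hX
    have hX1 : 1 ≤ X := by
      rw [hX, le_div_iff₀ hδ0]
      have := hτ0 (r + 2 * δ) (by linarith)
      nlinarith
    have hlogX : 0 ≤ Real.log X := Real.log_nonneg hX1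
    have hlogB : Real.log B ≤ Real.log C1 + 4 * Real.log X := by
      have h4 := Real.log_le_log (by linarith) hBle
      rw [Real.log_mul (by linarith) (by positivity), Real.log_pow] at h4
      push_cast at h4
      exact h4
    have hlogC1 : 0 ≤ Real.log C1 := Real.log_nonneg hC11
    have hMr : (1 : ℝ) ≤ M := by exact_mod_cast hM0
    have h5 : M * Function.locallyFinsuppWithin.logCounting Q r' ≤
        Function.locallyFinsuppWithin.logCounting E r' := by
      have h6 : Function.locallyFinsuppWithin.logCounting (M • Q) r' ≤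
          Function.locallyFinsuppWithin.logCounting E r' :=
        Function.locallyFinsuppWithin.logCounting_le hEle hr'1
      rwa [map_nsmul, Pi.smul_apply, nsmul_eq_mul] at h6
    have h6 : ε * TC F r' ≤ cs + M * (|C| + (Real.log C1 + 4 * Real.log X)) := by
      have h7 : (M : ℝ) * ((q - 2) * TC F r') ≤
          M * (Function.locallyFinsuppWithin.logCounting Q r' + C + Real.log B) :=
        mul_le_mul_of_nonneg_left h1 (by linarith)
      have h8 : (M : ℝ) * (C + Real.log B) ≤ M * (|C| + (Real.log C1 + 4 * Real.log X)) :=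
        mul_le_mul_of_nonneg_left (add_le_add (le_abs_self C) hlogB) (by linarith)
      rw [hε]
      nlinarith
    have h7 : TC F r' ≤ (cs + M * (|C| + (Real.log C1 + 4 * Real.log X))) / ε := by
      rw [le_div_iff₀ hεpos]
      linarith
    calc τ r' ≤ q * (TC F r' + c0) := h3
      _ ≤ q * ((cs + M * (|C| + (Real.log C1 + 4 * Real.log X))) / ε + c0) :=
          mul_le_mul_of_nonneg_left (by linarith) hq0
      _ ≤ q * ((cs + M * (|C| + Real.log C1 + 4)) / ε + c0) * (1 + Real.log X) := by
          rw [mul_assoc]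
          apply mul_le_mul_of_nonneg_left _ hq0
          have hc00 : 0 ≤ c0 := abs_nonneg _
          have hCa : 0 ≤ |C| := abs_nonneg C
          have h8 : (cs + M * (|C| + (Real.log C1 + 4 * Real.log X))) / ε ≤
              (cs + M * (|C| + Real.log C1 + 4)) / ε * (1 + Real.log X) := by
            rw [div_mul_eq_mul_div]
            apply div_le_div_of_nonneg_right _ hεpos.le
            have e1 : 0 ≤ cs * Real.log X := by positivity
            have e2 : 0 ≤ (M : ℝ) * |C| * Real.log X := by positivity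
            have e3 : 0 ≤ (M : ℝ) * Real.log C1 * Real.log X := by positivity
            have e4 : (0 : ℝ) ≤ M * 4 := by positivity
            nlinarith
          have h9 : 0 ≤ c0 * Real.log X := by positivity
          nlinarith
  · intro A
    have hnp : ∀ c : ℂ, ∃ z, F j1 z ≠ c * F j0 z := by
      intro c
      by_contra hcon
      push Not at hcon
      obtain ⟨z, hz⟩ := h.Wne
      have h1 : F j1 = fun z => c * F j0 z := funext hcon
      have h2 := h.κW j1 j0 hj z
      have h3 : deriv (F j1) z = c * deriv (F j0) z := by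
        rw [h1]
        exact deriv_const_mul c ((h.diff j0) z)
      rw [h3, hcon z] at h2
      have h4 : κ j1 j0 * W z = 0 := by rw [← h2]; ring
      exact (mul_ne_zero (h.κne j1 j0 hj) hz) h4
    obtain ⟨r₀, hr₀⟩ := characteristic_div_ge_log (h.diff j1) (h.diff j0) (h.ne j0)
      (hper _) (hper j0) hnp A
    refine ⟨max r₀ 1, fun r hr => ?_⟩
    have h1 := hr₀ r ((le_max_left _ _).trans hr)
    refine h1.trans ?_
    exact Finset.single_le_sum (f := fun k => characteristic (G k) ⊤ r)
      (fun k _ => characteristic_nonneg ((le_max_right _ _).trans hr))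
      (Finset.mem_univ j1)

end Pool.Agent.AbPencil
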