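import Pool.Agent.Lib_MP_1209e6_sp.N3

/-! PIECE N4: the ramification bound for a quotient of two entire functions. -/

set_option autoImplicit false

namespace Pool.Agent.AbPencil
open Pool.Agent.GGL
open Filter Metric Real Set Function MeromorphicOn ValueDistribution

/-- the entire function which vanishes where `g₁ / g₀` takes the value `b` -/
def Fb (g₀ g₁ : ℂ → ℂ) : Option ℂ → ℂ → ℂ
  | some c => fun z => g₁ z - c * g₀ z
  | none => g₀

theorem Fb_diff {g₀ g₁ : ℂ → ℂ} (h0 : Differentiable ℂ g₀) (h1 : Differentiable ℂ g₁) (b : Option ℂ) :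
    Differentiable ℂ (Fb g₀ g₁ b) := by
  cases b with
  | some c => exact h1.sub (h0.const_mul c)
  | none => exact h0

theorem Fb_ne {g₀ g₁ : ℂ → ℂ} (hli : LinearIndependent ℂ ![g₀, g₁]) (b : Option ℂ) :
    ∃ z, Fb g₀ g₁ b z ≠ 0 := by
  rw [LinearIndependent.pair_iff] at hli
  by_contra hcon
  push Not at hcon
  cases b with
  | some c =>
    have h1 := hli (-c) 1 (by
      funext z
      have := hcon z
      simp only [Fb] at this
      simp only [Pi.add_apply, Pi.smul_apply, smul_eq_mul, Pi.zero_apply]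
      linear_combination this)
    exact one_ne_zero h1.2
  | none =>
    have h1 := hli 1 0 (by
      funext z
      have := hcon z
      simp only [Fb] at this
      simp only [Pi.add_apply, Pi.smul_apply, smul_eq_mul, Pi.zero_apply]
      linear_combination this)
    exact one_ne_zero h1.1

theorem Fb_span (g₀ g₁ : ℂ → ℂ) (a b c : Option ℂ) (hab : a ≠ b) : ∃ p : ℂ × ℂ, ∀ z,
    Fb g₀ g₁ c z = p.1 * Fb g₀ g₁ a z + p.2 * Fb g₀ g₁ b z := by
  rcases a with _ | a <;> rcases b with _ | b <;> rcases c with _ | c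
  · exact absurd rfl hab
  · exact absurd rfl hab
  · exact ⟨(1, 0), fun z => by simp [Fb]⟩
  · exact ⟨(b - c, 1), fun z => by simp only [Fb]; ring⟩
  · exact ⟨(0, 1), fun z => by simp [Fb]⟩
  · exact ⟨(1, a - c), fun z => by simp only [Fb]; ring⟩
  · have h : b - a ≠ 0 := sub_ne_zero.2 fun h => hab (by rw [h])
    refine ⟨(1 / (b - a), -1 / (b - a)), fun z => ?_⟩
    simp only [Fb]
    field_simp
    ring
  · have h : b - a ≠ 0 := sub_ne_zero.2 fun h => hab (by rw [h])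
    refine ⟨(1 + (a - c) / (b - a), -(a - c) / (b - a)), fun z => ?_⟩
    simp only [Fb]
    field_simp
    ring

theorem Fb_wr {g₀ g₁ : ℂ → ℂ} (h0 : Differentiable ℂ g₀) (h1 : Differentiable ℂ g₁)
    (a b : Option ℂ) (hab : a ≠ b) : ∃ k : ℂ, k ≠ 0 ∧ ∀ z,
      Fb g₀ g₁ a z * deriv (Fb g₀ g₁ b) z - Fb g₀ g₁ b z * deriv (Fb g₀ g₁ a) z =
      k * (g₀ z * deriv g₁ z - g₁ z * deriv g₀ z) := by
  have hd : ∀ c z, deriv (fun z => g₁ z - c * g₀ z) z = deriv g₁ z - c * deriv g₀ z := by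
    intro c z
    rw [deriv_fun_sub (h1 z) ((h0 z).const_mul c), deriv_const_mul c (h0 z)]
  rcases a with _ | a <;> rcases b with _ | b
  · exact absurd rfl hab
  · refine ⟨1, one_ne_zero, fun z => ?_⟩
    simp only [Fb, hd]
    ring
  · refine ⟨-1, by norm_num, fun z => ?_⟩
    simp only [Fb, hd]
    ring
  · refine ⟨b - a, sub_ne_zero.2 fun h => hab (by rw [h]), fun z => ?_⟩
    simp only [Fb, hd]
    ring

theorem sys_of {g₀ g₁ : ℂ → ℂ} (h0 : Differentiable ℂ g₀) (h1 : Differentiable ℂ g₁)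
    (hli : LinearIndependent ℂ ![g₀, g₁]) (S : Finset (Option ℂ)) :
    ∃ (κ : S → S → ℂ) (α β : S → S → S → ℂ),
      Sys (fun k : S => Fb g₀ g₁ k) (fun z => g₀ z * deriv g₁ z - g₁ z * deriv g₀ z) κ α β := by
  classical
  have hs : ∀ a b c : S, ∃ p : ℂ × ℂ, a ≠ b → ∀ z,
      Fb g₀ g₁ c z = p.1 * Fb g₀ g₁ a z + p.2 * Fb g₀ g₁ b z := by
    intro a b c
    by_cases hab : a = b
    · exact ⟨(0, 0), fun h => absurd hab h⟩
    · obtain ⟨p, hp⟩ := Fb_span g₀ g₁ a b c (fun h => hab (Subtype.ext h))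
      exact ⟨p, fun _ => hp⟩
  have hw : ∀ a b : S, ∃ k : ℂ, a ≠ b → k ≠ 0 ∧ ∀ z,
      Fb g₀ g₁ a z * deriv (Fb g₀ g₁ b) z - Fb g₀ g₁ b z * deriv (Fb g₀ g₁ a) z =
      k * (g₀ z * deriv g₁ z - g₁ z * deriv g₀ z) := by
    intro a b
    by_cases hab : a = b
    · exact ⟨0, fun h => absurd hab h⟩
    · obtain ⟨k, hk⟩ := Fb_wr h0 h1 a b (fun h => hab (Subtype.ext h))
      exact ⟨k, fun _ => hk⟩
  choose p hp using hs
  choose k hk using hw
  refine ⟨k, fun a b c => (p a b c).1, fun a b c => (p a b c).2, ?_⟩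
  refine
    { diff := fun b => Fb_diff h0 h1 b
      ne := fun b => Fb_ne hli b
      Wdiff := ?_
      Wne := ?_
      κne := fun a b hab => (hk a b hab).1
      κW := fun a b hab => (hk a b hab).2
      span := fun a b hab c => hp a b c hab }
  · have d0 : Differentiable ℂ (deriv g₀) := by
      have := differentiable_iterDeriv h0 1
      rwa [iteratedDeriv_one] at this
    have d1 : Differentiable ℂ (deriv g₁) := by
      have := differentiable_iterDeriv h1 1
      rwa [iteratedDeriv_one] at this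
    exact (h0.mul d1).sub (h1.mul d0)
  · obtain ⟨z, hz⟩ := exists_Wr_ne_zero ![g₀, g₁] (fun j => by fin_cases j <;> assumption) hli
    refine ⟨z, ?_⟩
    unfold Wr at hz
    rw [Matrix.det_fin_two] at hz
    simpa [iteratedDeriv_zero, iteratedDeriv_one] using hz

/-- orders of linear combinations -/
theorem Dv_comb {f g h : ℂ → ℂ} (hf : Differentiable ℂ f) (hg : Differentiable ℂ g)
    (hh : Differentiable ℂ h) (hf0 : ∃ z, f z ≠ 0) (hg0 : ∃ z, g z ≠ 0) (hh0 : ∃ z, h z ≠ 0)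
    (a b : ℂ) (H : ∀ z, h z = a * f z + b * g z) (w : ℂ) : min (Dv f w) (Dv g w) ≤ Dv h w := by
  obtain ⟨n₁, h1⟩ := ENat.ne_top_iff_exists.1 (order_ne_top hf hf0 w)
  obtain ⟨n₂, h2⟩ := ENat.ne_top_iff_exists.1 (order_ne_top hg hg0 w)
  obtain ⟨n₃, h3⟩ := ENat.ne_top_iff_exists.1 (order_ne_top hh hh0 w)
  rw [Dv_apply hf, Dv_apply hg, Dv_apply hh, ← h1, ← h2, ← h3]
  have h4 : h = (fun _ : ℂ => a) * f + (fun _ : ℂ => b) * g := by
    funext z
    exact H z
  have h5 : ((min n₁ n₂ : ℕ) : ℕ∞) ≤ (n₃ : ℕ∞) := by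
    rw [h3, h4]
    refine le_trans ?_ le_analyticOrderAt_add
    rw [analyticOrderAt_mul analyticAt_const (hf.analyticAt w),
      analyticOrderAt_mul analyticAt_const (hg.analyticAt w), ← h1, ← h2]
    apply le_min
    · have : ((min n₁ n₂ : ℕ) : ℕ∞) ≤ (n₁ : ℕ∞) := by exact_mod_cast min_le_left _ _
      exact this.trans le_add_self
    · have : ((min n₁ n₂ : ℕ) : ℕ∞) ≤ (n₂ : ℕ∞) := by exact_mod_cast min_le_right _ _
      exact this.trans le_add_self
  have h6 : min n₁ n₂ ≤ n₃ := by exact_mod_cast h5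
  show min ((n₁ : ℕ) : ℤ) ((n₂ : ℕ) : ℤ) ≤ ((n₃ : ℕ) : ℤ)
  exact_mod_cast h6

/-- Nevanlinna: total ramification of a quotient of entire functions. -/
theorem ram_bound_entire (g₀ g₁ : ℂ → ℂ) (h0 : Differentiable ℂ g₀) (h1 : Differentiable ℂ g₁)
    (hli : LinearIndependent ℂ ![g₀, g₁]) (μ : Option ℂ → ℕ) (hμ : ∀ b, 1 ≤ μ b)
    (hram : ∀ b a, 0 < Dv (Fb g₀ g₁ b) a - min (Dv g₀ a) (Dv g₁ a) →
      (μ b : ℤ) ≤ Dv (Fb g₀ g₁ b) a - min (Dv g₀ a) (Dv g₁ a)) (S : Finset (Option ℂ)) :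
    ∑ b ∈ S, (1 - 1 / (μ b : ℝ)) ≤ 2 := by
  classical
  by_contra hcon
  push Not at hcon
  have hterm : ∀ b, 1 - 1 / (μ b : ℝ) ≤ 1 := by
    intro b
    have : (0 : ℝ) ≤ 1 / (μ b : ℝ) := by positivity
    linarith
  have hcard : 2 < S.card := by
    have h2 : ∑ b ∈ S, (1 - 1 / (μ b : ℝ)) ≤ ∑ b ∈ S, (1 : ℝ) := Finset.sum_le_sum fun b _ => hterm b
    rw [Finset.sum_const, nsmul_eq_mul, mul_one] at h2
    have h3 : (2 : ℝ) < S.card := lt_of_lt_of_le hcon h2
    exact_mod_cast h3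
  set G₀ : ℂ → ℂ := fun z => g₀ (Complex.exp z) with hG₀
  set G₁ : ℂ → ℂ := fun z => g₁ (Complex.exp z) with hG₁
  have hF : ∀ b, Fb G₀ G₁ b = fun z => Fb g₀ g₁ b (Complex.exp z) := by
    intro b
    cases b <;> rfl
  have d0 : Differentiable ℂ G₀ := h0.comp Complex.differentiable_exp
  have d1 : Differentiable ℂ G₁ := h1.comp Complex.differentiable_exp
  have hli' : LinearIndependent ℂ ![G₀, G₁] := by
    rw [LinearIndependent.pair_iff] at hli ⊢
    intro s t hst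
    apply hli s t
    have h2 : (fun z => s * g₀ z + t * g₁ z) = fun _ => 0 := by
      apply eq_of_comp_exp
      · exact (h0.const_mul s |>.add (h1.const_mul t)).continuous
      · exact continuous_const
      · intro z
        exact congrFun hst z
    exact h2
  obtain ⟨κ, α, β, hsys⟩ := sys_of d0 d1 hli' S
  have hne : Nonempty S := by
    obtain ⟨b, hb⟩ := Finset.card_pos.1 (by omega : 0 < S.card)
    exact ⟨⟨b, hb⟩⟩
  have hcard' : 2 < Fintype.card S := by rwa [Fintype.card_coe]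
  obtain ⟨j0⟩ := hne
  obtain ⟨j1, hj⟩ := Fintype.exists_ne_of_one_lt_card (by omega : 1 < Fintype.card S) j0
  have : Nonempty S := ⟨j0⟩
  -- the minimal divisor
  have hmin : ∀ a, minDv (fun k : S => Dv (Fb G₀ G₁ k)) a =
      min (Dv g₀ (Complex.exp a)) (Dv g₁ (Complex.exp a)) := by
    intro a
    have hG1ne : ∃ z, G₁ z ≠ 0 := by
      obtain ⟨z, hz⟩ := Fb_ne hli' (some 0)
      exact ⟨z, by simpa [Fb] using hz⟩
    have e0 : Dv G₀ a = Dv g₀ (Complex.exp a) := Dv_comp_exp h0 a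
    have e1 : Dv G₁ a = Dv g₁ (Complex.exp a) := Dv_comp_exp h1 a
    rw [← e0, ← e1]
    apply le_antisymm
    · have key : ∀ c : Option ℂ, minDv (fun k : S => Dv (Fb G₀ G₁ k)) a ≤ Dv (Fb G₀ G₁ c) a := by
        intro c
        obtain ⟨p, hp⟩ := Fb_span G₀ G₁ j1 j0 c (fun h => hj (Subtype.ext h))
        have h2 := Dv_comb (Fb_diff d0 d1 _) (Fb_diff d0 d1 _) (Fb_diff d0 d1 c) (Fb_ne hli' _)
          (Fb_ne hli' _) (Fb_ne hli' c) p.1 p.2 hp a
        refine le_trans ?_ h2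
        exact le_min (minDv_le (fun k : S => Dv (Fb G₀ G₁ k)) j1 a)
          (minDv_le (fun k : S => Dv (Fb G₀ G₁ k)) j0 a)
      apply le_min
      · exact key none
      · have h2 := key (some 0)
        have h3 : Fb G₀ G₁ (some 0) = G₁ := by
          funext z; simp [Fb]
        rwa [h3] at h2
    · obtain ⟨k, hk⟩ := exists_minDv (fun k : S => Dv (Fb G₀ G₁ k)) a
      rw [hk]
      obtain ⟨p, hp⟩ := Fb_span G₀ G₁ none (some 0) k (by simp)
      have h2 := Dv_comb (Fb_diff d0 d1 none) (Fb_diff d0 d1 (some 0)) (Fb_diff d0 d1 k)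
        (Fb_ne hli' _) (Fb_ne hli' _) (Fb_ne hli' k) p.1 p.2 hp a
      have h3 : Fb G₀ G₁ (some 0) = G₁ := by
        funext z; simp [Fb]
      rw [h3] at h2
      exact h2
  have hDv : ∀ (b : Option ℂ) a, Dv (Fb G₀ G₁ b) a = Dv (Fb g₀ g₁ b) (Complex.exp a) := by
    intro b a
    rw [hF b]
    exact Dv_comp_exp (Fb_diff h0 h1 b) a
  refine ram_periodic hsys (by omega) j0 j1 hj ?_ (fun k : S => μ k) (fun k => hμ k) ?_ ?_
  · intro k z
    show Fb G₀ G₁ k (z + 2 * Real.pi * Complex.I) = Fb G₀ G₁ k z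
    rw [hF k]
    show Fb g₀ g₁ k (Complex.exp (z + 2 * Real.pi * Complex.I)) = _
    rw [Complex.exp_periodic z]
  · intro k a
    rw [hmin a, hDv]
    exact hram k _
  · rw [Finset.sum_coe_sort S (fun b => 1 - 1 / (μ b : ℝ))]
    exact hcon

end Pool.Agent.AbPencil
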