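import Pool.Agent.Lib_MP_1209e6_sp.Defs
import Pool.Agent.Lib_MP_1209e6_ag.Rational
import Pool.Agent.Lib_MP_1209e6_ag.Place

/-! PIECE P0: existence of places. -/

set_option autoImplicit false

namespace Pool.Agent.AbPencil

open Pool.Agent.Campana

open Polynomial IntermediateField in
private lemma P0_aux {F K : Type} [Field F] [Field K] [Algebra F K] (τ : K)
    (hτ : Transcendental F τ) [FiniteDimensional F⟮τ⟯ K] [Algebra.IsSeparable F⟮τ⟯ K] :
    ∃ O : ValuationSubring K, IsDiscreteValuationRing O ∧ (∀ c : F, algebraMap F K c ∈ O) ∧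
      τ⁻¹ ∉ O := by
  have hinj : ∀ A : F[X], aeval τ A = 0 → A = 0 := fun A h => (transcendental_iff.1 hτ) A h
  have hτ0 : τ ≠ 0 := by
    rintro rfl
    exact hτ isAlgebraic_zero
  let i1 : Algebra F[X] F⟮τ⟯ := (aeval (AdjoinSimple.gen F τ) : F[X] →ₐ[F] F⟮τ⟯).toAlgebra
  let i2 : Algebra F[X] K := (aeval τ : F[X] →ₐ[F] K).toAlgebra
  have hmap : ∀ p : F[X], algebraMap F⟮τ⟯ K (algebraMap F[X] F⟮τ⟯ p) = algebraMap F[X] K p := by
    intro p
    change algebraMap F⟮τ⟯ K (aeval (AdjoinSimple.gen F τ) p) = aeval τ p
    rw [← aeval_algebraMap_apply, AdjoinSimple.algebraMap_gen]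
  have i3 : IsScalarTower F[X] F⟮τ⟯ K := IsScalarTower.of_algebraMap_eq fun p => (hmap p).symm
  have i4 : FaithfulSMul F[X] F⟮τ⟯ := (faithfulSMul_iff_algebraMap_injective _ _).2 <|
    (injective_iff_map_eq_zero _).2 fun p hp => by
      refine hinj p ?_
      have h1 := hmap p
      rw [hp, map_zero] at h1
      exact h1.symm
  have i5 : IsFractionRing F[X] F⟮τ⟯ := by
    refine IsFractionRing.of_field F[X] F⟮τ⟯ fun z => ?_
    obtain ⟨A, B, h⟩ := (IntermediateField.mem_adjoin_simple_iff F (z : K)).1 z.2
    refine ⟨A, B, Subtype.ext ?_⟩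
    rw [h]
    have h1 := hmap A
    have h2 := hmap B
    change _ = algebraMap F⟮τ⟯ K (algebraMap F[X] F⟮τ⟯ A / algebraMap F[X] F⟮τ⟯ B)
    rw [map_div₀, h1, h2]
    rfl
  have i6 : IsDedekindDomain (integralClosure F[X] K) :=
    integralClosure.isDedekindDomain F[X] F⟮τ⟯ K
  have i7 : IsFractionRing (integralClosure F[X] K) K :=
    integralClosure.isFractionRing_of_finite_extension F⟮τ⟯ K
  have i8 : (Ideal.span {(X : F[X])}).IsPrime :=
    (Ideal.span_singleton_prime X_ne_zero).2 prime_X
  obtain ⟨Q, hQ, hQ2⟩ := Ideal.exists_ideal_over_prime_of_isIntegral_of_isDomain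
    (S := integralClosure F[X] K) (Ideal.span {(X : F[X])}) (by
      have h1 : Function.Injective (algebraMap F[X] (integralClosure F[X] K)) := by
        refine (injective_iff_map_eq_zero _).2 fun p hp => hinj p ?_
        exact congrArg Subtype.val hp
      rw [(RingHom.injective_iff_ker_eq_bot _).1 h1]
      exact bot_le)
  have hX : algebraMap F[X] (integralClosure F[X] K) X ∈ Q := by
    have h1 : (X : F[X]) ∈ Q.comap (algebraMap F[X] (integralClosure F[X] K)) := by
      rw [hQ2]
      exact Ideal.mem_span_singleton_self _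
    exact h1
  have hXτ : ((algebraMap F[X] (integralClosure F[X] K) X : integralClosure F[X] K) : K) = τ :=
    aeval_X τ
  let v : IsDedekindDomain.HeightOneSpectrum (integralClosure F[X] K) :=
    { asIdeal := Q
      isPrime := hQ
      ne_bot := by
        intro h
        rw [h, Ideal.mem_bot] at hX
        apply hτ0
        rw [← hXτ, hX]
        rfl }
  refine ⟨v.valuationSubringAtPrime K, RatPlace.dvr_of_height_one v, ?_, ?_⟩
  · intro c
    refine ⟨algebraMap F[X] _ (C c), 1, ?_, ?_⟩
    · intro h
      exact hQ.ne_top ((Ideal.eq_top_iff_one _).2 h)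
    · rw [map_one, inv_one, mul_one]
      exact (aeval_C τ c).symm
  · rintro ⟨a, s, hs, h⟩
    apply hs
    have hs0 : (s : K) ≠ 0 := by
      intro h0
      apply hs
      have : s = 0 := Subtype.ext h0
      rw [this]
      exact Q.zero_mem
    have h1 : s = a * algebraMap F[X] _ X := by
      apply Subtype.ext
      change (s : K) = (a : K) * _
      rw [hXτ]
      have h2 : τ⁻¹ = (a : K) * (s : K)⁻¹ := h
      field_simp at h2
      rw [h2, mul_comm]
    rw [h1]
    exact Q.mul_mem_left _ hX

/-- There is a place where a given transcendental element `τ` vanishes. Proof: `{τ}` extends to a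
transcendence basis `{τ} ∪ Y` (`exists_isTranscendenceBasis_superset`); `F = ℂ(Y)` (an intermediate
field), `τ` is transcendental over `F`, `K` is finite and separable over `F(τ)` (finitely generated and
algebraic, characteristic 0); `A = F[τ] ≃ Polynomial F`, `B` = integral closure of `A` in `K`: a Dedekind
domain with fraction field `K` (`integralClosure.isDedekindDomain`, `integralClosure.isFractionRing_of_...`);
there is a prime of `B` over `(τ)` (`Ideal.exists_ideal_over_prime_of_isIntegral` or `lying over`), it is not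
zero; take its valuation subring (`dvr_of_height_one`, in `Lib_MP_1209e6_ag/Rational`, used there in
`exists_place`). `v` is `place_order` (`Lib_MP_1209e6_ag/Place`). `1 ≤ v τ` because `τ⁻¹ ∉ O`. An
alternative is `place_of_val` in `Lib_MP_1209e6_mh/PlaceOf`. -/
theorem exists_place_over {K : Type} [Field K] [Algebra ℂ K] (T : Finset K)
    (hT : IntermediateField.adjoin ℂ (T : Set K) = ⊤) (τ : K) (hτ : Transcendental ℂ τ) :
    ∃ (O : ValuationSubring K) (v : K → ℤ), IsPlace O ∧ IsOrd O v ∧ 1 ≤ v τ := by
  have hτ0 : τ ≠ 0 := by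
    rintro rfl
    exact hτ isAlgebraic_zero
  have h1 : AlgebraicIndepOn ℂ id ({τ} : Set K) := by
    exact (algebraicIndependent_singleton_iff (x := fun i : ({τ} : Set K) => id (i : K))
      ⟨τ, rfl⟩).2 hτ
  obtain ⟨t, htτ, ht⟩ := exists_isTranscendenceBasis_superset h1
  have hτt : τ ∈ t := htτ rfl
  let F : IntermediateField ℂ K := IntermediateField.adjoin ℂ (t \ {τ})
  have hF : Transcendental F τ := by
    have h2 := ht.1.transcendental_adjoin (s := {i : t | (i : K) ≠ τ}) (i := ⟨τ, hτt⟩) (by simp)
    have h3 : (fun i : t => (i : K)) '' {i : t | (i : K) ≠ τ} = t \ {τ} := by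
      ext z
      simp only [Set.mem_image, Set.mem_sdiff, Set.mem_singleton_iff]
      constructor
      · rintro ⟨i, hi, rfl⟩
        exact ⟨i.2, hi⟩
      · rintro ⟨hz, hz'⟩
        exact ⟨⟨z, hz⟩, hz', rfl⟩
    rw [h3] at h2
    exact IntermediateField.transcendental_adjoin_iff.2 h2
  have halg : ∀ a : K, IsIntegral (IntermediateField.adjoin F {τ}) a := by
    intro a
    have h2 : IsAlgebraic (IntermediateField.adjoin ℂ (Set.range fun i : t => (i : K))) a :=
      ht.isAlgebraic_field.isAlgebraic a
    have hle : IntermediateField.adjoin ℂ (Set.range fun i : t => (i : K)) ≤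
        (IntermediateField.restrictScalars ℂ (IntermediateField.adjoin F {τ})) := by
      rw [IntermediateField.adjoin_le_iff]
      rintro _ ⟨i, rfl⟩
      by_cases hi : (i : K) = τ
      · change (i : K) ∈ (IntermediateField.adjoin F {τ})
        rw [hi]
        exact IntermediateField.mem_adjoin_simple_self F τ
      · have h3 : (i : K) ∈ F := IntermediateField.subset_adjoin ℂ _ ⟨i.2, hi⟩
        exact IntermediateField.algebraMap_mem (IntermediateField.adjoin F {τ}) (⟨i, h3⟩ : F)
    obtain ⟨p, hp0, hp⟩ := h2
    refine IsAlgebraic.isIntegral ⟨p.map (IntermediateField.inclusion hle).toRingHom, ?_, ?_⟩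
    · exact (Polynomial.map_ne_zero_iff (IntermediateField.inclusion hle).toRingHom.injective).2 hp0
    · rw [Polynomial.aeval_def, Polynomial.eval₂_map]
      exact hp
  have htop : IntermediateField.adjoin (IntermediateField.adjoin F {τ}) (T : Set K) = ⊤ := by
    rw [eq_top_iff]
    intro a _
    have h2 : IntermediateField.adjoin ℂ (T : Set K) ≤
        (IntermediateField.restrictScalars ℂ (IntermediateField.restrictScalars F
          (IntermediateField.adjoin (IntermediateField.adjoin F {τ}) (T : Set K)))) := by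
      rw [IntermediateField.adjoin_le_iff]
      exact IntermediateField.subset_adjoin (IntermediateField.adjoin F {τ}) (T : Set K)
    rw [hT] at h2
    exact h2 IntermediateField.mem_top
  have i1 : FiniteDimensional (IntermediateField.adjoin F {τ}) (IntermediateField.adjoin (IntermediateField.adjoin F {τ}) (T : Set K)) :=
    IntermediateField.finiteDimensional_adjoin fun x _ => halg x
  have i2 : FiniteDimensional (IntermediateField.adjoin F {τ}) K := by
    rw [htop] at i1
    exact FiniteDimensional.of_surjective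
      (IntermediateField.topEquiv (F := (IntermediateField.adjoin F {τ})) (E := K)).toLinearEquiv.toLinearMap
      (IntermediateField.topEquiv (F := (IntermediateField.adjoin F {τ})) (E := K)).surjective
  have i3 : CharZero (IntermediateField.adjoin F {τ}) := charZero_of_injective_algebraMap (algebraMap ℂ (IntermediateField.adjoin F {τ})).injective
  have i4 : Algebra.IsAlgebraic (IntermediateField.adjoin F {τ}) K := ⟨fun a => (halg a).isAlgebraic⟩
  have i5 : Algebra.IsSeparable (IntermediateField.adjoin F {τ}) K := inferInstance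
  obtain ⟨O, hO1, hO2, hO3⟩ := P0_aux τ hF
  have hO : IsPlace O := ⟨fun c => hO2 (algebraMap ℂ F c), hO1⟩
  obtain ⟨v, hv⟩ := place_order O hO
  refine ⟨O, v, hO, hv, ?_⟩
  by_contra hlt
  apply hO3
  have h2 := F_ord_inv hv τ hτ0
  have h3 : 0 ≤ v τ⁻¹ := by
    rw [h2]
    omega
  exact (hv.2.1 _ (inv_ne_zero hτ0)).2 h3

end Pool.Agent.AbPencil
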