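import Pool.Agent.Lib_MP_1209e6_sp.Defs
import Pool.Agent.Lib_MP_1209e6_ag.Place

/-! PIECE P1: regular sections. -/

set_option autoImplicit false

namespace Pool.Agent.AbPencil

open Pool.Agent.Campana

private lemma P1_const {K : Type} [Field K] [Algebra ℂ K] {O : ValuationSubring K}
    (hO : IsPlace O) {v : K → ℤ} (hv : IsOrd O v) {c : ℂ} (hc : c ≠ 0) :
    v (algebraMap ℂ K c) = 0 := by
  have h0 : algebraMap ℂ K c ≠ 0 := (map_ne_zero _).2 hc
  have h1 := (hv.mem_iff h0).1 (hO.1 c)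
  have h2 := (hv.mem_iff (inv_ne_zero h0)).1 (by
    have h3 := hO.1 c⁻¹
    rwa [map_inv₀] at h3)
  rw [hv.map_inv h0] at h2
  omega

/-- The derivative of an element of order `n` has order at least `n - 1`. -/
private lemma P1_der {K : Type} [Field K] [Algebra ℂ K] {O : ValuationSubring K}
    (hO : IsPlace O) {v : K → ℤ} (hv : IsOrd O v) {π : K} (hπ : π ≠ 0) (hπ1 : v π = 1)
    (D : Derivation ℂ K K) (hD : ∀ a ∈ O, D a ∈ O) {x : K} (hx : x ≠ 0) {n : ℤ} (hn : v x = n) :
    (π ^ (n - 1))⁻¹ * D x ∈ O := by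
  have hπO : π ∈ O := (hv.mem_iff hπ).2 (by rw [hπ1]; norm_num)
  obtain ⟨ε, hε⟩ : ∃ ε, ε = x * π ^ (-n) := ⟨_, rfl⟩
  have hε0 : ε ≠ 0 := by rw [hε]; exact mul_ne_zero hx (zpow_ne_zero _ hπ)
  have hεv : v ε = 0 := by
    rw [hε, hv.map_mul hx (zpow_ne_zero _ hπ), hv.map_zpow hπ, hπ1, hn]
    ring
  have hεO : ε ∈ O := (hv.mem_iff hε0).2 hεv.ge
  have hxe : x = π ^ n * ε := by
    rw [hε, mul_left_comm, ← zpow_add₀ hπ, add_neg_cancel, zpow_zero, mul_one]
  have hπn : π ^ n ≠ 0 := zpow_ne_zero _ hπ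
  have h1 : D x / x = (n : K) * (D π / π) + D ε / ε := by
    rw [hxe, F_dlog_mul D _ _ hπn hε0, F_dlog_zpow D _ hπ]
  have h2 : (π ^ (n - 1))⁻¹ * D x = (n : K) * (ε * D π) + π * D ε := by
    have h3 : D x = x * ((n : K) * (D π / π) + D ε / ε) := by
      rw [← h1]
      field_simp
    rw [h3, zpow_sub_one₀ hπ]
    rw [hxe]
    field_simp
  rw [h2]
  exact O.add_mem _ _ (O.mul_mem _ _ (F_int_mem O hO.1 n).1 (O.mul_mem _ _ hεO (hD π hπO)))
    (O.mul_mem _ _ hπO (hD ε hεO))

/-- The section `(∏ (T - b)^(n b))⁻¹ dT^M` and its product with `T` are regular at all places, if the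
pole orders are small compared with the multiplicities. `w b` is a lower bound for the orders of `T - b`
at the places over `b` only through `h1`, `h2`. At the place `O` with order `v` (all `D` below
are derivations with `D a ∈ O` for `a ∈ O`; `π` an element of order 1):
(a) `v (T - b) = e ≥ 1` for some `b : ℂ` (then `T ∈ O`, and `v (T - b') = 0` for `b' ≠ b` because the
difference is a nonzero constant, of order 0): `T - b = π^e ε`, so `D T = D (T - b) = e π^(e-1) D π ε +
π^e D ε ∈ π^(e-1) O`. Take `u = π^(e-1)`; `v (f₀ u^M) = - e n b + M (e - 1) ≥ 0` by `h1` if `b ∈ S`, else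
`= M (e - 1)`.
(b) `T ∈ O` and `v (T - b) ≤ 0` (hence `= 0`) for all `b`: `u = 1`.
(c) `T ∉ O`: `e = v T⁻¹ ≥ 1`, `D T = - T^2 D (T⁻¹)`, of order `≥ - e - 1`; `u = π^(-e-1)`,
`v (T - b) = - e`, so `v (f₀) = e ∑ n b` and `h2` gives both claims.
Use `dForm_apply` and the API of `IsOrd` in `Lib_MP_1209e6_ag/Control`. -/
theorem regular_sections {K : Type} [Field K] [Algebra ℂ K] (T : K) (hT : Transcendental ℂ T)
    (S : Finset ℂ) (n : ℂ → ℕ) (M : ℕ)
    (h1 : ∀ b ∈ S, ∀ (O : ValuationSubring K) (v : K → ℤ), IsPlace O → IsOrd O v →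
      1 ≤ v (T - algebraMap ℂ K b) →
      v (T - algebraMap ℂ K b) * n b ≤ M * (v (T - algebraMap ℂ K b) - 1))
    (h2 : ∀ (O : ValuationSubring K) (v : K → ℤ), IsPlace O → IsOrd O v → 1 ≤ v T⁻¹ →
      v T⁻¹ + M * (v T⁻¹ + 1) ≤ v T⁻¹ * ∑ b ∈ S, (n b : ℤ))
    (O : ValuationSubring K) (hO : IsPlace O) :
    RegularAt O (dForm T) M (∏ b ∈ S, (T - algebraMap ℂ K b) ^ n b)⁻¹ ∧
      RegularAt O (dForm T) M (T * (∏ b ∈ S, (T - algebraMap ℂ K b) ^ n b)⁻¹) := by
  classical
  have hT0 : T ≠ 0 := by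
    rintro rfl
    exact hT isAlgebraic_zero
  have hTb : ∀ b : ℂ, T - algebraMap ℂ K b ≠ 0 := by
    intro b h
    apply hT
    rw [sub_eq_zero.1 h]
    exact isAlgebraic_algebraMap b
  obtain ⟨v, hv⟩ := place_order O hO
  obtain ⟨π, hπ0, hπ1⟩ := hv.2.2
  obtain ⟨g, hg⟩ : ∃ g, g = ∏ b ∈ S, (T - algebraMap ℂ K b) ^ n b := ⟨_, rfl⟩
  have hg0 : g ≠ 0 := by
    rw [hg]
    exact Finset.prod_ne_zero_iff.2 fun b _ => pow_ne_zero _ (hTb b)
  have hvg : v g = ∑ b ∈ S, (n b : ℤ) * v (T - algebraMap ℂ K b) := by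
    rw [hg, hv.map_prod S _ fun b _ => pow_ne_zero _ (hTb b)]
    exact Finset.sum_congr rfl fun b _ => hv.map_pow (hTb b) _
  rw [← hg]
  -- the general step
  have key : ∀ k : ℤ, (∀ D : Derivation ℂ K K, (∀ a ∈ O, D a ∈ O) → (π ^ k)⁻¹ * D T ∈ O) →
      0 ≤ -v g + M * k → 0 ≤ v T + (-v g + M * k) →
      RegularAt O (dForm T) M g⁻¹ ∧ RegularAt O (dForm T) M (T * g⁻¹) := by
    intro k hk hk1 hk2
    have hu : π ^ k ≠ 0 := zpow_ne_zero _ hπ0
    have huv : v (g⁻¹ * (π ^ k) ^ M) = -v g + M * k := by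
      rw [hv.map_mul (inv_ne_zero hg0) (pow_ne_zero _ hu), hv.map_inv hg0, hv.map_pow hu,
        hv.map_zpow hπ0, hπ1, mul_one]
    have hne : g⁻¹ * (π ^ k) ^ M ≠ 0 := mul_ne_zero (inv_ne_zero hg0) (pow_ne_zero _ hu)
    refine ⟨⟨π ^ k, hu, fun D hD => ?_, ?_⟩, ⟨π ^ k, hu, fun D hD => ?_, ?_⟩⟩
    · rw [dForm_apply hT0]
      exact hk (D 0) (hD 0)
    · rw [hv.mem_iff hne, huv]
      exact hk1
    · rw [dForm_apply hT0]
      exact hk (D 0) (hD 0)
    · rw [mul_assoc, hv.mem_iff (mul_ne_zero hT0 hne), hv.map_mul hT0 hne, huv]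
      exact hk2
  by_cases hTO : T ∈ O
  · have hvT : 0 ≤ v T := (hv.mem_iff hT0).1 hTO
    have hTbO : ∀ b, 0 ≤ v (T - algebraMap ℂ K b) := by
      intro b
      rw [← hv.mem_iff (hTb b)]
      exact O.sub_mem hTO (hO.1 b)
    by_cases hb : ∃ b : ℂ, 1 ≤ v (T - algebraMap ℂ K b)
    · -- case (a)
      obtain ⟨b, hb⟩ := hb
      have hoth : ∀ c : ℂ, c ≠ b → v (T - algebraMap ℂ K c) = 0 := by
        intro c hc
        by_contra hne
        have h3 : 1 ≤ v (T - algebraMap ℂ K c) := by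
          have := hTbO c
          omega
        have h4 : algebraMap ℂ K (c - b) = (T - algebraMap ℂ K b) + -(T - algebraMap ℂ K c) := by
          rw [map_sub]
          ring
        have h5 : v (algebraMap ℂ K (c - b)) = 0 := P1_const hO hv (sub_ne_zero.2 hc)
        have h6 := hv.le_add (x := T - algebraMap ℂ K b) (y := -(T - algebraMap ℂ K c)) (B := 1)
          (Or.inr hb) (Or.inr (by rw [hv.map_neg (hTb c)]; exact h3))
        rw [← h4] at h6
        rcases h6 with h6 | h6
        · exact (sub_ne_zero.2 hc) ((map_eq_zero _).1 h6)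
        · omega
      obtain ⟨e, he⟩ : ∃ e, e = v (T - algebraMap ℂ K b) := ⟨_, rfl⟩
      have hvg2 : v g ≤ M * (e - 1) := by
        rw [hvg]
        by_cases hbS : b ∈ S
        · rw [Finset.sum_eq_single_of_mem b hbS fun c _ hc => by rw [hoth c hc, mul_zero]]
          have h3 := h1 b hbS O v hO hv hb
          rw [mul_comm, he]
          exact h3
        · rw [Finset.sum_eq_zero fun c hc => by
            rw [hoth c (fun h => hbS (h ▸ hc)), mul_zero]]
          have h3 : 0 ≤ e - 1 := by omega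
          positivity
      refine key (e - 1) (fun D hD => ?_) (by linarith) (by linarith)
      have h3 := P1_der hO hv hπ0 hπ1 D hD (hTb b) he.symm
      rwa [map_sub, Derivation.map_algebraMap, sub_zero] at h3
    · -- case (b)
      push Not at hb
      have hvg2 : v g = 0 := by
        rw [hvg]
        refine Finset.sum_eq_zero fun c _ => ?_
        have h3 := hTbO c
        have h4 := hb c
        have h5 : v (T - algebraMap ℂ K c) = 0 := by omega
        rw [h5, mul_zero]
      refine key 0 (fun D hD => ?_) (by rw [hvg2]; simp) (by rw [hvg2]; simpa using hvT)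
      rw [zpow_zero, inv_one, one_mul]
      exact hD T hTO
  · -- case (c)
    obtain ⟨e, he⟩ : ∃ e, e = v T⁻¹ := ⟨_, rfl⟩
    have hvT : v T = -e := by
      rw [he, hv.map_inv hT0, neg_neg]
    have he1 : 1 ≤ e := by
      by_contra hlt
      apply hTO
      rw [hv.mem_iff hT0, hvT]
      omega
    have hTc : ∀ c : ℂ, v (T - algebraMap ℂ K c) = -e := by
      intro c
      have hcB : ∀ d : ℂ, -algebraMap ℂ K d = 0 ∨ (0 : ℤ) ≤ v (-algebraMap ℂ K d) := by
        intro d
        by_cases hd : d = 0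
        · left
          rw [hd, map_zero, neg_zero]
        · right
          rw [hv.map_neg ((map_ne_zero _).2 hd), P1_const hO hv hd]
      have h3 : -e ≤ v (T - algebraMap ℂ K c) := by
        have h4 := hv.le_add (x := T) (y := -algebraMap ℂ K c) (B := -e) (Or.inr hvT.ge) (by
          rcases hcB c with h | h
          · exact Or.inl h
          · right
            linarith)
        rw [← sub_eq_add_neg] at h4
        exact h4.resolve_left (hTb c)
      refine le_antisymm ?_ h3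
      by_contra hlt
      push Not at hlt
      have h4 := hv.le_add (x := T - algebraMap ℂ K c) (y := -algebraMap ℂ K (-c)) (B := -e + 1)
        (Or.inr (by omega)) (by
          rcases hcB (-c) with h | h
          · exact Or.inl h
          · right
            linarith)
      have h5 : T - algebraMap ℂ K c + -algebraMap ℂ K (-c) = T := by
        rw [map_neg]
        ring
      rw [h5] at h4
      have h6 := h4.resolve_left hT0
      omega
    have hvg2 : v g = -(e * ∑ b ∈ S, (n b : ℤ)) := by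
      rw [hvg, Finset.mul_sum, ← Finset.sum_neg_distrib]
      refine Finset.sum_congr rfl fun c _ => ?_
      rw [hTc c]
      ring
    have h3 := h2 O v hO hv (he ▸ he1)
    rw [← he] at h3
    refine key (-e - 1) (fun D hD => ?_) ?_ ?_
    · exact P1_der hO hv hπ0 hπ1 D hD hT0 hvT
    · rw [hvg2]
      have h4 : (M : ℤ) * (-e - 1) = -(M * (e + 1)) := by ring
      rw [h4, neg_neg]
      linarith
    · rw [hvg2, hvT]
      have h4 : (M : ℤ) * (-e - 1) = -(M * (e + 1)) := by ring
      rw [h4, neg_neg]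
      linarith

end Pool.Agent.AbPencil
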