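import Pool.Agent.Lib_MP_1209e6_sp.Defs

/-! PIECE U0: Moebius transformations. -/

set_option autoImplicit false

open Filter Topology

namespace Pool.Agent.AbPencil

private theorem order_mul_unit {s g : ℂ → ℂ} {z₀ : ℂ} (hs : AnalyticAt ℂ s z₀) (hg : AnalyticAt ℂ g z₀)
    (hg0 : g z₀ ≠ 0) : analyticOrderAt (fun z => s z * g z) z₀ = analyticOrderAt s z₀ := by
  have h := analyticOrderAt_mul hs hg
  have h0 : analyticOrderAt g z₀ = 0 := hg.analyticOrderAt_eq_zero.mpr hg0
  rw [h0, add_zero] at h
  exact h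

private theorem zero_of_order {s : ℂ → ℂ} {z₀ : ℂ} (hs : AnalyticAt ℂ s z₀) {n : ℕ} (hn : 1 ≤ n)
    (h : analyticOrderAt s z₀ = (n : ℕ)) : s z₀ = 0 := by
  rw [← hs.analyticOrderAt_ne_zero, h]
  intro h'
  have h2 : n = 0 := by exact_mod_cast h'
  omega

private theorem ne_zero_of_order {s : ℂ → ℂ} {z₀ : ℂ} (hs : AnalyticAt ℂ s z₀) {n : ℕ}
    (h : analyticOrderAt s z₀ = (n : ℕ)) : ∀ᶠ z in 𝓝[≠] z₀, s z ≠ 0 := by
  rcases hs.eventually_eq_zero_or_eventually_ne_zero with h' | h'
  · rw [← analyticOrderAt_eq_top, h] at h'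
    exact absurd h' (ENat.natCast_ne_top n)
  · exact h'

/-- At `z₀`: `u = b + s` gives `α u + β = (α b + β) + α s`; `u = 1/s` gives
`α u + β = 1/s'` with `s' = s / (α + β s)` (same order as `s`). -/
theorem ram_affine (μ : Option ℂ → ℕ) (h1 : ∀ b, 1 ≤ μ b) (u : ℂ → ℂ) (h : Ram μ u) (α β : ℂ)
    (hα : α ≠ 0) :
    Ram (fun b => μ (b.map fun c => (c - β) / α)) fun z => α * u z + β := by
  intro z₀
  obtain ⟨b, s, k, hk, hs, ho, he⟩ := h z₀
  cases b with
  | some c =>
    refine ⟨some (α * c + β), fun z => s z * α, k, hk, hs.mul analyticAt_const, ?_, ?_⟩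
    · rw [order_mul_unit hs analyticAt_const hα, ho]
      have : (some (α * c + β)).map (fun c => (c - β) / α) = some c := by
        simp only [Option.map_some, Option.some.injEq]
        field_simp
        ring
      simp only [this]
    · filter_upwards [he] with z hz
      rw [hz]
      simp only [pt]
      ring
  | none =>
    have hn : 1 ≤ k * μ none := Nat.mul_pos hk (h1 none)
    have hs0 := zero_of_order hs hn ho
    have hg : AnalyticAt ℂ (fun z => (α + β * s z)⁻¹) z₀ := by
      apply AnalyticAt.inv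
      · exact analyticAt_const.add (analyticAt_const.mul hs)
      · rw [hs0, mul_zero, add_zero]
        exact hα
    have hg0 : (fun z => (α + β * s z)⁻¹) z₀ ≠ 0 := by
      simp only [hs0, mul_zero, add_zero]
      exact inv_ne_zero hα
    refine ⟨none, fun z => s z * (α + β * s z)⁻¹, k, hk, hs.mul hg, ?_, ?_⟩
    · rw [order_mul_unit hs hg hg0, ho]
      rfl
    · filter_upwards [he, ne_zero_of_order hs ho] with z hz hz0
      rw [hz]
      simp only [pt]
      rw [mul_inv, inv_inv]
      field_simp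

/-- At `z₀`: `u = b + s`, `b ≠ 0`, gives `1/u = 1/b + s'` with `s' = - s / (b (b + s))`; `u = 0 + s` gives the
point `none` with the same `s`; `u = 1/s` gives the point `0` with the same `s`. -/
theorem ram_inv (μ : Option ℂ → ℕ) (h1 : ∀ b, 1 ≤ μ b) (u : ℂ → ℂ) (h : Ram μ u) :
    Ram (fun b => μ (inv b)) fun z => (u z)⁻¹ := by
  intro z₀
  obtain ⟨b, s, k, hk, hs, ho, he⟩ := h z₀
  cases b with
  | some c =>
    by_cases hc : c = 0
    · subst hc
      refine ⟨none, s, k, hk, hs, ?_, ?_⟩
      · rw [ho]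
        rfl
      · filter_upwards [he] with z hz
        rw [hz]
        simp only [pt, zero_add]
    · have hn : 1 ≤ k * μ (some c) := Nat.mul_pos hk (h1 _)
      have hs0 := zero_of_order hs hn ho
      have hd0 : c * (c + s z₀) ≠ 0 := by
        rw [hs0, add_zero]
        exact mul_ne_zero hc hc
      have hd : AnalyticAt ℂ (fun z => c * (c + s z)) z₀ :=
        analyticAt_const.mul (analyticAt_const.add hs)
      have hg : AnalyticAt ℂ (fun z => -(c * (c + s z))⁻¹) z₀ := (hd.inv hd0).neg
      have hg0 : (fun z => -(c * (c + s z))⁻¹) z₀ ≠ 0 := neg_ne_zero.mpr (inv_ne_zero hd0)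
      refine ⟨some c⁻¹, fun z => s z * (-(c * (c + s z))⁻¹), k, hk, hs.mul hg, ?_, ?_⟩
      · rw [order_mul_unit hs hg hg0, ho]
        have : inv (some c⁻¹) = some c := by
          have h' : c⁻¹ ≠ 0 := inv_ne_zero hc
          simp [inv, hc]
        simp only [this]
      · have hcont : ∀ᶠ z in 𝓝[≠] z₀, c * (c + s z) ≠ 0 :=
          (hd.continuousAt.eventually_ne hd0).filter_mono nhdsWithin_le_nhds
        filter_upwards [he, hcont] with z hz hz0
        rw [hz]
        simp only [pt]
        have hz1 : c + s z ≠ 0 := fun h' => hz0 (by rw [h', mul_zero])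
        field_simp
        ring
  | none =>
    refine ⟨some 0, s, k, hk, hs, ?_, ?_⟩
    · rw [ho]
      have : inv (some 0) = none := by simp [inv]
      simp only [this]
    · filter_upwards [he] with z hz
      rw [hz]
      simp only [pt, zero_add, inv_inv]

end Pool.Agent.AbPencil
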