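import Pool.Agent.Lib_MP_1209e6_sp.Defs

/-! PIECE U1: a criterion for `Ram`. -/

set_option autoImplicit false

open Filter Topology

namespace Pool.Agent.AbPencil

/-- Proof. At `z₀`: if `meromorphicOrderAt u z₀ < 0` take `b = none`, `s = u⁻¹` made analytic (`toMeromorphicNFAt`, or
write `u = (z - z₀)^n g` with `g` analytic, `g z₀ ≠ 0`, `n < 0`). Otherwise `u` agrees near `z₀` (`z ≠ z₀`) with an
analytic `u₁`; `c = u₁ z₀`, `b = some c`, `s = u₁ - c`, which is not locally zero by `hne` and has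
positive order. -/
theorem ram_of_order (μ : Option ℂ → ℕ) (h1 : ∀ b, 1 ≤ μ b) (u : ℂ → ℂ)
    (hu : ∀ z, MeromorphicAt u z) (hne : ∀ (e z₀ : ℂ), ∀ᶠ z in 𝓝[≠] z₀, u z ≠ e)
    (hfin : ∀ (c z₀ : ℂ) (n : ℤ), 0 < n → meromorphicOrderAt (fun z => u z - c) z₀ = n →
      (μ (some c) : ℤ) ∣ n)
    (hinf : ∀ (z₀ : ℂ) (n : ℤ), n < 0 → meromorphicOrderAt u z₀ = n → (μ none : ℤ) ∣ n) :
    Ram μ u := by
  intro z₀
  have htop : meromorphicOrderAt u z₀ ≠ ⊤ := by
    intro h
    rw [meromorphicOrderAt_eq_top_iff] at h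
    obtain ⟨z, hz1, hz2⟩ := (h.and (hne 0 z₀)).exists
    exact hz2 hz1
  obtain ⟨n, hn⟩ := WithTop.ne_top_iff_exists.mp htop
  obtain ⟨g, hg, hg0, hgu⟩ := (meromorphicOrderAt_eq_int_iff (hu z₀)).mp hn.symm
  rcases lt_or_ge n 0 with hn0 | hn0
  · obtain ⟨j, hj⟩ := hinf z₀ n hn0 hn.symm
    have hμ : (0 : ℤ) < (μ none : ℤ) := by exact_mod_cast h1 none
    have hj0 : j < 0 := by
      by_contra hcon
      push Not at hcon
      have : 0 ≤ n := by rw [hj]; positivity
      omega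
    have hk : ((-j).toNat : ℤ) = -j := Int.toNat_of_nonneg (by omega)
    refine ⟨none, fun z => (z - z₀) ^ ((-j).toNat * μ none) * (g z)⁻¹, (-j).toNat, by omega,
      ?_, ?_, ?_⟩
    · exact ((analyticAt_id.sub analyticAt_const).pow _).mul (hg.inv hg0)
    · have ha : AnalyticAt ℂ (fun z => (z - z₀) ^ ((-j).toNat * μ none) * (g z)⁻¹) z₀ :=
        ((analyticAt_id.sub analyticAt_const).pow _).mul (hg.inv hg0)
      rw [ha.analyticOrderAt_eq_natCast]
      exact ⟨fun z => (g z)⁻¹, hg.inv hg0, inv_ne_zero hg0, Eventually.of_forall fun z => by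
        rw [smul_eq_mul]⟩
    · filter_upwards [hgu] with z hz
      rw [hz, pt, smul_eq_mul, mul_inv, inv_inv]
      congr 1
      rw [← zpow_natCast, ← zpow_neg]
      congr 1
      push_cast
      rw [hk, hj]
      ring
  · obtain ⟨m, rfl⟩ := Int.eq_ofNat_of_zero_le hn0
    set u₁ : ℂ → ℂ := fun z => (z - z₀) ^ m * g z with hu₁
    have hu₁a : AnalyticAt ℂ u₁ z₀ := ((analyticAt_id.sub analyticAt_const).pow _).mul hg
    have huu : ∀ᶠ z in 𝓝[≠] z₀, u z = u₁ z := by
      filter_upwards [hgu] with z hz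
      rw [hz, hu₁, smul_eq_mul]
      simp
    set s : ℂ → ℂ := fun z => u₁ z - u₁ z₀ with hs
    have hsa : AnalyticAt ℂ s z₀ := hu₁a.sub analyticAt_const
    have hstop : analyticOrderAt s z₀ ≠ ⊤ := by
      intro h
      rw [analyticOrderAt_eq_top] at h
      obtain ⟨z, hz1, hz2, hz3⟩ :=
        ((h.filter_mono nhdsWithin_le_nhds).and (huu.and (hne (u₁ z₀) z₀))).exists
      apply hz3
      rw [hz2]
      simpa [hs, sub_eq_zero] using hz1
    obtain ⟨p, hp⟩ := ENat.ne_top_iff_exists.mp hstop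
    have hp0 : p ≠ 0 := by
      rintro rfl
      have : analyticOrderAt s z₀ = 0 := by rw [← hp]; rfl
      rw [hsa.analyticOrderAt_eq_zero] at this
      exact this (by simp [hs])
    have hmer : meromorphicOrderAt (fun z => u z - u₁ z₀) z₀ = (p : ℤ) := by
      have h2 : meromorphicOrderAt (fun z => u z - u₁ z₀) z₀ = meromorphicOrderAt s z₀ := by
        apply meromorphicOrderAt_congr
        filter_upwards [huu] with z hz
        rw [hs, hz]
      rw [h2, hsa.meromorphicOrderAt_eq, ← hp]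
      rfl
    obtain ⟨k, hk⟩ := hfin (u₁ z₀) z₀ p (by exact_mod_cast Nat.pos_of_ne_zero hp0) hmer
    have hμ : (0 : ℤ) < (μ (some (u₁ z₀)) : ℤ) := by exact_mod_cast h1 (some (u₁ z₀))
    have hp1 : (0 : ℤ) < (p : ℤ) := by exact_mod_cast Nat.pos_of_ne_zero hp0
    have hk0 : 0 < k := by
      by_contra hcon
      push Not at hcon
      have : (p : ℤ) ≤ 0 := by
        rw [hk]
        exact mul_nonpos_of_nonneg_of_nonpos hμ.le hcon
      omega
    have hkn : (k.toNat : ℤ) = k := Int.toNat_of_nonneg hk0.le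
    refine ⟨some (u₁ z₀), s, k.toNat, by omega, hsa, ?_, ?_⟩
    · rw [← hp]
      have : p = k.toNat * μ (some (u₁ z₀)) := by
        zify
        rw [hkn, hk]
        ring
      rw [this]
    · filter_upwards [huu] with z hz
      rw [hz, pt, hs]
      ring

end Pool.Agent.AbPencil
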